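import Pool.Agent.P.MP_50039c_nt.RS.Core

/-! The double plane branched along eight lines. -/

set_option autoImplicit false
set_option linter.unusedSectionVars false

namespace Pool.Agent.P.MP_50039c_nt.RS

open MvPolynomial Pool.Agent.P.MP_6f117a_ag PJ LV Finset
open scoped IntermediateField

universe u

namespace GT8

/-- The determinant of three lines. -/
def d3 {R : Type*} [CommRing R] (p q r : Fin 8 → R) (i j k : Fin 8) : R :=
  p i * (q j * r k - q k * r j) - p j * (q i * r k - q k * r i) + p k * (q i * r j - q j * r i)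

variable {L K : Type u} [Field L] [CharZero L] [Field K] [Algebra L K] {P : Loc L K}

theorem un_prod {l : Fin 8 → K} {T : Finset (Fin 8)} (h : ∀ n ∈ T, P.Un (l n)) :
    P.Un (∏ n ∈ T, l n) :=
  prod_induction _ _ (fun _ _ => Loc.Un.mul) Loc.un_one h

theorem loc8 (D E : Derivation L K K) (p q r : Fin 8 → L)
    (hd : ∀ i j k, i ≠ j → i ≠ k → j ≠ k → d3 p q r i j k ≠ 0) {a b W η : K} {l : Fin 8 → K}
    (ha : a ∈ P.O) (hb : b ∈ P.O)
    (hl : ∀ n, l n = algebraMap L K (p n) + algebraMap L K (q n) * a + algebraMap L K (r n) * b)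
    (hW : W ^ 2 = ∏ n, l n) (W0 : W ≠ 0) (hη : η * W = jac D E a b) (WO : W ∈ P.O)
    (hs : ∀ i j, i ≠ j → ∃ T : Finset (Fin 8), ((i ∈ T ∧ j ∉ T) ∨ (j ∈ T ∧ i ∉ T)) ∧
      W / ∏ n ∈ T, l n ∈ P.O) :
    Out P D E (fun Z => a ∈ Z ∧ b ∈ Z ∧
      ∀ T : Finset (Fin 8), W / ∏ n ∈ T, l n ∈ P.O → W / ∏ n ∈ T, l n ∈ Z) [η] := by
  obtain ⟨a₀, ha₀⟩ := P.res a ha
  obtain ⟨b₀, hb₀⟩ := P.res b hb
  have lZ : ∀ {Z : Subalgebra L K}, a ∈ Z → b ∈ Z → ∀ n, l n ∈ Z := fun {Z} h1 h2 n =>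
    hl n ▸ add_mem (add_mem (Z.algebraMap_mem _) (mul_mem (Z.algebraMap_mem _) h1))
      (mul_mem (Z.algebraMap_mem _) h2)
  have l0 : ∀ n, l n ≠ 0 := fun n =>
    prod_ne_zero_iff.1 (hW ▸ pow_ne_zero 2 W0) n (mem_univ n)
  obtain ⟨Q, hQ⟩ : ∃ Q : Fin 8 → MvPolynomial (Fin 4) L,
    ∀ n, Q n = C (p n) + C (q n) * X 0 + C (r n) * X 1 := ⟨_, fun _ => rfl⟩
  have Qa : ∀ (s t : K) n, aeval ![a, b, s, t] (Q n) = l n := fun s t n => by simp [hQ, hl]
  have Qe : ∀ (s t : L) n, eval ![a₀, b₀, s, t] (Q n) = p n + q n * a₀ + r n * b₀ :=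
    fun s t n => by simp [hQ]
  have Q2 : ∀ T : Finset (Fin 8), pderiv 2 (∏ n ∈ T, Q n) = 0 := fun T =>
    prod_induction _ (fun F => pderiv 2 F = 0) (fun F G h1 h2 => by simp [h1, h2]) (by simp)
      fun n _ => by simp [hQ]
  have at0 := at4 ha₀ hb₀ ha₀ hb₀
  have lu : ∀ n, p n + q n * a₀ + r n * b₀ ≠ 0 → P.Un (l n) := fun n h =>
    at0.un' (Q n) (Qa _ _ n).symm (by rwa [Qe])
  have lm : ∀ n, p n + q n * a₀ + r n * b₀ = 0 → l n ∈ P.m := fun n h =>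
    at0.m' (Q n) (Qa _ _ n).symm (by rwa [Qe])
  have c1 : ∀ Z, P.Sq Z → a ∈ Z → b ∈ Z → W ∈ Z → ∀ T : Finset (Fin 8),
      (∀ n ∈ T, P.Un (l n)) → W / ∏ n ∈ T, l n ∈ Z := fun Z hZ h1 h2 h3 T h =>
    hZ.div_mem h3 (un_prod h) (prod_mem fun n _ => lZ h1 h2 n)
  have c2 : ∀ (T : Finset (Fin 8)) i, i ∈ T → l i ∈ P.m → (∀ n, n ∉ T → P.Un (l n)) →
      W / ∏ n ∈ T, l n ∉ P.O := by
    intro T i h1 h2 h3 h4
    have h5 : ∏ n ∈ T, l n ∈ P.m := by
      rw [← mul_prod_erase T l h1]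
      exact Loc.mul' h2 (prod_mem fun n _ => lZ ha hb n)
    refine (un_prod (T := Tᶜ) fun n k => h3 n (mem_compl.1 k)).2 ?_
    have h6 : ∏ n ∈ T, l n ≠ 0 := prod_ne_zero_iff.2 fun n _ => l0 n
    have h7 := P.mul _ (pow_mem h4 2) _ h5
    rwa [div_pow, hW, ← prod_mul_prod_compl T l, show (∏ n ∈ T, l n) * (∏ n ∈ Tᶜ, l n) /
      (∏ n ∈ T, l n) ^ 2 * ∏ n ∈ T, l n = ∏ n ∈ Tᶜ, l n by field_simp] at h7
  have two : ∀ i j, i ≠ j → p i + q i * a₀ + r i * b₀ = 0 → p j + q j * a₀ + r j * b₀ = 0 →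
      W / l i ∈ P.O → Out P D E (fun Z => a ∈ Z ∧ b ∈ Z ∧
        ∀ T : Finset (Fin 8), W / ∏ n ∈ T, l n ∈ P.O → W / ∏ n ∈ T, l n ∈ Z) [η] := by
    intro i j hij hi hj hv
    have key : ∀ k, k ≠ i → k ≠ j → p k + q k * a₀ + r k * b₀ ≠ 0 ∧ q i * r j - q j * r i ≠ 0 :=
      fun k h1 h2 => mul_ne_zero_iff.1 fun e => hd i j k hij h1.symm h2.symm (by
        unfold d3
        linear_combination e + (q j * r k - q k * r j) * hi - (q i * r k - q k * r i) * hj)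
    obtain ⟨k₀, k1, k2⟩ := (by decide : ∀ i j : Fin 8, ∃ k, k ≠ i ∧ k ≠ j) i j
    obtain ⟨v, rfl⟩ : ∃ v, W = v * l i := ⟨W / l i, by field_simp [l0 i]⟩
    rw [mul_div_cancel_right₀ _ (l0 i)] at hv
    obtain ⟨v₀, hv₀⟩ := P.res v hv
    have at' := at4 (c₃ := 0) ha₀ hb₀ hv₀ (by simpa using lm i hi)
    have mj : j ∈ univ.erase i := mem_erase.2 ⟨hij.symm, mem_univ _⟩
    have ou : ∀ n ∈ (univ.erase i).erase j, p n + q n * a₀ + r n * b₀ ≠ 0 := fun n h =>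
      (key n (mem_erase.1 (mem_erase.1 h).2).1 (mem_erase.1 h).1).1
    have e1 : v ^ 2 * l i = l j * ∏ n ∈ (univ.erase i).erase j, l n := by
      refine mul_left_cancel₀ (l0 i) ?_
      rw [mul_prod_erase _ l mj, mul_prod_erase _ l (mem_univ i), ← hW]; ring
    have Ua : aeval ![a, b, v, l i] (∏ n ∈ (univ.erase i).erase j, Q n) =
      ∏ n ∈ (univ.erase i).erase j, l n := by simp only [map_prod, Qa]
    have Ue : eval ![a₀, b₀, v₀, 0] (∏ n ∈ (univ.erase i).erase j, Q n) ≠ 0 := by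
      simp only [map_prod, Qe]; exact prod_ne_zero_iff.2 ou
    have U2 := Q2 ((univ.erase i).erase j)
    have Uu := un_prod fun n h => lu n (ou n h)
    have UZ : ∀ {Z : Subalgebra L K}, a ∈ Z → b ∈ Z → ∏ n ∈ (univ.erase i).erase j, l n ∈ Z :=
      fun h1 h2 => prod_mem fun n _ => lZ h1 h2 n
    generalize ∏ n ∈ (univ.erase i).erase j, Q n = U at Ua Ue U2
    generalize ∏ n ∈ (univ.erase i).erase j, l n = u at Ua e1 Uu UZ
    refine chart D E at' (X 2 ^ 2 * X 3 - Q j * U) (X 3 - Q i) (X 0) (X 1)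
      (by simp [Qa, Ua, e1]) (by simp [Qa]) (fun _ _ => ⟨0, 1, fun e => ?_⟩) 2
      (ofNat_mem _ 2) W0 (by simp [det4, grad, hQ, U2]; ring) hη (by simp) (by simp)
      fun Z hZ hx => ⟨hx 0, hx 1, fun T hT => ?_⟩
    · simp [hQ, hj] at e
      exact mul_ne_zero Ue (key k₀ k1 k2).2 (by linear_combination -e)
    have un : ∀ n, n ≠ i → n ≠ j → P.Un (l n) := fun n h1 h2 => lu n (key n h1 h2).1
    by_cases ti : i ∈ T <;> by_cases tj : j ∈ T
    · exact absurd hT (c2 T i ti (lm i hi) fun n h => un n (fun e => h (e ▸ ti)) fun e => h (e ▸ tj))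
    · rw [← mul_prod_erase T l ti, mul_comm v, mul_div_mul_left _ _ (l0 i)]
      exact hZ.div_mem (hx 2) (un_prod fun n h => un n (mem_erase.1 h).1
        fun e => tj (e ▸ (mem_erase.1 h).2)) (prod_mem fun n _ => lZ (hx 0) (hx 1) n)
    · have t1 := un_prod (T := T.erase j) fun n h => un n (fun e => ti (e ▸ (mem_erase.1 h).2))
        (mem_erase.1 h).1
      have t2 : ∏ n ∈ T.erase j, l n ∈ Z := prod_mem fun n _ => lZ (hx 0) (hx 1) n
      rw [← mul_prod_erase T l tj] at hT ⊢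
      generalize ∏ n ∈ T.erase j, l n = t at t1 t2 hT
      have t0 := t1.ne
      have j0 := l0 j
      have e2 : v * l i / (l j * t) * t * v = u := by field_simp; linear_combination e1
      have vu : P.Un v := ⟨hv, fun h => Uu.2 (e2 ▸ P.mul _ (mul_mem hT t1.1) _ h)⟩
      refine hZ.cancel hT (t1.mul vu) (mul_mem t2 (hx 2)) ?_
      rw [← mul_assoc, e2]
      exact UZ (hx 0) (hx 1)
    · exact c1 Z hZ (hx 0) (hx 1) (mul_mem (hx 2) (hx 3)) T fun n h =>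
        un n (fun e => ti (e ▸ h)) fun e => tj (e ▸ h)
  by_cases h1 : ∃ i, p i + q i * a₀ + r i * b₀ = 0
  swap
  · push Not at h1
    have Wu : P.Un W := Loc.un_of_sq (.inl WO) (hW ▸ un_prod fun n _ => lu n (h1 n))
    refine ⟨a, ha, b, hb, fun Z hZ h2 h3 => ⟨h2, h3, fun T _ => c1 Z hZ h2 h3
      (hZ.of_sq Wu (hW ▸ prod_mem fun n _ => lZ h2 h3 n)) T fun n _ => lu n (h1 n)⟩,
      fun y hy => ⟨_, Wu.inv.1, ?_⟩⟩
    rw [List.mem_singleton.1 hy, ← hη]; field_simp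
  obtain ⟨i, hi⟩ := h1
  by_cases h2 : ∃ j, j ≠ i ∧ p j + q j * a₀ + r j * b₀ = 0
  · obtain ⟨j, hij, hj⟩ := h2
    have aux : ∀ (T : Finset (Fin 8)) i, i ∈ T → W / ∏ n ∈ T, l n ∈ P.O → W / l i ∈ P.O := by
      intro T i k1 k2
      have k3 := mul_mem k2 (prod_mem (t := T.erase i) fun n _ => lZ ha hb n)
      have k4 : ∏ n ∈ T.erase i, l n ≠ 0 := prod_ne_zero_iff.2 fun n _ => l0 n
      have k5 := l0 i
      rwa [← mul_prod_erase T l k1, show W / (l i * ∏ n ∈ T.erase i, l n) * ∏ n ∈ T.erase i, l n =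
        W / l i by field_simp] at k3
    obtain ⟨T, k | k, k'⟩ := hs i j hij.symm
    exacts [two i j hij.symm hi hj (aux T i k.1 k'), two j i hij hj hi (aux T j k.1 k')]
  push Not at h2
  obtain ⟨w₀, hw₀⟩ := P.res W WO
  have at' := at4 (c₃ := 0) ha₀ hb₀ hw₀ (by simpa using lm i hi)
  have e1 : W ^ 2 = l i * ∏ n ∈ univ.erase i, l n := by rw [mul_prod_erase _ l (mem_univ i), hW]
  have Ua : aeval ![a, b, W, l i] (∏ n ∈ univ.erase i, Q n) = ∏ n ∈ univ.erase i, l n := by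
    simp only [map_prod, Qa]
  have Ue : eval ![a₀, b₀, w₀, 0] (∏ n ∈ univ.erase i, Q n) ≠ 0 := by
    simp only [map_prod, Qe]; exact prod_ne_zero_iff.2 fun n h => h2 n (mem_erase.1 h).1
  have U2 := Q2 (univ.erase i)
  generalize ∏ n ∈ univ.erase i, Q n = U at Ua Ue U2
  generalize ∏ n ∈ univ.erase i, l n = u at Ua e1
  refine chart D E at' (X 2 ^ 2 - X 3 * U) (X 3 - Q i) (X 0) (X 1)
    (by simp [Ua, e1]) (by simp [Qa]) (fun _ _ => ?_) 2
    (ofNat_mem _ 2) W0 (by simp [det4, grad, hQ, U2]) hη (by simp) (by simp)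
    fun Z hZ hx => ⟨hx 0, hx 1, fun T hT => ?_⟩
  · by_cases k1 : q i = 0
    · refine ⟨3, 1, ?_⟩
      obtain ⟨j, k, k2, k3, k4⟩ := (by decide : ∀ i : Fin 8, ∃ j k, i ≠ j ∧ i ≠ k ∧ j ≠ k) i
      have k5 : r i ≠ 0 := fun e => hd i j k k2 k3 k4 (by
        have : p i = 0 := by simpa [k1, e] using hi
        simp [d3, k1, e, this])
      simp [hQ, Ue, k5]
    · exact ⟨3, 0, by simp [hQ, Ue, k1]⟩
  by_cases ti : i ∈ T
  · exact absurd hT (c2 T i ti (lm i hi) fun n h => lu n (h2 n fun e => h (e ▸ ti)))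
  · exact c1 Z hZ (hx 0) (hx 1) (hx 2) T fun n h => lu n (h2 n fun e => ti (e ▸ h))

/-- Three splittings of the eight lines into two sets of four. -/
def I : Fin 3 → Finset (Fin 8) := ![{1, 3, 5, 7}, {2, 3, 6, 7}, {4, 5, 6, 7}]

theorem wrap (D E : Derivation L K K) (p q r : Fin 8 → L)
    (hd : ∀ i j k, i ≠ j → i ≠ k → j ≠ k → d3 p q r i j k ≠ 0) {a b w s η : K} {l : Fin 8 → K}
    (s0 : s ≠ 0) (ha : a ∈ P.O) (hb : b ∈ P.O)
    (hl : ∀ n, l n / s = algebraMap L K (p n) + algebraMap L K (q n) * a + algebraMap L K (r n) * b)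
    (hw : w ^ 2 = ∏ n, l n) (w0 : w ≠ 0) (hη : η * (w / s ^ 4) = jac D E a b)
    (hD : ∀ k, Domi P [w, ∏ n ∈ I k, l n]) :
    Out P D E (fun Z => a ∈ Z ∧ b ∈ Z ∧ ∀ k, Cov P Z [w, ∏ n ∈ I k, l n]) [η] := by
  have l0 : ∀ T : Finset (Fin 8), ∏ n ∈ T, l n ≠ 0 := fun T => prod_ne_zero_iff.2 fun n _ =>
    prod_ne_zero_iff.1 (hw ▸ pow_ne_zero 2 w0) n (mem_univ n)
  have h4 : ∀ T : Finset (Fin 8), T.card = 4 →
      w / s ^ 4 / ∏ n ∈ T, l n / s = w / ∏ n ∈ T, l n := fun T h => by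
    rw [prod_div_distrib, prod_const, h, div_div_div_cancel_right₀ (pow_ne_zero 4 s0)]
  have hc : ∀ T : Finset (Fin 8), (∏ n ∈ T, l n) / w = w / ∏ n ∈ Tᶜ, l n := fun T => by
    rw [div_eq_div_iff w0 (l0 _), prod_mul_prod_compl, ← hw, sq]
  have c1 : ∀ k, (I k).card = 4 := by decide
  have c2 : ∀ k, (I k)ᶜ.card = 4 := by decide
  have hT : ∀ k, ∃ T, (T = I k ∨ T = (I k)ᶜ) ∧ w / s ^ 4 / ∏ n ∈ T, l n / s ∈ P.O := fun k => by
    obtain ⟨z, h1, -, h2⟩ := hD k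
    rcases List.mem_pair.1 h1 with rfl | rfl
    · exact ⟨_, .inr rfl, by rw [h4 _ (c2 k), ← hc]; exact h2 _ (by simp)⟩
    · exact ⟨_, .inl rfl, by rw [h4 _ (c1 k)]; exact h2 _ (by simp)⟩
  refine (loc8 D E p q r hd (l := fun n => l n / s) ha hb hl ?_ (div_ne_zero w0 (pow_ne_zero 4 s0))
    hη ?_ fun i j hij => ?_).mono (fun Z hZ h => ⟨h.1, h.2.1, fun k z h1 z0 h2 y h3 => ?_⟩)
      fun y hy => ⟨1, one_mem _, by simpa using hy⟩
  · rw [prod_div_distrib, ← hw, div_pow, ← pow_mul]; simp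
  · obtain ⟨T, -, h⟩ := hT 0
    have := mul_mem h (prod_mem (t := T) (f := fun n => l n / s) fun n _ => hl n ▸ add_mem (add_mem
      (P.O.algebraMap_mem _) (mul_mem (P.O.algebraMap_mem _) ha)) (mul_mem (P.O.algebraMap_mem _) hb))
    rwa [div_mul_cancel₀ _ (by rw [prod_div_distrib]; exact div_ne_zero (l0 T) (by simp [s0]))]
      at this
  · obtain ⟨k, hk⟩ := (by decide : ∀ i j : Fin 8, i ≠ j → ∃ k, (i ∈ I k ∧ j ∉ I k) ∨
      (j ∈ I k ∧ i ∉ I k)) i j hij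
    obtain ⟨T, rfl | rfl, h⟩ := hT k
    · exact ⟨_, hk, h⟩
    · exact ⟨_, by simp only [mem_compl, not_not]; tauto, h⟩
  rcases List.mem_pair.1 h1 with rfl | rfl <;> rcases List.mem_pair.1 h3 with rfl | rfl
  · rw [div_self z0]; exact one_mem _
  · have := h2 _ h3
    rw [hc, ← h4 _ (c2 k)] at this ⊢
    exact h.2.2 _ this
  · have := h2 _ h3
    rw [← h4 _ (c1 k)] at this ⊢
    exact h.2.2 _ this
  · rw [div_self z0]; exact one_mem _

theorem jac_inv (D E : Derivation L K K) {x : K} (y : K) (h : x ≠ 0) :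
    jac D E (1 / x) (y / x) = -jac D E x y / x ^ 3 := by
  simp only [jac, Derivation.leibniz_div, Derivation.map_one_eq_zero, smul_eq_mul]
  field_simp
  ring

end GT8

open GT8 in
theorem p_GT8 (L : Type u) [Field L] [IsAlgClosed L] [CharZero L] (hLOC : LV.S_LOC L) :
    S_GT8 L := by
  intro K _ _ x y w ht hw hK
  obtain ⟨i, hi⟩ := IsAlgClosed.exists_pow_nat_eq (-1 : L) two_pos
  let A : Fin 8 → ℤ := ![0, 0, 0, 0, 1, -1, 1, -1]
  let B : Fin 8 → ℤ := ![2, -2, 1, -1, 0, 0, 0, 0]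
  let Q : Fin 8 → ℤ := ![1, 1, 0, 0, 1, 1, -1, -1]
  let R : Fin 8 → ℤ := ![0, 0, 1, 1, 1, 1, 1, 1]
  obtain ⟨p, hp⟩ : ∃ p : Fin 8 → L, ∀ n, p n = A n + B n * i := ⟨_, fun _ => rfl⟩
  obtain ⟨q, hq⟩ : ∃ q : Fin 8 → L, ∀ n, q n = Q n := ⟨_, fun _ => rfl⟩
  obtain ⟨r, hr⟩ : ∃ r : Fin 8 → L, ∀ n, r n = R n := ⟨_, fun _ => rfl⟩
  have hd : ∀ a b c, a ≠ b → a ≠ c → b ≠ c → d3 p q r a b c ≠ 0 := fun a b c h1 h2 h3 e => by
    have := (by decide : ∀ a b c : Fin 8, a ≠ b → a ≠ c → b ≠ c →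
      d3 A Q R a b c ^ 2 + d3 B Q R a b c ^ 2 ≠ 0) a b c h1 h2 h3
    refine this (Int.cast_injective (α := L) ?_)
    have e1 : d3 p q r a b c = (d3 A Q R a b c : ℤ) + (d3 B Q R a b c : ℤ) * i := by
      simp only [d3, hp, hq, hr]; push_cast; ring
    rw [e1] at e
    push_cast
    linear_combination ((d3 A Q R a b c : ℤ) - (d3 B Q R a b c : ℤ) * i) * e +
      ((d3 B Q R a b c : ℤ) : L) ^ 2 * hi
  obtain ⟨l, hl⟩ : ∃ l : Fin 8 → K, ∀ n, l n = algebraMap L K (p n) + algebraMap L K (q n) * x +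
    algebraMap L K (r n) * y := ⟨_, fun _ => rfl⟩
  have w0 : w ≠ 0 := fun e => by
    have := congrArg (eval 0) (ht.1.eq_zero_of_aeval_eq_zero (Oct (X 0) (X 1))
      (by simpa [Oct, e] using hw.symm))
    simp [Oct, map_ofNat] at this
  have hi' : algebraMap L K i ^ 2 = -1 := by rw [← map_pow, hi]; simp
  have hW : w ^ 2 = ∏ n, l n := by
    simp only [hw, Fin.prod_univ_eight, hl, hp, hq, hr, A, B, Q, R]
    simp [Oct, map_ofNat]
    linear_combination ((y ^ 2 - 1 - x ^ 2) ^ 2 - 4 * x ^ 2) *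
      (x ^ 2 + 4 * y ^ 2 + 4 - 4 * algebraMap L K i ^ 2) * hi'
  have l0 : ∏ n ∈ I 0, l n ≠ 0 := prod_ne_zero_iff.2 fun n _ =>
    prod_ne_zero_iff.1 (hW ▸ pow_ne_zero 2 w0) n (mem_univ n)
  refine seg hLOC (fun s : Option (Fin 3) => s.elim [1, x, y] fun k => [w, ∏ n ∈ I k, l n])
    (by simp [Fintype.prod_option]) (fun s => ?_) ht {x, y, w / ∏ n ∈ I 0, l n} ?_ ?_ w⁻¹
    (inv_ne_zero w0) fun D E hj P hD => ?_
  · cases s
    exacts [⟨1, by simp, one_ne_zero⟩, ⟨w, by simp, w0⟩]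
  · refine top_le_iff.1 (hK ▸ IntermediateField.adjoin_le_iff.2 ?_)
    have m := IntermediateField.subset_adjoin L {x, y, w / ∏ n ∈ I 0, l n}
    generalize IntermediateField.adjoin L {x, y, w / ∏ n ∈ I 0, l n} = F at m
    have hx : x ∈ F := m (by simp)
    have hy : y ∈ F := m (by simp)
    have := mul_mem (show w / ∏ n ∈ I 0, l n ∈ F from m (by simp)) (prod_mem (t := I 0) (f := l)
      fun n _ => hl n ▸ add_mem (add_mem (F.algebraMap_mem _) (mul_mem (F.algebraMap_mem _) hx))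
        (mul_mem (F.algebraMap_mem _) hy))
    rw [div_mul_cancel₀ _ l0] at this
    rintro _ (rfl | rfl | rfl) <;> assumption
  · rintro _ (rfl | rfl | rfl)
    · exact ⟨none, _, by simp, 1, by simp, one_ne_zero, (div_one _).symm⟩
    · exact ⟨none, _, by simp, 1, by simp, one_ne_zero, (div_one _).symm⟩
    · exact ⟨some 0, _, by simp, _, by simp, l0, rfl⟩
  obtain ⟨s, hs, s0, h⟩ := hD none
  have h1 := h 1 (by simp)
  have hx := h x (by simp)
  have hy := h y (by simp)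
  have cv : ∀ Z, P.Sq Z → 1 / s ∈ Z → x / s ∈ Z → y / s ∈ Z →
      (∀ k, Cov P Z [w, ∏ n ∈ I k, l n]) → ∀ t : Option (Fin 3),
        Cov P Z (t.elim [1, x, y] fun k => [w, ∏ n ∈ I k, l n]) := by
    rintro Z hZ k1 k2 k3 k4 (_ | k)
    · exact cov_of hZ s0 (by simpa using ⟨by simpa using k1, k2, k3⟩)
        ⟨s, hs, by rw [div_self s0]; exact Loc.un_one⟩ h
    · exact k4 k
  have o : ∀ Z : Subalgebra L K, s / s ∈ Z := fun Z => by rw [div_self s0]; exact one_mem _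
  simp only [Option.elim, List.mem_cons, List.not_mem_nil, or_false] at hs
  rcases hs with rfl | rfl | rfl
  · refine (wrap D E p q r hd (η := w⁻¹) s0 hx hy (by simp [hl]) hW w0 (by simp [hj, w0])
      fun k => hD (some k)).mono (fun Z hZ k => cv Z hZ (o Z) k.1 k.2.1 k.2.2) ?_
    simp only [List.forall_mem_cons]
    exact ⟨⟨1, one_mem _, by simp⟩, ⟨_, hx, by simp⟩, ⟨_, hy, by simp⟩, by simp⟩
  · refine (wrap D E q p r (fun a b c k1 k2 k3 e => hd a b c k1 k2 k3 ?_) (η := -s / w) s0 h1 hy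
      (fun n => by rw [hl]; field_simp; ring) hW w0 (by rw [jac_inv D E _ s0, hj]; field_simp)
      fun k => hD (some k)).mono (fun Z hZ k => cv Z hZ k.1 (o Z) k.2.1 k.2.2) ?_
    · unfold d3 at e ⊢; linear_combination -e
    simp only [List.forall_mem_cons]
    exact ⟨⟨_, neg_mem h1, by field_simp⟩, ⟨_, neg_mem hx, by field_simp⟩,
      ⟨_, neg_mem hy, by field_simp⟩, by simp⟩
  · have hj' : jac D E s x = -1 := by unfold jac at hj ⊢; linear_combination -hj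
    refine (wrap D E r p q (fun a b c k1 k2 k3 e => hd a b c k1 k2 k3 ?_) (η := s / w) s0 h1 hx
      (fun n => by rw [hl]; field_simp; ring) hW w0 (by rw [jac_inv D E _ s0, hj']; field_simp)
      fun k => hD (some k)).mono (fun Z hZ k => cv Z hZ k.1 k.2.1 (o Z) k.2.2) ?_
    · unfold d3 at e ⊢; linear_combination e
    simp only [List.forall_mem_cons]
    exact ⟨⟨_, h1, by field_simp⟩, ⟨_, hx, by field_simp⟩, ⟨_, hy, by field_simp⟩, by simp⟩

end Pool.Agent.P.MP_50039c_nt.RS
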