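import Pool.Agent.P.MP_50039c_nt.RS.VDef

/-! Step N1. -/

set_option autoImplicit false
set_option linter.unusedSectionVars false

namespace Pool.Agent.P.MP_50039c_nt.RS

open MvPolynomial Pool.Agent.P.MP_6f117a_ag PJ LV

universe u

theorem p_N1 (L : Type u) [Field L] [CharZero L] : S_N1 L := by
  intro K _ _ P D E t g u r η t₀ g₀ u₀ r₀ h hr hc hD
  subst hr
  have tO : t ∈ P.O := mem_of_res (h.res 0)
  have gO : g ∈ P.O := mem_of_res (h.res 1)
  have hu := h.hu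
  have hΦ := h.hΦ
  have e0 := h.eΦ
  simp only [cc, Ph] at hc e0 hu hΦ
  have u0 : u ≠ 0 := fun e => h.N0 (by simp [e])
  have hW := hD.sub [r * 1 ^ 2, cc 1 t * 1 ^ 2, u * 1 * 1] (by simp [sys]) (by
    simp only [sys, Matrix.cons_val, List.mem_cons, List.not_mem_nil, or_false, forall_eq_or_imp,
      forall_eq, exists_eq_or_imp, exists_eq_left]
    exact ⟨.inl ⟨1, one_mem _, by ring⟩, .inr (.inl ⟨_, pow_mem gO 2, by ring⟩),
      .inr (.inl ⟨1, one_mem _, by ring⟩), .inr (.inr ⟨g, gO, by ring⟩),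
      .inr (.inr ⟨1, one_mem _, by ring⟩)⟩)
  have r0 : r ≠ 0 := fun e => u0 (by simpa [e] using hu)
  have c0 : cc 1 t ≠ 0 := fun e => u0 (by simpa [e] using h.hu)
  have cs : u / cc 1 t ∈ P.O ∨ u / r ∈ P.O := by
    obtain ⟨s, hs, -, h1⟩ := hW
    simp only [one_pow, mul_one, List.mem_cons, List.not_mem_nil, or_false, forall_eq_or_imp,
      forall_eq] at hs h1
    rcases hs with rfl | rfl | rfl
    · exact .inr h1.2.2
    · exact .inl h1.2.2
    · refine .inl (by convert h1.1 using 1; field_simp; linear_combination h.hu)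
  rcases cs with h1 | h1
  · obtain ⟨v, rfl⟩ : ∃ v, u = v * cc 1 t := ⟨u / cc 1 t, by field_simp⟩
    rw [mul_div_cancel_right₀ _ c0] at h1
    obtain rfl : r = v ^ 2 * cc 1 t := mul_right_cancel₀ c0 (by linear_combination -h.hu)
    obtain ⟨v₀, hv⟩ := P.res v h1
    obtain ⟨w₀, hw⟩ := P.res _ (pow_mem h1 2)
    have at' := at4 (x₀ := t) (x₁ := g) (c₀ := t₀) (c₁ := g₀) (h.res 0) (h.res 1) hv hw
    refine chart D E at' (X 2 ^ 2 - X 3) (Ph 1 (X 0) (X 1 ^ 2) 1 (X 3 * cc 1 (X 0))) (X 0) (X 1)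
      (by simp) (by simpa [Ph, cc] using hΦ) (fun _ _ => ⟨3, 1, ?_⟩) 1 (one_mem _) h.N0
      (by simp [det4, grad, Ph, Pr, cc, pd_nat]; ring) h.hη (by simp) (by simp) fun Z hZ hx =>
      ⟨mem4 (hx 0) (hx 1) (mem_aeval hx (X 2 * cc 1 (X 0)) (by simp [cc]))
        (mem_aeval hx (X 3 * cc 1 (X 0)) (by simp [cc])),
      at'.cov hZ hx c0 [X 3, X 1 ^ 2, 1, X 2 * X 1, X 2] (by simp) (by simp [sys]; grind)⟩
    simp [Ph, cc, pd_nat]
    grind
  · obtain ⟨v, rfl⟩ : ∃ v, u = v * r := ⟨u / r, by field_simp⟩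
    rw [mul_div_cancel_right₀ _ r0] at h1
    have e1 : cc 1 t = v ^ 2 * r := mul_right_cancel₀ r0 (by linear_combination -h.hu)
    obtain ⟨v₀, hv⟩ := P.res v h1
    have at' := at4 (h.res 0) (h.res 1) hv (h.res 3)
    refine chart D E at' (X 2 ^ 2 * X 3 - cc 1 (X 0)) (Ph 1 (X 0) (X 1 ^ 2) 1 (X 3)) (X 0) (X 1)
      (by simpa [cc, sub_eq_zero] using e1.symm) (by simpa [Ph, cc] using hΦ)
      (fun _ _ => ⟨0, 1, ?_⟩) 1 (one_mem _) h.N0
      (by simp [det4, grad, Ph, Pr, cc, pd_nat]; ring) h.hη (by simp) (by simp) fun Z hZ hx =>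
      ⟨mem4 (hx 0) (hx 1) (mul_mem (hx 2) (hx 3)) (hx 3),
      at'.cov hZ hx r0 [1, X 2 ^ 2 * X 1 ^ 2, X 2 ^ 2, X 2 * X 1, X 2] (by simp)
        (by simp [sys, e1]; grind)⟩
    simp [Ph, cc, pd_nat]
    grind

end Pool.Agent.P.MP_50039c_nt.RS
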