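import Pool.Agent.P.MP_50039c_nt.RS.VDef

/-! Step N2. -/

set_option autoImplicit false
set_option linter.unusedSectionVars false

namespace Pool.Agent.P.MP_50039c_nt.RS

open MvPolynomial Pool.Agent.P.MP_6f117a_ag PJ LV

universe u

/-- The equation of the surface as a quadratic form in `(g ^ 2 - 1, t - 1, u ^ 2)`. -/
def n2G {R : Type*} [CommRing R] (t g a b w : R) : R :=
  cc 1 t ^ 2 * ((1 - 2 * t) * a ^ 2 + b ^ 2 * g ^ 2) - cc 1 t * b * (t + 1) * (g ^ 2 + 1) * w +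
    (t ^ 2 + 2 * t) * w ^ 2

section
variable {L K : Type u} [Field L] [Field K] [Algebra L K] {P : Loc L K} {D E : Derivation L K K}
  {t g u r η : K} {g₀ : L} {Z : Subalgebra L K}

theorem n2_eq {t₀ u₀ r₀ : L} (h : PtA P D E t g u r η t₀ g₀ u₀ r₀) {ν a b w : K} (h0 : ν ≠ 0)
    (ha : g ^ 2 - 1 = ν * a) (hb : t - 1 = ν * b) (hw : u ^ 2 = ν * w) : n2G t g a b w = 0 := by
  refine mul_left_cancel₀ (pow_ne_zero 2 h0) ?_
  have e : ν ^ 2 * n2G t g a b w = n2G t g (ν * a) (ν * b) (ν * w) := by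
    simp only [n2G]; ring
  have hΦ := h.hΦ
  rw [e, ← ha, ← hb, ← hw, h.hu, n2G]
  rw [Ph] at hΦ
  linear_combination cc 1 t ^ 2 * hΦ

theorem n2_at {x₀ x₁ x₂ x₃ x₄ : K} {c₀ c₁ c₂ c₃ c₄ : L}
    (h : At P ![x₀, x₁, x₂, x₃] ![c₀, c₁, c₂, c₃]) (h₄ : x₄ - algebraMap L K c₄ ∈ P.m) :
    At P ![x₀, x₁, x₂, x₃, x₄] ![c₀, c₁, c₂, c₃, c₄] := fun i => by
  fin_cases i
  exacts [h 0, h 1, h 2, h 3, h₄]

theorem n2_mem {x₀ x₁ x₂ x₃ x₄ : K} (h : ∀ i, ![x₀, x₁, x₂, x₃] i ∈ Z) (h₄ : x₄ ∈ Z) :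
    ∀ i, ![x₀, x₁, x₂, x₃, x₄] i ∈ Z := fun i => by
  fin_cases i
  exacts [h 0, h 1, h 2, h 3, h₄]

theorem n2_cZ (h : t ∈ Z) : cc 1 t ∈ Z :=
  mem_aeval (x := ![t]) (fun i => by fin_cases i; exact h) (cc 1 (X 0)) (by simp [cc])

variable [CharZero L]

theorem n2_un (h : PtA P D E t g u r η 1 g₀ 0 0) : P.Un (cc 1 t) :=
  h.res.un' (cc 1 (X 0)) (by simp [cc]) (by simp [cc])

theorem n2_c1 (h : PtA P D E t g u r η 1 g₀ 0 0) (hg : g₀ ^ 2 = 1) (h1 : (t - 1) / r ∈ P.O)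
    (h2 : (g ^ 2 - 1) / r ∈ P.O) : Out P D E
    (fun Z => (∀ i, ![t, g, u, r] i ∈ Z) ∧ Cov P Z (sys 1 t g 1 u r 4) ∧
      Cov P Z (sys 1 t g 1 u r 5)) [η] := by
  have u0 : u ≠ 0 := fun e => h.N0 (by simp [e])
  have r0 : r ≠ 0 := fun e => u0 (by simpa [e] using h.hu)
  have cU := n2_un h
  have c0 := cU.ne
  obtain ⟨x, rfl⟩ : ∃ x, t = 1 + x * u ^ 2 := ⟨(t - 1) / u ^ 2, by field_simp; ring⟩
  obtain ⟨y, hy⟩ : ∃ y, g ^ 2 - 1 = u ^ 2 * y := ⟨(g ^ 2 - 1) / u ^ 2, by field_simp⟩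
  have hu := h.hu
  have hG := n2_eq h (pow_ne_zero 2 u0) hy (b := x) (w := 1) (by ring) (by ring)
  obtain ⟨x₀, hx₀⟩ := P.res x (by
    convert Loc.div_mem h1 cU using 1
    field_simp
    linear_combination (-x) * hu)
  obtain ⟨y₀, hy₀⟩ := P.res y (by
    convert Loc.div_mem h2 cU using 1
    field_simp
    linear_combination (-y) * hu - hy)
  have at' := at4 (x₂ := u) (x₃ := g) (c₂ := 0) (c₃ := g₀) hx₀ hy₀ (h.res 2) (h.res 1)
  refine chart D E at' (X 3 ^ 2 - 1 - X 2 ^ 2 * X 1)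
    (n2G (1 + X 0 * X 2 ^ 2) (X 3) (X 1) (X 0) 1) (1 + X 0 * X 2 ^ 2) (X 3)
    (by simpa [sub_eq_zero] using hy) (by simpa [n2G, cc] using hG) (fun _ e => ?_) _
    (neg_mem cU.1) h.N0 ?_ h.hη (by simp) (by simp) fun Z hZ hx => ?_
  · simp [n2G, cc, map_ofNat] at e
    by_cases e0 : y₀ = 0
    · refine ⟨3, 0, ?_⟩
      simp [n2G, cc, pd_nat, map_ofNat]
      grind
    · refine ⟨3, 1, ?_⟩
      simp [n2G, cc, pd_nat, map_ofNat]
      grind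
  · simp only [n2G, cc] at hG hu
    simp [det4, grad, n2G, Pr, cc, pd_nat, map_ofNat]
    linear_combination 4 * u ^ 3 * hG -
      4 * u * ((1 + x * u ^ 2) ^ 2 + 2 * (1 + x * u ^ 2)) * hu
  · have tZ : 1 + x * u ^ 2 ∈ Z := mem_aeval hx (1 + X 0 * X 2 ^ 2) (by simp)
    have rZ : r ∈ Z := by
      convert hZ.div_mem (pow_mem (hx 2) 2) cU (n2_cZ tZ) using 1
      field_simp
      exact hu.symm
    have a5 := n2_at at' (x₄ := r) (c₄ := 0) (h.res 3)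
    refine ⟨mem4 tZ (hx 3) (hx 2) rZ,
      a5.cov hZ (n2_mem hx rZ) u0 [X 1 * X 2, -(X 1 * X 2), X 0 * X 2 * X 3 ^ 2, X 0 * X 2,
        X 0 * X 2 * X 4, X 3, 1] (by simp) (by simp [sys]; grind),
      at'.cov hZ hx r0 [X 1 * cc 1 (1 + X 0 * X 2 ^ 2), -(X 1 * cc 1 (1 + X 0 * X 2 ^ 2)),
        X 0 * cc 1 (1 + X 0 * X 2 ^ 2) * X 3 ^ 2, X 0 * cc 1 (1 + X 0 * X 2 ^ 2), 1] (by simp)
        (by simp only [cc] at hu; simp [sys, cc]; grind)⟩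

theorem n2_c2 (h : PtA P D E t g u r η 1 g₀ 0 0) (hg : g₀ ^ 2 = 1) (t0 : t - 1 ≠ 0)
    (h1 : u / (t - 1) ∈ P.O) (h2 : (g ^ 2 - 1) / (t - 1) ∈ P.O) (h3 : r / (t - 1) ∈ P.O) :
    Out P D E (fun Z => (∀ i, ![t, g, u, r] i ∈ Z) ∧ Cov P Z (sys 1 t g 1 u r 4) ∧
      Cov P Z (sys 1 t g 1 u r 5)) [η] := by
  have cU := n2_un h
  have c0 := cU.ne
  obtain ⟨v, rfl⟩ : ∃ v, u = (t - 1) * v := ⟨u / (t - 1), by field_simp⟩
  obtain ⟨w, rfl⟩ : ∃ w, r = (t - 1) * w := ⟨r / (t - 1), by field_simp⟩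
  obtain ⟨y, hy⟩ : ∃ y, g ^ 2 - 1 = (t - 1) * y := ⟨(g ^ 2 - 1) / (t - 1), by field_simp⟩
  rw [hy] at h2
  rw [mul_div_cancel_left₀ _ t0] at h1 h2 h3
  have hu := h.hu
  have hG := n2_eq h t0 hy (b := 1) (w := v ^ 2 * (t - 1)) (by ring) (by ring)
  obtain ⟨v₀, hv₀⟩ := P.res v h1
  obtain ⟨y₀, hy₀⟩ := P.res y h2
  obtain ⟨w₀, hw₀⟩ := P.res w h3
  have at' := at4 (x₀ := t) (x₁ := g) (c₀ := 1) (c₁ := g₀) (h.res 0) (h.res 1) hv₀ hy₀
  refine chart D E at' (X 1 ^ 2 - 1 - (X 0 - 1) * X 3)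
    (n2G (X 0) (X 1) (X 3) 1 (X 2 ^ 2 * (X 0 - 1))) (X 0) (X 1)
    (by simpa [sub_eq_zero] using hy) (by simpa [n2G, cc] using hG) (fun _ e => ⟨1, 3, ?_⟩) _
    cU.1 h.N0 ?_ h.hη (by simp) (by simp) fun Z hZ hx => ?_
  · simp [n2G, cc, map_ofNat] at e
    simp [n2G, cc, pd_nat, map_ofNat]
    grind
  · simp only [cc] at hu
    simp [det4, grad, n2G, Pr, cc, pd_nat, map_ofNat]
    linear_combination 4 * ((t - 1) * v) * (t ^ 2 + 2 * t) * hu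
  · have wZ : w ∈ Z := by
      convert hZ.div_mem (mem_aeval hx (X 2 ^ 2 * (X 0 - 1)) (y := v ^ 2 * (t - 1)) (by simp)) cU
        (n2_cZ (hx 0)) using 1
      rw [eq_div_iff c0]
      exact mul_left_cancel₀ t0 (by linear_combination -hu)
    have a5 := n2_at at' hw₀
    have m5 := n2_mem hx wZ
    exact ⟨mem4 (hx 0) (hx 1) (mem_aeval hx ((X 0 - 1) * X 2) (by simp))
        (mem_aeval m5 ((X 0 - 1) * X 4) (by simp)),
      a5.cov hZ m5 t0 [X 3, -X 3, X 1 ^ 2, 1, (X 0 - 1) * X 4, X 2 * X 1, X 2] (by simp)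
        (by simp [sys]; grind),
      a5.cov hZ m5 t0 [X 3, -X 3, X 1 ^ 2, 1, X 4] (by simp) (by simp [sys]; grind)⟩

theorem n2_c3 (h : PtA P D E t g u r η 1 g₀ 0 0) (hg : g₀ ^ 2 = 1) (t0 : t - 1 ≠ 0)
    (h1 : (t - 1) / u ∈ P.O) (h2 : (g ^ 2 - 1) / (t - 1) ∈ P.O) (h3 : r / (t - 1) ∈ P.O) :
    Out P D E (fun Z => (∀ i, ![t, g, u, r] i ∈ Z) ∧ Cov P Z (sys 1 t g 1 u r 4) ∧
      Cov P Z (sys 1 t g 1 u r 5)) [η] := by
  have u0 : u ≠ 0 := fun e => h.N0 (by simp [e])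
  have cU := n2_un h
  have c0 := cU.ne
  obtain ⟨x, y, e1, e2, e3⟩ : ∃ x y, (t - 1) / u = x ∧ u = x * y ∧ t = 1 + x ^ 2 * y :=
    ⟨_, u ^ 2 / (t - 1), rfl, by field_simp, by field_simp; ring⟩
  rw [e1] at h1
  obtain ⟨w, rfl⟩ : ∃ w, r = (t - 1) * w := ⟨r / (t - 1), by field_simp⟩
  obtain ⟨z, hz⟩ : ∃ z, g ^ 2 - 1 = (t - 1) * z := ⟨(g ^ 2 - 1) / (t - 1), by field_simp⟩
  rw [hz] at h2
  rw [mul_div_cancel_left₀ _ t0] at h2 h3
  clear e1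
  subst e2 e3
  have hu := h.hu
  have ey : y = w * cc 1 (1 + x ^ 2 * y) := mul_left_cancel₀ t0 (by linear_combination hu)
  have hG := n2_eq h t0 hz (b := 1) (w := y) (by ring) (by ring)
  obtain ⟨x₀, hx₀⟩ := P.res x h1
  obtain ⟨y₀, hy₀⟩ := P.res y (by rw [ey]; exact mul_mem h3 cU.1)
  obtain ⟨z₀, hz₀⟩ := P.res z h2
  obtain ⟨w₀, hw₀⟩ := P.res w h3
  have at' := at4 (x₃ := g) (c₃ := g₀) hx₀ hy₀ hz₀ (h.res 1)
  have xy : x₀ * y₀ = 0 := by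
    have := at'.zero (X 0 * X 1) (by simpa using h.res 2)
    rwa [map_mul, eval_X, eval_X] at this
  refine chart D E at' (X 3 ^ 2 - 1 - X 0 ^ 2 * X 1 * X 2)
    (n2G (1 + X 0 ^ 2 * X 1) (X 3) (X 2) 1 (X 1)) (1 + X 0 ^ 2 * X 1) (X 3)
    (by simpa [sub_eq_zero] using hz) (by simpa [n2G, cc] using hG) (fun _ e => ?_) _
    cU.1 h.N0 ?_ h.hη (by simp) (by simp) fun Z hZ hx => ?_
  · have xy2 : x₀ ^ 2 * y₀ = 0 := by linear_combination x₀ * xy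
    simp [n2G, cc, map_ofNat, xy2] at e
    by_cases e0 : z₀ = 0
    · have x0 : x₀ = 0 := by grind
      refine ⟨3, 1, ?_⟩
      simp [n2G, cc, pd_nat, map_ofNat, x0]
      grind (ematch := 0)
    · refine ⟨3, 2, ?_⟩
      simp [n2G, cc, pd_nat, map_ofNat, xy2]
      grind
  · simp only [cc] at hu
    simp [det4, grad, n2G, Pr, cc, pd_nat, map_ofNat]
    linear_combination 4 * (x * y) * ((1 + x ^ 2 * y) ^ 2 + 2 * (1 + x ^ 2 * y)) * hu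
  · have tZ : 1 + x ^ 2 * y ∈ Z := mem_aeval hx (1 + X 0 ^ 2 * X 1) (by simp)
    have wZ : w ∈ Z := by
      convert hZ.div_mem (hx 1) cU (n2_cZ tZ) using 1
      rw [eq_div_iff c0]
      exact ey.symm
    have a5 := n2_at at' hw₀
    have m5 := n2_mem hx wZ
    exact ⟨mem4 tZ (hx 3) (mem_aeval hx (X 0 * X 1) (by simp))
        (mem_aeval m5 (X 0 ^ 2 * X 1 * X 4) (by simp)),
      a5.cov hZ m5 u0 [X 0 * X 2, -(X 0 * X 2), X 0 * X 3 ^ 2, X 0, X 0 * (X 0 ^ 2 * X 1 * X 4),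
        X 3, 1] (by simp) (by simp [sys]; grind),
      a5.cov hZ m5 t0 [X 2, -X 2, X 3 ^ 2, 1, X 4] (by simp) (by simp [sys]; grind)⟩

end

theorem p_N2 (L : Type u) [Field L] [CharZero L] : S_N2 L := by
  intro K _ _ P D E t g u r η t₀ g₀ u₀ r₀ h hr ht hg h4 h5
  subst hr ht
  obtain rfl : u₀ = 0 := by simpa using h.eu
  have tO : t ∈ P.O := mem_of_res (h.res 0)
  have gO : g ∈ P.O := mem_of_res (h.res 1)
  have rO : r ∈ P.O := mem_of_res (h.res 3)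
  have hW4 := h4.sub [(g ^ 2 - 1 ^ 2) * 1, (t - 1) * 1 ^ 2, u * 1] (by simp [sys]) (by
    simp only [sys, Matrix.cons_val, List.mem_cons, List.not_mem_nil, or_false, forall_eq_or_imp,
      forall_eq, exists_eq_or_imp, exists_eq_left]
    exact ⟨.inl ⟨1, one_mem _, by ring⟩, .inl ⟨-1, neg_mem (one_mem _), by ring⟩,
      .inr (.inl ⟨_, pow_mem gO 2, by ring⟩), .inr (.inl ⟨1, one_mem _, by ring⟩),
      .inr (.inl ⟨r, rO, by ring⟩), .inr (.inr ⟨g, gO, by ring⟩),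
      .inr (.inr ⟨1, one_mem _, by ring⟩)⟩)
  have hW5 := h5.sub [(g ^ 2 - 1 ^ 2) * 1, (t - 1) * 1 ^ 2, r * 1] (by simp [sys]) (by
    simp only [sys, Matrix.cons_val, List.mem_cons, List.not_mem_nil, or_false, forall_eq_or_imp,
      forall_eq, exists_eq_or_imp, exists_eq_left]
    exact ⟨.inl ⟨1, one_mem _, by ring⟩, .inl ⟨-1, neg_mem (one_mem _), by ring⟩,
      .inr (.inl ⟨_, pow_mem gO 2, by ring⟩), .inr (.inl ⟨1, one_mem _, by ring⟩),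
      .inr (.inr ⟨1, one_mem _, by ring⟩)⟩)
  have cs : ((t - 1) / r ∈ P.O ∧ (g ^ 2 - 1) / r ∈ P.O) ∨
      (t - 1 ≠ 0 ∧ (g ^ 2 - 1) / (t - 1) ∈ P.O ∧ r / (t - 1) ∈ P.O) := by
    obtain ⟨s, hs, s0, h1⟩ := hW5
    simp only [one_pow, mul_one, List.mem_cons, List.not_mem_nil, or_false, forall_eq_or_imp,
      forall_eq] at hs h1
    rcases hs with rfl | rfl | rfl
    · obtain ⟨-, ha, hb⟩ := h1
      by_cases am : (t - 1) / (g ^ 2 - 1) ∈ P.m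
      · by_cases bm : r / (g ^ 2 - 1) ∈ P.m
        · have un : P.Un (1 - 2 * t) := h.res.un' (1 - 2 * X 0) (by simp [map_ofNat])
            (by simp [map_ofNat]; norm_num)
          refine absurd ?_ un.2
          have hΦ := h.hΦ
          rw [Ph] at hΦ
          have o1 : (t + 1) * (g ^ 2 + 1) ∈ P.O :=
            mul_mem (add_mem tO (one_mem _)) (add_mem (pow_mem gO 2) (one_mem _))
          have o2 : t ^ 2 + t + t ∈ P.O := add_mem (add_mem (pow_mem tO 2) tO) tO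
          convert sub_mem (P.mul _ (sub_mem (mul_mem ha o1) (mul_mem hb o2)) _ bm)
            (P.mul _ (mul_mem ha (pow_mem gO 2)) _ am) using 1
          field_simp
          linear_combination hΦ
        · have un : P.Un (r / (g ^ 2 - 1)) := ⟨hb, bm⟩
          refine .inl ⟨?_, by simpa using un.inv.1⟩
          convert Loc.div_mem ha un using 1
          rw [div_div_div_cancel_right₀ s0]
      · have un : P.Un ((t - 1) / (g ^ 2 - 1)) := ⟨ha, am⟩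
        refine .inr ⟨fun e => un.ne (by simp [e]), by simpa using un.inv.1, ?_⟩
        convert Loc.div_mem hb un using 1
        rw [div_div_div_cancel_right₀ s0]
    · exact .inr ⟨s0, h1.1, h1.2.2⟩
    · exact .inl ⟨h1.2.1, h1.1⟩
  rcases cs with ⟨h1, h2⟩ | ⟨t0, h2, h3⟩
  · exact n2_c1 h hg h1 h2
  obtain ⟨s, hs, s0, h1⟩ := hW4
  simp only [one_pow, mul_one, List.mem_cons, List.not_mem_nil, or_false, forall_eq_or_imp,
    forall_eq] at hs h1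
  rcases hs with rfl | rfl | rfl
  · refine n2_c2 h hg t0 ?_ h2 h3
    convert mul_mem h1.2.2 h2 using 1
    field_simp
  · exact n2_c2 h hg t0 h1.2.2 h2 h3
  · exact n2_c3 h hg t0 h1.2.1 h2 h3

end Pool.Agent.P.MP_50039c_nt.RS
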