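import Pool.Agent.P.MP_50039c_nt.RS.VDef

/-! Step N3. -/

set_option autoImplicit false
set_option linter.unusedSectionVars false

namespace Pool.Agent.P.MP_50039c_nt.RS

open MvPolynomial Pool.Agent.P.MP_6f117a_ag PJ LV

universe u

/-- The equation of the surface after blowing up a node at infinity. -/
def n3G {R : Type*} [CommRing R] (x e y r p : R) : R :=
  y - 2 * x * (e * (1 - y) ^ 2 + r * (1 + y) + e * y) + x ^ 2 * (p ^ 2 + 1 - p + r * (p + 1))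

theorem p_N3 (L : Type u) [Field L] [CharZero L] : S_N3 L := by
  intro K _ _ P D E s g u r η g₀ u₀ r₀ h hr hg hD
  subst hr
  have sO : s ∈ P.O := mem_of_res (h.res 0)
  have gO : g ∈ P.O := mem_of_res (h.res 1)
  have rO : r ∈ P.O := mem_of_res (h.res 3)
  have hΦ := h.hΦ
  have uU : P.Un u := Loc.un_of_res (c := u₀) (fun e => by simpa [e] using h.eu) (h.res 2)
  have tU : P.Un (2 * u) := (show P.Un (2 : K) by
    simpa using Loc.un_nat (P := P) two_ne_zero).mul uU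
  have t0 := tU.ne
  have hW := hD.sub [1 ^ 2 * s, (g ^ 2 - r) * 1, (1 ^ 2 - r) * 1] (by simp [sys]) (by
    simp only [sys, Matrix.cons_val, List.mem_cons, List.not_mem_nil, or_false, forall_eq_or_imp,
      forall_eq, exists_eq_or_imp, exists_eq_left]
    exact ⟨.inl ⟨_, pow_mem gO 2, by ring⟩, .inl ⟨1, one_mem _, by ring⟩, .inl ⟨r, rO, by ring⟩,
      .inr (.inl ⟨1, one_mem _, by ring⟩), .inr (.inr ⟨1, one_mem _, by ring⟩)⟩)
  have cs : (g ^ 2 - r ≠ 0 ∧ s / (g ^ 2 - r) ∈ P.O ∧ (1 - r) / (g ^ 2 - r) ∈ P.O) ∨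
      (1 - r ≠ 0 ∧ s / (1 - r) ∈ P.O ∧ (g ^ 2 - r) / (1 - r) ∈ P.O) := by
    obtain ⟨w, hw, w0, h1⟩ := hW
    simp only [one_pow, mul_one, one_mul, List.mem_cons, List.not_mem_nil, or_false,
      forall_eq_or_imp, forall_eq] at hw h1
    rcases hw with rfl | rfl | rfl
    · obtain ⟨-, hx, hy⟩ := h1
      have k : ∀ a b : K, a / w ∈ P.O → b / w ∈ P.O → a / w ∉ P.m →
          a ≠ 0 ∧ w / a ∈ P.O ∧ b / a ∈ P.O := fun a b k1 k2 k3 => by
        have un : P.Un (a / w) := ⟨k1, k3⟩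
        exact ⟨fun e => un.ne (by simp [e]), by simpa using un.inv.1,
          by simpa [div_div_div_cancel_right₀ w0] using Loc.div_mem k2 un⟩
      by_contra hn
      obtain ⟨n1, n2⟩ := not_or.1 hn
      have m1 := by_contra fun m => n1 (k _ _ hx hy m)
      have m2 := by_contra fun m => n2 (k _ _ hy hx m)
      have two : (2 : K) ∈ P.O := by exact_mod_cast natCast_mem P.O 2
      refine (h.res.un' ((X 1 ^ 2) ^ 2 + 1 - X 1 ^ 2 + X 3 * (X 1 ^ 2 + 1)) rfl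
        (by simp [hg]; norm_num)).2 ?_
      convert add_mem (Loc.mul' m1 (sub_mem (mul_mem two (add_mem (mul_mem sO (sub_mem hx hy)) rO))
        hy)) (Loc.mul' m2 (mul_mem two (add_mem (mul_mem sO hy) rO))) using 1
      simp only [Ph] at hΦ
      simp
      field_simp
      linear_combination hΦ
    · exact .inl ⟨w0, h1.1, h1.2.2⟩
    · exact .inr ⟨w0, h1.1, h1.2.1⟩
  have uZ : ∀ Z, P.Sq Z → s ∈ Z → r ∈ Z → u ∈ Z := fun Z hZ k1 k2 => hZ.of_sq uU (by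
    rw [h.hu]
    exact mem_aeval (mem4 k1 k1 k1 k2) (X 3 * cc (X 0) 1) (by simp [cc]))
  rcases cs with ⟨a0, h1, h2⟩ | ⟨a0, h1, h2⟩
  · have ha := h.res.res' (X 1 ^ 2 - X 3) (y := g ^ 2 - r) (a := 0) (by simp) (by simp [hg])
    obtain ⟨a, ea⟩ : ∃ a, a = g ^ 2 - r := ⟨_, rfl⟩
    rw [← ea] at a0 h1 h2 ha
    obtain ⟨x, rfl⟩ : ∃ x, s = x * a := ⟨s / a, by field_simp⟩
    obtain ⟨y, rfl⟩ : ∃ y, r = 1 - a * y := ⟨(1 - r) / a, by field_simp; ring⟩
    rw [mul_div_cancel_right₀ _ a0] at h1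
    rw [sub_sub_cancel, mul_div_cancel_left₀ _ a0] at h2
    have eg : g ^ 2 = 1 + a * (1 - y) := by linear_combination -ea
    have eG : n3G x a y (1 - a * y) (1 + a * (1 - y)) = 0 :=
      mul_left_cancel₀ (pow_ne_zero 2 a0) (by
        rw [eg, Ph] at hΦ; rw [n3G]; linear_combination hΦ)
    obtain ⟨x₀, hx₀⟩ := P.res x h1
    obtain ⟨y₀, hy₀⟩ := P.res y h2
    have at' := at4 (x₁ := g) (c₁ := g₀) hx₀ (h.res 1) ha hy₀
    refine chart D E at' (X 1 ^ 2 - 1 - X 2 * (1 - X 3))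
      (n3G (X 0) (X 2) (X 3) (1 - X 2 * X 3) (1 + X 2 * (1 - X 3))) (X 0 * X 2) (X 1)
      (by simp [eg]) (by simpa [n3G, map_ofNat] using eG) (fun _ k => ⟨1, 3, ?_⟩) _ tU.inv.1 h.N0
      ?_ h.hη (by simp) (by simp) fun Z hZ hx => ?_
    · simp [n3G, pd_nat, map_ofNat] at k ⊢
      grind
    · rw [inv_mul_cancel_left₀ t0, eg]
      simp only [n3G] at eG
      simp [det4, grad, n3G, Pr, pd_nat, map_ofNat]
      linear_combination 2 * a * eG
    · have k1 : x * a ∈ Z := mul_mem (hx 0) (hx 2)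
      have k2 : 1 - a * y ∈ Z := sub_mem (one_mem _) (mul_mem (hx 2) (hx 3))
      exact ⟨mem4 k1 (hx 1) (uZ Z hZ k1 k2) k2, at'.cov hZ hx a0
        [X 1 ^ 2 * X 0, X 0, (1 - X 2 * X 3) * X 0, 1, X 3] (by simp) (by simp [sys]; grind)⟩
  · have ha := h.res.res' (1 - X 3) (y := 1 - r) (a := 0) (by simp) (by simp)
    obtain ⟨b, rfl⟩ : ∃ b, r = 1 - b := ⟨1 - r, by ring⟩
    rw [sub_sub_cancel] at a0 h1 h2 ha
    obtain ⟨x, rfl⟩ : ∃ x, s = x * b := ⟨s / b, by field_simp⟩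
    obtain ⟨y, ey⟩ : ∃ y, y = (g ^ 2 - (1 - b)) / b := ⟨_, rfl⟩
    rw [mul_div_cancel_right₀ _ a0] at h1
    rw [← ey] at h2
    have eg : g ^ 2 = 1 + b * (y - 1) := by rw [ey]; field_simp; ring
    have eG : n3G x b y (1 - b) (1 + b * (y - 1)) = 0 :=
      mul_left_cancel₀ (pow_ne_zero 2 a0) (by
        rw [eg, Ph] at hΦ; rw [n3G]; linear_combination hΦ)
    obtain ⟨x₀, hx₀⟩ := P.res x h1
    obtain ⟨y₀, hy₀⟩ := P.res y h2
    have at' := at4 (x₁ := g) (c₁ := g₀) hx₀ (h.res 1) ha hy₀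
    refine chart D E at' (X 1 ^ 2 - 1 - X 2 * (X 3 - 1))
      (n3G (X 0) (X 2) (X 3) (1 - X 2) (1 + X 2 * (X 3 - 1))) (X 0 * X 2) (X 1)
      (by simp [eg]) (by simpa [n3G, map_ofNat] using eG) (fun _ k => ⟨1, 3, ?_⟩) _
      (neg_mem tU.inv.1) h.N0 ?_ h.hη (by simp) (by simp) fun Z hZ hx => ?_
    · simp [n3G, pd_nat, map_ofNat] at k ⊢
      grind
    · rw [neg_mul, inv_mul_cancel_left₀ t0, eg]
      simp only [n3G] at eG
      simp [det4, grad, n3G, Pr, pd_nat, map_ofNat]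
      linear_combination -2 * b * eG
    · have k1 : x * b ∈ Z := mul_mem (hx 0) (hx 2)
      have k2 : 1 - b ∈ Z := sub_mem (one_mem _) (hx 2)
      exact ⟨mem4 k1 (hx 1) (uZ Z hZ k1 k2) k2, at'.cov hZ hx a0
        [X 1 ^ 2 * X 0, X 0, (1 - X 2) * X 0, X 3, 1] (by simp) (by simp [sys]; grind)⟩

end Pool.Agent.P.MP_50039c_nt.RS
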