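import Pool.Agent.P.MP_50039c_nt.RS.VDef

/-! Step N4. -/

set_option autoImplicit false
set_option linter.unusedSectionVars false

namespace Pool.Agent.P.MP_50039c_nt.RS

open MvPolynomial Pool.Agent.P.MP_6f117a_ag PJ LV

universe u

theorem p_N4 (L : Type u) [Field L] [CharZero L] : S_N4 L := by
  intro K _ _ P D E t g u r η t₀ g₀ u₀ r₀ h hg hc hr hD
  subst hg hr
  have tO : t ∈ P.O := mem_of_res (h.res 0)
  have gO : g ∈ P.O := mem_of_res (h.res 1)
  have rO : r ∈ P.O := mem_of_res (h.res 3)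
  have hu := h.hu
  have hΦ := h.hΦ
  have eu := h.eu
  simp only [cc, Ph] at hc hu hΦ eu
  obtain rfl : u₀ = 0 := by
    rw [hc, mul_zero] at eu
    exact pow_eq_zero_iff two_ne_zero |>.1 eu
  have t0 : t₀ ≠ 0 := by rintro rfl; simp at hc
  have t1 : t₀ + 1 ≠ 0 := fun e => by
    obtain rfl : t₀ = -1 := by linear_combination e
    norm_num at hc
  have f0 : t₀ ^ 2 + 2 * t₀ - 1 + t₀ * (2 * t₀ + 2) ≠ 0 := fun e =>
    mul_ne_zero (mul_ne_zero two_ne_zero t0) t1 (by linear_combination e - hc)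
  have k0 : t₀ ^ 2 + t₀ - 1 ≠ 0 := fun e => t0 (by linear_combination hc - e)
  have m0 : t₀ ^ 2 + 2 * t₀ - 1 + -((2 * t₀ - (t₀ ^ 2 + 2 * t₀ - 1)) * t₀) ≠ 0 := fun e =>
    mul_ne_zero two_ne_zero (pow_ne_zero 2 t0) (by linear_combination (1 + t₀) * hc - e)
  have u0 : u ≠ 0 := fun e => h.N0 (by simp [e])
  have key : r * (r + t) ^ 2 + u ^ 2 * (r ^ 2 - r - 1) + g ^ 2 * (r * (cc 1 t + (2 * t - cc 1 t) * r +
      (t ^ 2 - cc 1 t) * g ^ 2)) = 0 := by
    simp only [cc]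
    linear_combination r * hΦ + (r ^ 2 - r - 1) * hu
  have hW := hD.sub [g * 1 * 1, u * 1, r * 1 + t * 1 ^ 2] (by simp [sys]) (by
    simp only [sys, Matrix.cons_val, List.mem_cons, List.not_mem_nil, or_false, forall_eq_or_imp,
      forall_eq, exists_eq_or_imp, exists_eq_left]
    exact ⟨.inl ⟨g, gO, by ring⟩, .inl ⟨_, mul_mem gO tO, by ring⟩, .inl ⟨1, one_mem _, by ring⟩,
      .inr (.inl ⟨1, one_mem _, by ring⟩), .inr (.inr ⟨1, one_mem _, by ring⟩)⟩)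
  have cs : (g ≠ 0 ∧ u / g ∈ P.O ∧ (r + t) / g ∈ P.O) ∨ (g / u ∈ P.O ∧ (r + t) / u ∈ P.O) := by
    obtain ⟨s, hs, s0, h1⟩ := hW
    simp only [one_pow, mul_one, List.mem_cons, List.not_mem_nil, or_false, forall_eq_or_imp,
      forall_eq] at hs h1
    rcases hs with rfl | rfl | rfl
    · exact .inl ⟨s0, h1.2⟩
    · exact .inr ⟨h1.1, h1.2.2⟩
    · by_cases ha : g / (r + t) ∈ P.m
      · by_cases hb : u / (r + t) ∈ P.m
        · exfalso
          have rU : P.Un r := Loc.un_of_res (neg_ne_zero.2 t0) (h.res 3)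
          have m1 := Loc.mul' (Loc.mul' hb h1.2.1) (h.res.mem' (X 3 ^ 2 - X 3 - 1)
            (y := r ^ 2 - r - 1) (by simp))
          have m2 := Loc.mul' (Loc.mul' ha h1.1) (h.res.mem' (X 3 * (cc 1 (X 0) +
            (2 * X 0 - cc 1 (X 0)) * X 3 + (X 0 ^ 2 - cc 1 (X 0)) * X 1 ^ 2))
            (y := r * (cc 1 t + (2 * t - cc 1 t) * r + (t ^ 2 - cc 1 t) * g ^ 2))
            (by simp [cc, map_ofNat]))
          refine rU.2 ?_
          convert neg_mem (add_mem m1 m2) using 1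
          field_simp
          linear_combination key
        · have hU : P.Un (u / (r + t)) := ⟨h1.2.1, hb⟩
          refine .inr ⟨?_, ?_⟩
          · convert Loc.div_mem h1.1 hU using 1
            field_simp
          · convert hU.inv.1 using 1
            rw [inv_div]
      · have hU : P.Un (g / (r + t)) := ⟨h1.1, ha⟩
        have g0 : g ≠ 0 := fun e => hU.ne (by simp [e])
        refine .inl ⟨g0, ?_, ?_⟩
        · convert Loc.div_mem h1.2.1 hU using 1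
          field_simp
        · convert hU.inv.1 using 1
          rw [inv_div]
  rcases cs with ⟨g0, h1, h2⟩ | ⟨h1, h2⟩
  · obtain ⟨v, rfl⟩ : ∃ v, u = v * g := ⟨u / g, by field_simp⟩
    obtain ⟨w, rfl⟩ : ∃ w, r = g * w - t := ⟨(r + t) / g, by field_simp; ring⟩
    rw [mul_div_cancel_right₀ _ g0] at h1
    rw [sub_add_cancel, mul_div_cancel_left₀ _ g0] at h2
    obtain ⟨v₀, hv⟩ := P.res v h1
    obtain ⟨w₀, hw⟩ := P.res w h2
    have at' := at4 (x₀ := t) (x₁ := g) (c₀ := t₀) (c₁ := 0) (h.res 0) (h.res 1) hv hw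
    have hG : (g * w - t) * w ^ 2 + v ^ 2 * ((g * w - t) ^ 2 - (g * w - t) - 1) + (g * w - t) *
        (cc 1 t + (2 * t - cc 1 t) * (g * w - t) + (t ^ 2 - cc 1 t) * g ^ 2) = 0 :=
      mul_left_cancel₀ (pow_ne_zero 2 g0) (by linear_combination key)
    simp only [cc] at hG
    refine chart D E at' (X 2 ^ 2 * X 1 ^ 2 - (X 1 * X 3 - X 0) * cc 1 (X 0))
      ((X 1 * X 3 - X 0) * X 3 ^ 2 + X 2 ^ 2 * ((X 1 * X 3 - X 0) ^ 2 - (X 1 * X 3 - X 0) - 1) +
        (X 1 * X 3 - X 0) * (cc 1 (X 0) + (2 * X 0 - cc 1 (X 0)) * (X 1 * X 3 - X 0) +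
          (X 0 ^ 2 - cc 1 (X 0)) * X 1 ^ 2)) (X 0) (X 1)
      (by simp [cc, map_ofNat]; linear_combination hu)
      (by simp [cc, map_ofNat]; linear_combination hG)
      (fun _ hG => ?_) _ rO h.N0
      (by
        simp [det4, grad, Pr, cc, pd_nat, map_ofNat]
        linear_combination (2 * v * g) * hΦ + 2 * v * g * (2 * (g * w - t) - 1) * hu)
      h.hη (by simp) (by simp) fun Z hZ hx =>
      ⟨mem4 (hx 0) (hx 1) (mul_mem (hx 2) (hx 1)) (sub_mem (mul_mem (hx 1) (hx 3)) (hx 0)),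
      at'.cov hZ hx g0 [X 1, X 1 * X 0, 1, X 2, X 3] (by simp) (by simp [sys]; grind)⟩
    by_cases e : w₀ = 0
    · refine ⟨0, 2, ?_⟩
      have v0 : v₀ ≠ 0 := fun e' => by
        simp [cc, map_ofNat, e, e', t0, m0] at hG
      simp [cc, pd_nat, map_ofNat, f0, k0, v0]
    · refine ⟨0, 3, ?_⟩
      simp [cc, pd_nat, map_ofNat, f0, t0, e]
  · obtain ⟨v, rfl⟩ : ∃ v, g = v * u := ⟨g / u, by field_simp⟩
    obtain ⟨w, rfl⟩ : ∃ w, r = u * w - t := ⟨(r + t) / u, by field_simp; ring⟩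
    rw [mul_div_cancel_right₀ _ u0] at h1
    rw [sub_add_cancel, mul_div_cancel_left₀ _ u0] at h2
    obtain ⟨v₀, hv⟩ := P.res v h1
    obtain ⟨w₀, hw⟩ := P.res w h2
    have at' := at4 (x₀ := t) (x₂ := u) (c₀ := t₀) (c₂ := 0) (h.res 0) hv (h.res 2) hw
    have hG : (u * w - t) * w ^ 2 + ((u * w - t) ^ 2 - (u * w - t) - 1) + (u * w - t) * v ^ 2 *
        (cc 1 t + (2 * t - cc 1 t) * (u * w - t) + (t ^ 2 - cc 1 t) * v ^ 2 * u ^ 2) = 0 :=
      mul_left_cancel₀ (pow_ne_zero 2 u0) (by linear_combination key)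
    simp only [cc] at hG
    refine chart D E at' (X 2 ^ 2 - (X 2 * X 3 - X 0) * cc 1 (X 0))
      ((X 2 * X 3 - X 0) * X 3 ^ 2 + ((X 2 * X 3 - X 0) ^ 2 - (X 2 * X 3 - X 0) - 1) +
        (X 2 * X 3 - X 0) * X 1 ^ 2 * (cc 1 (X 0) + (2 * X 0 - cc 1 (X 0)) * (X 2 * X 3 - X 0) +
          (X 0 ^ 2 - cc 1 (X 0)) * X 1 ^ 2 * X 2 ^ 2)) (X 0) (X 1 * X 2)
      (by simp [cc, map_ofNat]; linear_combination hu)
      (by simp [cc, map_ofNat]; linear_combination hG)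
      (fun _ hG => ?_) _ rO h.N0
      (by
        simp [det4, grad, Pr, cc, pd_nat, map_ofNat]
        linear_combination (2 * u) * hΦ + 2 * u * (2 * (u * w - t) - 1) * hu -
          2 * u * (t ^ 2 + 2 * t - 1) * hG)
      h.hη (by simp) (by simp) fun Z hZ hx =>
      ⟨mem4 (hx 0) (mul_mem (hx 1) (hx 2)) (hx 2) (sub_mem (mul_mem (hx 2) (hx 3)) (hx 0)),
      at'.cov hZ hx u0 [X 1 ^ 2 * X 2, X 1 ^ 2 * X 2 * X 0, X 1, 1, X 3] (by simp)
        (by simp [sys]; grind)⟩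
    by_cases e : w₀ = 0
    · refine ⟨0, 1, ?_⟩
      have v0 : v₀ ≠ 0 := fun e' => by
        simp [cc, map_ofNat, e, e', k0] at hG
      simp [cc, pd_nat, map_ofNat, f0, m0, t0, v0]
    · refine ⟨0, 3, ?_⟩
      simp [cc, pd_nat, map_ofNat, f0, t0, e]

end Pool.Agent.P.MP_50039c_nt.RS
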