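import Pool.Agent.P.MP_50039c_nt.RS.TGTV
import Pool.Agent.P.MP_50039c_nt.RS.TGT8
import Pool.Agent.P.MP_50039c_nt.RS.TN1
import Pool.Agent.P.MP_50039c_nt.RS.TN2
import Pool.Agent.P.MP_50039c_nt.RS.TN3
import Pool.Agent.P.MP_50039c_nt.RS.TN4
import Pool.Agent.P.MP_50039c_nt.LV.TMIN
import Pool.Agent.P.MP_50039c_nt.LV.TLIN
import Pool.Agent.P.MP_50039c_nt.LV.TRING
import Pool.Agent.P.MP_50039c_nt.LV.TLOC

/-! The two resolvent surfaces are of general type. -/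

set_option autoImplicit false

namespace Pool.Agent.P.MP_50039c_nt.RS

open LV

universe u

variable (L : Type u) [Field L] [IsAlgClosed L] [CharZero L]

theorem all_GTV : S_GTV L :=
  p_GTV L (p_LOC L (p_RING L) (p_LIN L (p_MIN L))) (p_N1 L) (p_N2 L) (p_N3 L) (p_N4 L)

theorem all_GT8 : S_GT8 L := p_GT8 L (p_LOC L (p_RING L) (p_LIN L (p_MIN L)))

end Pool.Agent.P.MP_50039c_nt.RS
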