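import Pool.Agent.P.MP_50039c_nt.RS.Q2A

/-! Relative algebraic closures, and the fibres of the resolvent for quadratic factors. -/

set_option autoImplicit false

namespace Pool.Agent.P.MP_50039c_nt.RS.Q2

open Polynomial LV
open scoped IntermediateField

universe u

variable {L K : Type u} [Field L] [Field K] [Algebra L K]

/-- Subfields that contain the roots of their quadratic equations. -/
def QC (M : IntermediateField L K) : Prop := ∀ z α β γ : K, α ∈ M → β ∈ M → γ ∈ M →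
  ¬ (α = 0 ∧ β = 0 ∧ γ = 0) → α * z ^ 2 + β * z + γ = 0 → z ∈ M

theorem QC.sq {M : IntermediateField L K} (h : QC M) {z : K} (hz : z ^ 2 ∈ M) : z ∈ M :=
  h z 1 0 (-z ^ 2) (one_mem _) (zero_mem _) (neg_mem hz) (by simp) (by ring)

theorem nat_mem (M : IntermediateField L K) (k : ℕ) [k.AtLeastTwo] : (ofNat(k) : K) ∈ M :=
  natCast_mem M k

variable (L) in
/-- The elements that are algebraic over the field generated by `S`. -/
def cl (S : Set K) : IntermediateField L K :=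
  (algebraicClosure (IntermediateField.adjoin L S) K).restrictScalars L

theorem mem_cl {S : Set K} {x : K} (hx : x ∈ S) : x ∈ cl L S :=
  (algebraicClosure (IntermediateField.adjoin L S) K).algebraMap_mem
    ⟨x, IntermediateField.subset_adjoin L S hx⟩

theorem cl_qc (S : Set K) : QC (cl L S) := by
  intro z α β γ ha hb hc h0 h
  let E := IntermediateField.adjoin L S
  have h1 : IsAlgebraic (algebraicClosure E K) z := by
    refine ⟨C ⟨α, ha⟩ * X ^ 2 + C ⟨β, hb⟩ * X + C ⟨γ, hc⟩, fun e => h0 ⟨?_, ?_, ?_⟩, ?_⟩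
    · simpa using congrArg (fun p => (coeff p 2).1) e
    · simpa using congrArg (fun p => (coeff p 1).1) e
    · simpa using congrArg (fun p => (coeff p 0).1) e
    · simpa using h
  exact mem_algebraicClosure_iff.2 (h1.restrictScalars E)

theorem alg_of_cl {S : Set K} (h : cl L S = ⊤) : Algebra.IsAlgebraic (Algebra.adjoin L S) K := by
  rw [← IntermediateField.isAlgebraic_adjoin_iff_top]
  exact ⟨fun t => mem_algebraicClosure_iff.1 (h.ge (IntermediateField.mem_top (x := t)))⟩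

theorem one_gen {x : K} (h : cl L {x} = ⊤) : Algebra.trdeg L K ≤ 1 := by
  have := alg_of_cl h
  simpa using Algebra.IsAlgebraic.trdeg_le_cardinalMk L ({x} : Set K)

theorem two_gen {x y : K} (h : cl L {x, y} = ⊤) :
    Algebra.trdeg L K ≤ 1 ∨ IsTranscendenceBasis L ![x, y] := by
  have := alg_of_cl (Matrix.range_cons_cons_empty x y ![] ▸ h : cl L (Set.range ![x, y]) = ⊤)
  refine (le_or_gt _ _).imp_right fun h1 =>
    Algebra.IsAlgebraic.isTranscendenceBasis_of_lift_le_trdeg_of_finite L _ ?_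
  have h2 := Order.succ_le_of_lt h1
  rw [← Nat.cast_one, Cardinal.succ_natCast] at h2
  simpa [one_add_one_eq_two] using h2

section Forms

variable {R : Type*} [CommRing R]

/-- the leading coefficient of the quadratic equation of the fibre -/
def h2 (p q r : R) : R :=
  p^6 - 2*p^5*q + 2*p^5*r + 3*p^4*q^2 - 2*p^4*q*r - p^4*r^2 - 4*p^3*q^3 - 4*p^3*r^3 + 3*p^2*q^4
    + 2*p^2*q^2*r^2 - p^2*r^4 - 2*p*q^5 - 2*p*q^4*r + 2*p*q*r^4 + 2*p*r^5 + q^6 + 2*q^5*r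
    - q^4*r^2 - 4*q^3*r^3 - q^2*r^4 + 2*q*r^5 + r^6

/-- half of the middle coefficient -/
def h1 (p q r : R) : R :=
  -p^5 + p^4*q - p^4*r + 4*p^3*r^2 + 2*p^2*q^2*r - 2*p^2*q*r^2 + 4*p^2*r^3 + p*q^4 - 2*p*q^2*r^2
    - 3*p*r^4 - q^5 - q^4*r + 4*q^3*r^2 + 4*q^2*r^3 - 3*q*r^4 - 3*r^5

/-- the constant coefficient -/
def h0 (p q r : R) : R := ((p - q) ^ 2 - 3 * r ^ 2) * ((p + q) ^ 2 - 3 * r ^ 2)

theorem quad {p q r E D α β γ : R} (ha : α ^ 2 = 1 - E * p + D * p ^ 2)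
    (hb : β ^ 2 = 1 - E * q + D * q ^ 2) (hc : γ ^ 2 = 1 - E * r + D * r ^ 2)
    (e1 : p * α + q * β = r * γ) (e0 : 1 - E * (p + q - r) + 2 * D * (p ^ 2 + q ^ 2 - r ^ 2) = 0) :
    h2 p q r * E ^ 2 + 2 * h1 p q r * E + h0 p q r = 0 := by
  have e2 : ((r * γ) ^ 2 - (p * α) ^ 2 - (q * β) ^ 2) ^ 2 = 4 * (p * α) ^ 2 * (q * β) ^ 2 := by
    rw [← e1]
    ring
  simp only [mul_pow, ha, hb, hc] at e2
  unfold h2 h1 h0
  linear_combination 4 * e2 - (2*p^6*D - 3*p^5*E - 2*p^4*q^2*D + p^4*q*E + 2*p^4*r^2*D - p^4*r*E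
    + 3*p^4 + 2*p^3*q^2*E - 2*p^3*r^2*E - 2*p^2*q^4*D + 2*p^2*q^3*E - 4*p^2*q^2*r^2*D
    + 2*p^2*q^2*r*E - 6*p^2*q^2 + 2*p^2*q*r^2*E - 2*p^2*r^4*D + 2*p^2*r^3*E - 2*p^2*r^2 + p*q^4*E
    + 2*p*q^2*r^2*E + p*r^4*E + 2*q^6*D - 3*q^5*E + 2*q^4*r^2*D - q^4*r*E + 3*q^4 - 2*q^3*r^2*E
    - 2*q^2*r^4*D + 2*q^2*r^3*E - 2*q^2*r^2 + q*r^4*E - 2*r^6*D + 3*r^5*E - 5*r^4) * e0

end Forms

theorem no_common [CharZero K] {p q : K} : ¬ (h2 p q 1 = 0 ∧ 2 * h1 p q 1 = 0 ∧ h0 p q 1 = 0) := by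
  rintro ⟨a2, a1, a0⟩
  obtain ⟨s, hs⟩ : ∃ s, s = p + q := ⟨_, rfl⟩
  obtain ⟨m, hm⟩ : ∃ m, m = (p - q) ^ 2 := ⟨_, rfl⟩
  have b2 : 4 + 8*s - 4*m - 4*s^3 - 12*s*m - 4*s^2*m + 4*s^3*m + 4*s*m^2 + s^4*m + 2*s^2*m^2 + m^3
      = 0 := by
    rw [hs, hm]
    unfold h2 at a2
    linear_combination 4 * a2
  have b1 : -6 - 6*s + 4*s^2 + 4*m + s^3 + 7*s*m - 2*s^2*m - s^3*m - s*m^2 = 0 := by
    rw [hs, hm]
    unfold h1 at a1
    linear_combination a1
  have b0 : (m - 3) * (s ^ 2 - 3) = 0 := by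
    rw [hs, hm]
    unfold h0 at a0
    linear_combination a0
  clear a2 a1 a0 hs hm
  grind

/-- The fibres, in the normalisation `r = 1`. -/
theorem fibre0 [CharZero K] {M : IntermediateField L K} (hM : QC M) {p q E D α β γ : K}
    (p0 : p ≠ 0) (q0 : q ≠ 0) (hp : p ∈ M) (hq : q ∈ M) (ha : α ^ 2 = 1 - E * p + D * p ^ 2)
    (hb : β ^ 2 = 1 - E * q + D * q ^ 2) (hc : γ ^ 2 = 1 - E * 1 + D * 1 ^ 2)
    (e1 : p * α + q * β = 1 * γ) (e0 : 1 - E * (p + q - 1) + 2 * D * (p ^ 2 + q ^ 2 - 1 ^ 2) = 0)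
    (hne : ¬ (p = q ∧ α = β)) : E ∈ M ∧ D ∈ M := by
  have h := quad ha hb hc e1 e0
  have hE : E ∈ M := by
    refine hM E _ _ _ ?_ ?_ ?_ no_common h
    · unfold h2
      apply_rules (maxDepth := 400) (transparency := .reducible) [nat_mem, one_mem, add_mem, sub_mem, mul_mem, pow_mem, neg_mem, div_mem]
    · unfold h1
      apply_rules (maxDepth := 400) (transparency := .reducible) [nat_mem, one_mem, add_mem, sub_mem, mul_mem, pow_mem, neg_mem, div_mem]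
    · unfold h0
      apply_rules (maxDepth := 400) (transparency := .reducible) [nat_mem, one_mem, add_mem, sub_mem, mul_mem, pow_mem, neg_mem, div_mem]
  refine ⟨hE, hM D 0 _ _ (zero_mem _) ?_ ?_ (fun ⟨_, h1, h2⟩ => hne ?_)
    (show 0 * D ^ 2 + 2 * (p ^ 2 + q ^ 2 - 1) * D + (1 - E * (p + q - 1)) = 0 by
      linear_combination e0)⟩
  · apply_rules (maxDepth := 400) (transparency := .reducible) [nat_mem, one_mem, add_mem, sub_mem, mul_mem, pow_mem, neg_mem, div_mem]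
  · apply_rules (maxDepth := 400) (transparency := .reducible) [nat_mem, one_mem, add_mem, sub_mem, mul_mem, pow_mem, neg_mem, div_mem]
  · have h3 : ((p - q) * (1 - p) * (1 - q)) ^ 2 = 0 := by
      have h5 : Q2.h2 p q 1 + 2 * Q2.h1 p q 1 * (p + q - 1) + h0 p q 1 * (p + q - 1) ^ 2 = 0 := by
        linear_combination (p + q - 1) ^ 2 * h +
          (Q2.h2 p q 1 * (E * (p + q - 1) + 1) + 2 * Q2.h1 p q 1 * (p + q - 1)) * h2
      unfold Q2.h2 Q2.h1 Q2.h0 at h5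
      linear_combination h5 / 4 + 2 * (1 - p) * (1 - q) * h1
    have h4 : p = q := by
      clear h ha hb hc e1 e0 hne h2
      grind
    subst h4
    clear h h3
    grind

theorem fibre [CharZero K] {M : IntermediateField L K} (hM : QC M) {A B e n : K}
    (h5 : r5 A B 1 e n = 0) (h6 : r6 A B 1 e n = 0) (a0 : A ≠ 0) (b0 : B ≠ 0) (ab : A ≠ B)
    (fa : fv e n A ≠ 0) (fb : fv e n B ≠ 0) (fc : fv e n 1 ≠ 0)
    (hp : A * fv e n 1 / fv e n A ∈ M) (hq : B * fv e n 1 / fv e n B ∈ M) :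
    A ∈ M ∧ B ∈ M ∧ e ∈ M ∧ n ∈ M := by
  have s : ∀ Z, fv e n Z ≠ 0 → ((n - Z ^ 2) / fv e n Z) ^ 2 =
      1 - 2 * e / fv e n 1 * (Z * fv e n 1 / fv e n Z) +
        (e ^ 2 - 4 * n) / fv e n 1 ^ 2 * (Z * fv e n 1 / fv e n Z) ^ 2 := fun Z h => by
    field_simp
    unfold fv
    ring
  have v : ∀ Z, Z ≠ 0 → fv e n Z ≠ 0 → Z / fv e n 1 = (1 - 2 * e / fv e n 1 *
      (Z * fv e n 1 / fv e n Z) / 2 - (n - Z ^ 2) / fv e n Z) / (2 * (Z * fv e n 1 / fv e n Z)) :=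
    fun Z h0 h => by
      field_simp
      unfold fv
      ring
  have sc := s 1 fc
  have vc := v 1 one_ne_zero fc
  rw [one_mul, div_self fc] at sc vc
  obtain ⟨hE, hD⟩ := fibre0 hM (by positivity) (by positivity) hp hq (s A fa) (s B fb) sc
    (by field_simp; linear_combination id1 h5 h6) (by field_simp; linear_combination id0 h5 h6)
    fun ⟨h1, h2⟩ => ab ((div_left_inj' fc).1 (by rw [v A a0 fa, v B b0 fb, h1, h2]))
  have ma : (n - A ^ 2) / fv e n A ∈ M := hM.sq (by rw [s A fa]; apply_rules (maxDepth := 400) (transparency := .reducible) [nat_mem, one_mem, add_mem, sub_mem, mul_mem, pow_mem, neg_mem, div_mem])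
  have mb : (n - B ^ 2) / fv e n B ∈ M := hM.sq (by rw [s B fb]; apply_rules (maxDepth := 400) (transparency := .reducible) [nat_mem, one_mem, add_mem, sub_mem, mul_mem, pow_mem, neg_mem, div_mem])
  have mc : (n - 1 ^ 2) / fv e n 1 ∈ M := hM.sq (by rw [sc]; apply_rules (maxDepth := 400) (transparency := .reducible) [nat_mem, one_mem, add_mem, sub_mem, mul_mem, pow_mem, neg_mem, div_mem])
  have m1 : 1 / fv e n 1 ∈ M := by rw [vc]; apply_rules (maxDepth := 400) (transparency := .reducible) [nat_mem, one_mem, add_mem, sub_mem, mul_mem, pow_mem, neg_mem, div_mem]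
  have mf : fv e n 1 ∈ M := by simpa using inv_mem m1
  have mA : A / fv e n 1 ∈ M := by rw [v A a0 fa]; apply_rules (maxDepth := 400) (transparency := .reducible) [nat_mem, one_mem, add_mem, sub_mem, mul_mem, pow_mem, neg_mem, div_mem]
  have mB : B / fv e n 1 ∈ M := by rw [v B b0 fb]; apply_rules (maxDepth := 400) (transparency := .reducible) [nat_mem, one_mem, add_mem, sub_mem, mul_mem, pow_mem, neg_mem, div_mem]
  have me : e ∈ M := by
    rw [show e = 2 * e / fv e n 1 * fv e n 1 / 2 by field_simp]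
    apply_rules (maxDepth := 400) (transparency := .reducible) [nat_mem, one_mem, add_mem, sub_mem, mul_mem, pow_mem, neg_mem, div_mem]
  refine ⟨div_mul_cancel₀ A fc ▸ mul_mem mA mf, div_mul_cancel₀ B fc ▸ mul_mem mB mf, me, ?_⟩
  rw [show n = fv e n 1 - 1 - e by unfold fv; ring]
  apply_rules (maxDepth := 400) (transparency := .reducible) [nat_mem, one_mem, add_mem, sub_mem, mul_mem, pow_mem, neg_mem, div_mem]

theorem r24 [CharZero K] {a b e n : K}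
    (hd : X ^ 2 - C e * X + C n ∣ QQ (C (a ^ 2)) (C (b ^ 2)) 1 X) (a0 : a ≠ 0) (b0 : b ≠ 0)
    (ab : a ^ 2 - b ^ 2 ≠ 0) (a1 : a ^ 2 - 1 ≠ 0) (b1 : b ^ 2 - 1 ≠ 0) (top : L⟮a, b, e, n⟯ = ⊤) :
    Algebra.trdeg L K ≤ 1 ∨ ∃ t g u r : K, IsTranscendenceBasis L ![t, g] ∧
      u ^ 2 = r * (t ^ 2 + 2 * t - 1) ∧ (1 - 2 * t) * ((g ^ 2) ^ 2 + 1 ^ 2) +
        (t ^ 2 + 2 * t - 1) * g ^ 2 * 1 + (1 - t ^ 2) * r * (g ^ 2 + 1) +
          (t ^ 2 + 2 * t) * r ^ 2 = 0 := by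
  obtain ⟨h5, h6⟩ := rem_zero (D := 1) (C_1 (R := K) ▸ hd)
  have nz : ∀ T, QQ (a ^ 2) (b ^ 2) 1 T ≠ 0 → T ^ 2 - e * T + n ≠ 0 := fun T h h0 =>
    h (by rw [div_rem _ _ _ e n T, h5, h6, h0]; ring)
  have fa : fv e n (a ^ 2) ≠ 0 := fun h => nz (-a ^ 2) (by
    rw [show QQ (a ^ 2) (b ^ 2) 1 (-a ^ 2) = (2 * a ^ 2 * (a ^ 2 - b ^ 2) * (a ^ 2 - 1)) ^ 2 by
      unfold QQ; ring]
    simp [a0, ab, a1]) (by unfold fv at h; linear_combination h)
  have fb : fv e n (b ^ 2) ≠ 0 := fun h => nz (-b ^ 2) (by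
    rw [show QQ (a ^ 2) (b ^ 2) 1 (-b ^ 2) = (2 * b ^ 2 * (a ^ 2 - b ^ 2) * (b ^ 2 - 1)) ^ 2 by
      unfold QQ; ring]
    simp [b0, ab, b1]) (by unfold fv at h; linear_combination h)
  have fc : fv e n 1 ≠ 0 := fun h => nz (-1) (by
    rw [show QQ (a ^ 2) (b ^ 2) 1 (-1) = -(2 * (a ^ 2 - 1) * (b ^ 2 - 1)) ^ 2 by unfold QQ; ring]
    simp [a1, b1]) (by unfold fv at h; linear_combination h)
  have n0 : n ≠ 0 := fun h => nz 0 (by
    rw [show QQ (a ^ 2) (b ^ 2) 1 0 = (a ^ 2 * b ^ 2) ^ 2 by unfold QQ; ring]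
    positivity) (by simpa using h)
  obtain ⟨t, ht⟩ : ∃ t, t = (n + a ^ 2 * b ^ 2) * fv e n 1 / (2 * n * (a ^ 2 - 1) * (b ^ 2 - 1)) :=
    ⟨_, rfl⟩
  obtain ⟨x, hx⟩ : ∃ x, x = a ^ 2 * fv e n (b ^ 2) / (b ^ 2 * fv e n (a ^ 2)) := ⟨_, rfl⟩
  obtain ⟨r, hr⟩ : ∃ r, r = fv e n (b ^ 2) / (b ^ 2 * fv e n 1) := ⟨_, rfl⟩
  have phi : (t ^ 2 + 2 * t) * r ^ 2 + (1 - t ^ 2) * (x + 1) * r +
      ((1 - 2 * t) * (x ^ 2 + 1) + (t ^ 2 + 2 * t - 1) * x) = 0 := by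
    have h := id3 h5 h6
    have e1 : a ^ 2 * fv e n 1 - fv e n (a ^ 2) = (a ^ 2 - 1) * (n - a ^ 2) := by unfold fv; ring
    have e2 : b ^ 2 * fv e n 1 - fv e n (b ^ 2) = (b ^ 2 - 1) * (n - b ^ 2) := by unfold fv; ring
    have e3 : (x - r) * (1 - r) * t ^ 2 = (n + a ^ 2 * b ^ 2) ^ 2 * (n - a ^ 2) * (n - b ^ 2) *
        fv e n (b ^ 2) / (4 * n ^ 2 * (a ^ 2 - 1) * (b ^ 2 - 1) * b ^ 4 * fv e n (a ^ 2)) := by
      rw [show x - r = (a ^ 2 * fv e n 1 - fv e n (a ^ 2)) * fv e n (b ^ 2) /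
        (b ^ 2 * fv e n (a ^ 2) * fv e n 1) by rw [hx, hr]; field_simp,
        show 1 - r = (b ^ 2 * fv e n 1 - fv e n (b ^ 2)) / (b ^ 2 * fv e n 1) by
          rw [hr]; field_simp, e1, e2, ht]
      field_simp
      norm_num
    have e4 : (x - r) * (1 - r) * t ^ 2 - 2 * (x ^ 2 + 1 - x - r ^ 2) * t +
        (x ^ 2 + 1 - x + r * (x + 1)) = 0 := by
      rw [e3, hx, hr, ht]
      field_simp
      linear_combination h
    linear_combination e4
  have fin : ∀ S : Set K, t ∈ cl L S → x ∈ cl L S → cl L S = ⊤ := fun S mt mx => by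
    have mr : r ∈ cl L S := cl_qc S r _ _ _ (by apply_rules (maxDepth := 400) (transparency := .reducible) [nat_mem, one_mem, add_mem, sub_mem, mul_mem, pow_mem, neg_mem, div_mem]) (by apply_rules (maxDepth := 400) (transparency := .reducible) [nat_mem, one_mem, add_mem, sub_mem, mul_mem, pow_mem, neg_mem, div_mem]) (by apply_rules (maxDepth := 400) (transparency := .reducible) [nat_mem, one_mem, add_mem, sub_mem, mul_mem, pow_mem, neg_mem, div_mem])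
      (fun ⟨h1, h2, h3⟩ => by clear * - h1 h2 h3; grind) phi
    obtain ⟨m1, m2, m3, m4⟩ := fibre (cl_qc (L := L) S) h5 h6 (by positivity) (by positivity)
      (sub_ne_zero.1 ab) fa fb fc
      (by rw [show a ^ 2 * fv e n 1 / fv e n (a ^ 2) = x / r by rw [hx, hr]; field_simp]; apply_rules (maxDepth := 400) (transparency := .reducible) [nat_mem, one_mem, add_mem, sub_mem, mul_mem, pow_mem, neg_mem, div_mem])
      (by rw [show b ^ 2 * fv e n 1 / fv e n (b ^ 2) = 1 / r by rw [hr]; field_simp]; apply_rules (maxDepth := 400) (transparency := .reducible) [nat_mem, one_mem, add_mem, sub_mem, mul_mem, pow_mem, neg_mem, div_mem])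
    refine top_le_iff.1 (top ▸ IntermediateField.adjoin_le_iff.2 ?_)
    rintro _ (rfl | rfl | rfl | rfl)
    exacts [(cl_qc S).sq m1, (cl_qc S).sq m2, m3, m4]
  by_cases hc : t ^ 2 + 2 * t - 1 = 0
  · exact .inl (one_gen (fin {x} (cl_qc _ t 1 2 (-1) (one_mem _) (nat_mem _ _)
      (neg_mem (one_mem _)) (by simp) (by linear_combination hc)) (mem_cl rfl)))
  have ka : kk (a ^ 2) (b ^ 2) 1 e n ^ 2 = (t ^ 2 + 2 * t - 1) *
      (2 * n * (a ^ 2 - 1) * (b ^ 2 - 1)) ^ 2 * fv e n (a ^ 2) / fv e n 1 := by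
    have h := id2 h5 h6
    rw [ht]
    field_simp
    linear_combination -h
  have kb : kk (b ^ 2) (a ^ 2) 1 e n ^ 2 = (t ^ 2 + 2 * t - 1) *
      (2 * n * (a ^ 2 - 1) * (b ^ 2 - 1)) ^ 2 * fv e n (b ^ 2) / fv e n 1 := by
    have h := id2 (r5_symm _ _ _ e n ▸ h5 : r5 (b ^ 2) (a ^ 2) 1 e n = 0) (r6_symm _ _ _ e n ▸ h6)
    rw [ht]
    field_simp
    linear_combination -h
  obtain ⟨g, hg⟩ : ∃ g, g ^ 2 = x := ⟨a * kk (b ^ 2) (a ^ 2) 1 e n / (b * kk (a ^ 2) (b ^ 2) 1 e n),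
    by
      rw [div_pow, mul_pow, mul_pow, ka, kb, hx]
      generalize t ^ 2 + 2 * t - 1 = c at hc
      field_simp⟩
  refine (two_gen (fin {t, g} (mem_cl (by simp)) (hg ▸ pow_mem (mem_cl (by simp)) 2))).imp_right
    fun h => ⟨t, g, kk (b ^ 2) (a ^ 2) 1 e n / (b * (2 * n * (a ^ 2 - 1) * (b ^ 2 - 1))), r, h, ?_,
      by rw [hg]; linear_combination phi⟩
  rw [div_pow, mul_pow b, kb, hr]
  field_simp

end Pool.Agent.P.MP_50039c_nt.RS.Q2
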