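import Pool.Agent.P.MP_50039c_nt.RS.Q3A

/-! Cubic factors of the sextic: the fibres over the double plane. -/

set_option autoImplicit false

namespace Pool.Agent.P.MP_50039c_nt.RS.Q3

open Polynomial LV Q2
open scoped IntermediateField

universe u

variable {L K : Type u} [Field L] [Field K] [Algebra L K] [CharZero K]
  {M : IntermediateField L K} {A B p q r p' q' r' : K}

omit [CharZero K] in
theorem lin {z β γ : K} (hb : β ∈ M) (hc : γ ∈ M) (h0 : β ≠ 0) (h : β * z = γ) : z ∈ M := by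
  rw [show z = γ / β by rw [← h]; field_simp]
  exact div_mem hc hb

omit [CharZero K] in
theorem Eqs.mem (E : Eqs A B p q r p' q' r') (mp : p ∈ M) (mq : q ∈ M) (mr : r ∈ M) :
    p' ∈ M ∧ q' ∈ M ∧ r' ∈ M :=
  ⟨lin mp (one_mem _) (left_ne_zero_of_mul_eq_one E.hp) E.hp,
    lin mq (one_mem _) (left_ne_zero_of_mul_eq_one E.hq) E.hq,
    lin mr (neg_mem (one_mem _)) (fun h => by simpa [h] using E.hr) E.hr⟩

theorem Eqs.scale (E : Eqs A B p q r p' q' r') (hM : QC M) (mp : p * r' ∈ M) (mq : q * r' ∈ M)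
    (hs : p + q + r ≠ 0) : p ∈ M ∧ q ∈ M ∧ r ∈ M := by
  obtain ⟨hp, hq, hr, h, -, -⟩ := E
  have r0 : r' ≠ 0 := fun e => by simp [e] at hr
  have m1 : p' * r ∈ M := lin mp (neg_mem (one_mem _))
    (mul_ne_zero (left_ne_zero_of_mul_eq_one hp) r0) (by linear_combination r * r' * hp + hr)
  have m2 : q' * r ∈ M := lin mq (neg_mem (one_mem _))
    (mul_ne_zero (left_ne_zero_of_mul_eq_one hq) r0) (by linear_combination r * r' * hq + hr)
  have mr : r ∈ M := hM r (2 * (p * r' + q * r' - 1))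
    (-(4 * (p * r' + q * r' - 1) * (p' * r + q' * r - 1))) (-(2 * (p' * r + q' * r - 1)))
    (by apply_rules (maxDepth := 400) (transparency := .reducible) [nat_mem, one_mem, add_mem, sub_mem, mul_mem, pow_mem, neg_mem, div_mem]) (by apply_rules (maxDepth := 400) (transparency := .reducible) [nat_mem, one_mem, add_mem, sub_mem, mul_mem, pow_mem, neg_mem, div_mem]) (by apply_rules (maxDepth := 400) (transparency := .reducible) [nat_mem, one_mem, add_mem, sub_mem, mul_mem, pow_mem, neg_mem, div_mem])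
    (fun h1 => hs (by grind)) (by grind)
  exact ⟨lin (z := p) (β := 1) (one_mem _) (neg_mem (mul_mem mp mr)) one_ne_zero
    (by linear_combination p * hr), lin (z := q) (β := 1) (one_mem _) (neg_mem (mul_mem mq mr))
      one_ne_zero (by linear_combination q * hr), mr⟩

section

variable (a0 : A ≠ 0) (b0 : B ≠ 0) (ab : A - B ≠ 0) (a1 : A - 1 ≠ 0) (b1 : B - 1 ≠ 0)

include a1 in
theorem of2 (h : (1 + A) / (A - 1) ∈ M) : A ∈ M :=
  lin (sub_mem h (one_mem _)) (add_mem h (one_mem _)) (by grind) (by grind)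

include b1 in
theorem of1 (h : (B + 1) / (1 - B) ∈ M) : B ∈ M :=
  lin (add_mem h (one_mem _)) (sub_mem h (one_mem _)) (by grind) (by grind)

include a0 ab in
theorem of3 (h : (A + B) / (B - A) ∈ M) (ha : A ∈ M) : B ∈ M :=
  lin (sub_mem h (one_mem _)) (mul_mem ha (add_mem h (one_mem _))) (by grind) (by grind)

include b0 ab in
theorem of3' (h : (A + B) / (B - A) ∈ M) (hb : B ∈ M) : A ∈ M :=
  lin (add_mem h (one_mem _)) (mul_mem hb (sub_mem h (one_mem _))) (by grind) (by grind)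

include a0 b0 ab a1 b1 in
theorem Eqs.fibre (E : Eqs A B p q r p' q' r') (hM : QC M) (mp : p ∈ M) (mq : q ∈ M) (mr : r ∈ M)
    (h12 : ¬ (r * q' + q * r' = 0 ∧ r * p' + p * r' = 0))
    (h13 : ¬ (r * q' + q * r' = 0 ∧ p * q' + q * p' = 0))
    (h23 : ¬ (r * p' + p * r' = 0 ∧ p * q' + q * p' = 0)) : A ∈ M ∧ B ∈ M := by
  obtain ⟨mp', mq', mr'⟩ := E.mem mp mq mr
  obtain ⟨hp, hq, hr, hs, hu, hw⟩ := E
  have hb : (B + 1) / (1 - B) * ((1 + A) / (A - 1)) + (1 + A) / (A - 1) * ((A + B) / (B - A)) +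
      (A + B) / (B - A) * ((B + 1) / (1 - B)) = -1 := by
    have ba : B - A ≠ 0 := fun e => ab (by linear_combination -e)
    have b2 : 1 - B ≠ 0 := fun e => b1 (by linear_combination -e)
    field_simp
    ring
  have o1 := of1 (M := M) b1
  have o2 := of2 (M := M) a1
  have o3 := of3 (M := M) a0 ab
  have o4 := of3' (M := M) b0 ab
  have hk : p * (1 - (p' + q' + r')) + (1 - (p + q + r)) * p' = 0 ∨
      r * q' + q * r' + (r * p' + p * r') + (p * q' + q * p') ≠ 0 := by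
    clear * - hp hq hr hs
    grind
  have hk' : r * (1 - (p' + q' + r')) + (1 - (p + q + r)) * r' ∈ M := by apply_rules (maxDepth := 400) (transparency := .reducible) [nat_mem, one_mem, add_mem, sub_mem, mul_mem, pow_mem, neg_mem, div_mem]
  have hk'' : p * (1 - (p' + q' + r')) + (1 - (p + q + r)) * p' ∈ M := by apply_rules (maxDepth := 400) (transparency := .reducible) [nat_mem, one_mem, add_mem, sub_mem, mul_mem, pow_mem, neg_mem, div_mem]
  have m1 : r * q' + q * r' ∈ M := by apply_rules (maxDepth := 400) (transparency := .reducible) [nat_mem, one_mem, add_mem, sub_mem, mul_mem, pow_mem, neg_mem, div_mem]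
  have m2 : r * p' + p * r' ∈ M := by apply_rules (maxDepth := 400) (transparency := .reducible) [nat_mem, one_mem, add_mem, sub_mem, mul_mem, pow_mem, neg_mem, div_mem]
  have m3 : p * q' + q * p' ∈ M := by apply_rules (maxDepth := 400) (transparency := .reducible) [nat_mem, one_mem, add_mem, sub_mem, mul_mem, pow_mem, neg_mem, div_mem]
  clear mp mq mr mp' mq' mr' hp hq hr hs
  generalize r * q' + q * r' = k₁ at *
  generalize r * p' + p * r' = k₂ at *
  generalize p * q' + q * p' = k₃ at *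
  generalize p * (1 - (p' + q' + r')) + (1 - (p + q + r)) * p' = u at *
  generalize r * (1 - (p' + q' + r')) + (1 - (p + q + r)) * r' = w at *
  generalize (B + 1) / (1 - B) = β₁ at *
  generalize (1 + A) / (A - 1) = β₂ at *
  generalize (A + B) / (B - A) = β₃ at *
  have s3 : k₃ ≠ 0 → k₂ * β₂ ∈ M → β₃ ∈ M := fun h h' =>
    lin m3 (add_mem hk'' h') h (by linear_combination hu)
  have s1 : k₁ ≠ 0 → k₂ * β₂ ∈ M → β₁ ∈ M := fun h h' =>
    lin m1 (sub_mem h' hk') h (by linear_combination -hw)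
  by_cases k2 : k₂ = 0
  · have z : k₂ * β₂ ∈ M := by rw [k2, zero_mul]; exact zero_mem _
    have hB := o1 (s1 (fun h => h12 ⟨h, k2⟩) z)
    exact ⟨o4 (s3 (fun h => h23 ⟨k2, h⟩) z) hB, hB⟩
  have n2 : β₂ ∈ M := by
    by_cases k1 : k₁ = 0
    · exact lin m2 hk' k2 (by linear_combination hw + β₁ * k1)
    by_cases k3 : k₃ = 0
    · exact lin m2 (neg_mem hk'') k2 (by linear_combination -hu + β₃ * k3)
    refine hM β₂ (k₂ * (k₁ + k₂ + k₃)) (k₁ * u - k₃ * w + k₂ * (u - w)) (k₁ * k₃ - u * w)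
      (by apply_rules (maxDepth := 400) (transparency := .reducible) [nat_mem, one_mem, add_mem, sub_mem, mul_mem, pow_mem, neg_mem, div_mem]) (by apply_rules (maxDepth := 400) (transparency := .reducible) [nat_mem, one_mem, add_mem, sub_mem, mul_mem, pow_mem, neg_mem, div_mem]) (by apply_rules (maxDepth := 400) (transparency := .reducible) [nat_mem, one_mem, add_mem, sub_mem, mul_mem, pow_mem, neg_mem, div_mem]) (fun ⟨h1, _, h3⟩ => ?_) ?_
    · rcases hk with h | h
      · exact mul_ne_zero k1 k3 (by rw [← h3, h]; ring)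
      · exact mul_ne_zero k2 h h1
    · linear_combination k₁ * k₃ * hb - (k₁ * β₂ + k₂ * β₂ - w) * hu + k₃ * (β₂ + β₃) * hw
  have hA := o2 n2
  refine ⟨hA, ?_⟩
  by_cases k1 : k₁ = 0
  · exact o3 (s3 (fun h => h13 ⟨k1, h⟩) (mul_mem m2 n2)) hA
  · exact o1 (s1 k1 (mul_mem m2 n2))

end

theorem r33 [IsAlgClosed L] {a b e f m : K}
    (hd : X ^ 3 + C e * X ^ 2 + C f * X + C (m ^ 2) ∣ QQ (C (a ^ 2)) (C (b ^ 2)) 1 X) (a0 : a ≠ 0)
    (b0 : b ≠ 0) (ab : a ^ 2 - b ^ 2 ≠ 0) (a1 : a ^ 2 - 1 ≠ 0) (b1 : b ^ 2 - 1 ≠ 0)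
    (top : L⟮a, b, e, f, m⟯ = ⊤) : Algebra.trdeg L K ≤ 1 ∨ ∃ x y w : K,
      IsTranscendenceBasis L ![x, y] ∧
        w ^ 2 = (x ^ 2 + 4) * (y ^ 2 + 1) * ((y ^ 2 - 1 - x ^ 2) ^ 2 - 4 * x ^ 2) := by
  have A0 := pow_ne_zero 2 a0
  have B0 := pow_ne_zero 2 b0
  obtain ⟨e', f', h', hc⟩ := cofactor hd
  obtain ⟨N, hN⟩ := norm_sq (D := 1) (C_1 (R := K) ▸ hd)
  obtain ⟨p, q, r, he, hf, hm⟩ := lagr A0 B0 ab a1 b1 e f (m ^ 2)
  obtain ⟨p', q', r', he', hf', hm'⟩ := lagr A0 B0 ab a1 b1 e' f' h'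
  have E : Eqs (a ^ 2) (b ^ 2) p q r p' q' r' := eqs A0 B0 ab a1 b1 (by
    rw [hc, he, hf, hm, he', hf', hm']
    simp only [cub, map_add, map_sub, map_mul, map_ofNat, map_one]
    ring)
  have fin : ∀ S : Set K, p ∈ cl L S ∧ q ∈ cl L S ∧ r ∈ cl L S →
      a ^ 2 ∈ cl L S ∧ b ^ 2 ∈ cl L S → cl L S = ⊤ := fun S ⟨mp, mq, mr⟩ ⟨ma, mb⟩ => by
    refine top_le_iff.1 (top ▸ IntermediateField.adjoin_le_iff.2 ?_)
    rintro _ (rfl | rfl | rfl | rfl | rfl)
    · exact (cl_qc S).sq ma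
    · exact (cl_qc S).sq mb
    · rw [SetLike.mem_coe, he]; apply_rules (maxDepth := 400) (transparency := .reducible) [nat_mem, one_mem, add_mem, sub_mem, mul_mem, pow_mem, neg_mem, div_mem]
    · rw [SetLike.mem_coe, hf]; apply_rules (maxDepth := 400) (transparency := .reducible) [nat_mem, one_mem, add_mem, sub_mem, mul_mem, pow_mem, neg_mem, div_mem]
    · exact (cl_qc S).sq (by rw [hm]; apply_rules (maxDepth := 400) (transparency := .reducible) [nat_mem, one_mem, add_mem, sub_mem, mul_mem, pow_mem, neg_mem, div_mem])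
  have ⟨hp, hq, hr, hs, hu, hw⟩ := E
  have con : ∀ S : Set K, ∀ i j : K, i ^ 2 = 1 → j ^ 2 = 1 → ¬ (i = -1 ∧ j = -1) →
      (p * r') ^ 2 = i → (q * r') ^ 2 = j → p ∈ cl L S ∧ q ∈ cl L S ∧ r ∈ cl L S :=
    fun S i j hi hj hij h1 h2 => E.scale (cl_qc S)
      ((cl_qc S).sq (h1 ▸ (cl_qc S).sq (hi ▸ one_mem _)))
      ((cl_qc S).sq (h2 ▸ (cl_qc S).sq (hj ▸ one_mem _))) fun h => by
        have h3 : p * r' + q * r' = 1 := by linear_combination r' * h - hr
        generalize p * r' = x at h1 h3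
        generalize q * r' = y at h2 h3
        clear * - hi hj hij h1 h2 h3
        grind
  by_cases h12 : r * q' + q * r' = 0 ∧ r * p' + p * r' = 0
  · obtain ⟨h1, h2⟩ := h12
    have h := con {a ^ 2} 1 1 (by simp) (by simp) (by norm_num) (by clear * - h2 hp hr; grind)
      (by clear * - h1 hq hr; grind)
    obtain ⟨_, _, _⟩ := E.mem h.1 h.2.1 h.2.2
    obtain ⟨_, _, _⟩ := id h
    rw [h2, zero_mul, sub_zero] at hu
    exact .inl (one_gen (fin _ h ⟨mem_cl rfl, of3 A0 ab (lin (by apply_rules (maxDepth := 400) (transparency := .reducible) [nat_mem, one_mem, add_mem, sub_mem, mul_mem, pow_mem, neg_mem, div_mem]) (by apply_rules (maxDepth := 400) (transparency := .reducible) [nat_mem, one_mem, add_mem, sub_mem, mul_mem, pow_mem, neg_mem, div_mem])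
      (by clear * - h1 h2 hp hq hr; grind) hu) (mem_cl rfl)⟩))
  by_cases h13 : r * q' + q * r' = 0 ∧ p * q' + q * p' = 0
  · obtain ⟨h1, h3⟩ := h13
    have h := con {b ^ 2} (-1) 1 (by simp) (by simp) (by norm_num)
      (by clear * - h1 h3 hp hq hr; grind) (by clear * - h1 hq hr; grind)
    obtain ⟨_, _, _⟩ := E.mem h.1 h.2.1 h.2.2
    obtain ⟨_, _, _⟩ := id h
    rw [h1, zero_mul, sub_zero] at hw
    exact .inl (one_gen (fin _ h ⟨of2 a1 (lin (by apply_rules (maxDepth := 400) (transparency := .reducible) [nat_mem, one_mem, add_mem, sub_mem, mul_mem, pow_mem, neg_mem, div_mem]) (by apply_rules (maxDepth := 400) (transparency := .reducible) [nat_mem, one_mem, add_mem, sub_mem, mul_mem, pow_mem, neg_mem, div_mem]) (fun h => h12 ⟨h1, h⟩) hw),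
      mem_cl rfl⟩))
  by_cases h23 : r * p' + p * r' = 0 ∧ p * q' + q * p' = 0
  · obtain ⟨h2, h3⟩ := h23
    have h := con {a ^ 2} 1 (-1) (by simp) (by simp) (by norm_num)
      (by clear * - h2 hp hr; grind) (by clear * - h2 h3 hp hq hr; grind)
    obtain ⟨_, _, _⟩ := E.mem h.1 h.2.1 h.2.2
    obtain ⟨_, _, _⟩ := id h
    rw [h2, zero_mul, zero_sub, ← neg_mul] at hw
    exact .inl (one_gen (fin _ h ⟨mem_cl rfl, of1 b1 (lin (by apply_rules (maxDepth := 400) (transparency := .reducible) [nat_mem, one_mem, add_mem, sub_mem, mul_mem, pow_mem, neg_mem, div_mem]) (by apply_rules (maxDepth := 400) (transparency := .reducible) [nat_mem, one_mem, add_mem, sub_mem, mul_mem, pow_mem, neg_mem, div_mem])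
      (fun h => h12 ⟨neg_eq_zero.1 h, h2⟩) hw)⟩))
  have fin' : ∀ S : Set K, p ∈ cl L S → q ∈ cl L S → r ∈ cl L S → cl L S = ⊤ := fun S h1 h2 h3 =>
    fin S ⟨h1, h2, h3⟩ (E.fibre A0 B0 ab a1 b1 (cl_qc S) h1 h2 h3 h12 h13 h23)
  have mp : p ∈ cl L {p} := mem_cl rfl
  by_cases x0 : p + q = 0
  · exact .inl (one_gen (fin' _ mp (eq_neg_of_add_eq_zero_right x0 ▸ neg_mem mp)
      (cl_qc _ r 1 2 (-1) (one_mem _) (nat_mem _ _) (neg_mem (one_mem _)) (by simp)
        (by clear * - x0 hp hq hr hs; grind))))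
  by_cases s0 : p + q + r = 0
  · have mq : q ∈ cl L {p} := cl_qc _ q 1 (3 * p) (p ^ 2) (one_mem _) (by apply_rules (maxDepth := 400) (transparency := .reducible) [nat_mem, one_mem, add_mem, sub_mem, mul_mem, pow_mem, neg_mem, div_mem]) (by apply_rules (maxDepth := 400) (transparency := .reducible) [nat_mem, one_mem, add_mem, sub_mem, mul_mem, pow_mem, neg_mem, div_mem])
      (by simp) (by clear * - s0 hp hq hr hs; grind)
    exact .inl (one_gen (fin' _ mp mq (eq_neg_of_add_eq_zero_right s0 ▸ by apply_rules (maxDepth := 400) (transparency := .reducible) [nat_mem, one_mem, add_mem, sub_mem, mul_mem, pow_mem, neg_mem, div_mem])))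
  have p0 := left_ne_zero_of_mul_eq_one hp
  have q0 := left_ne_zero_of_mul_eq_one hq
  have r0 : r ≠ 0 := fun e => by simp [e] at hr
  have k0 := left_ne_zero_of_mul_eq_one hs
  have m0 : m ≠ 0 := fun e => mul_ne_zero (mul_ne_zero A0 B0) k0 (by rw [← hm, e]; simp)
  obtain ⟨j, hj⟩ := IsAlgClosed.exists_pow_nat_eq (2 : L) two_pos
  have hj' : algebraMap L K j ^ 2 = 2 := by rw [← map_pow, hj, map_ofNat]
  obtain ⟨γ, hγ⟩ : ∃ γ : K, γ ^ 2 = -(p * q) := ⟨N / (32 * algebraMap L K j * a * b * m ^ 2 *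
      (a ^ 2 - b ^ 2) * ((a ^ 2 - 1) * (b ^ 2 - 1)) ^ 2), by
    simp only [div_pow, mul_pow, hj', hN]
    rw [div_eq_iff (by simp [a0, b0, m0, ab, a1, b1]), he, hf, show m ^ 2 = _ from hm]
    ring⟩
  have g0 : γ ≠ 0 := fun e => mul_ne_zero p0 q0 (by simpa [e] using hγ)
  obtain ⟨y, hy⟩ : ∃ y, y = (p + q + r) * (a * b / m) := ⟨_, rfl⟩
  have hk : (a * b / m) ^ 2 * (1 - 2 * (p + q + r)) = 1 := by
    rw [div_pow, hm]
    field_simp
  have y2 : y ^ 2 = -((p + q + r) * (p' + q' + r')) := by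
    rw [hy]
    generalize a * b / m = κ at hk
    generalize p + q + r = s at *
    generalize p' + q' + r' = s' at *
    clear * - hk hs
    grind
  have c1 : y ^ 2 - 1 - ((p + q) / γ) ^ 2 = (p + q) / γ * (r / γ + γ / r) := by
    rw [y2, eq_inv_of_mul_eq_one_right hp, eq_inv_of_mul_eq_one_right hq,
      show r' = -r⁻¹ by field_simp; linear_combination hr, div_pow, mul_add ((p + q) / γ),
      div_mul_div_comm, ← sq, hγ]
    field_simp
    ring
  refine (two_gen (x := (p + q) / γ) (y := y) ?_).imp_right fun h => ⟨_, _, (p - q) / γ *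
    ((1 - (p + q + r)) * (a * b / m)) * ((p + q) / γ * (r / γ - γ / r)), h, ?_⟩
  · have mx : (p + q) / γ ∈ cl L {(p + q) / γ, y} := mem_cl (by simp)
    have my : y ∈ cl L {(p + q) / γ, y} := mem_cl (by simp)
    have m1 : p / γ ∈ cl L {(p + q) / γ, y} := cl_qc _ _ 1 (-((p + q) / γ)) (-1) (one_mem _)
      (neg_mem mx) (neg_mem (one_mem _)) (by simp) (by field_simp; linear_combination -hγ)
    have m2 : r / γ ∈ cl L {(p + q) / γ, y} := cl_qc _ _ _ (-(y ^ 2 - 1 - ((p + q) / γ) ^ 2)) _ mx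
      (by apply_rules (maxDepth := 400) (transparency := .reducible) [nat_mem, one_mem, add_mem, sub_mem, mul_mem, pow_mem, neg_mem, div_mem]) mx (fun h => div_ne_zero x0 g0 h.1) (by rw [c1]; field_simp; ring)
    obtain ⟨h1, h2, h3⟩ := E.scale (cl_qc (L := L) {(p + q) / γ, y})
      (lin m2 (neg_mem m1) (div_ne_zero r0 g0) (by field_simp; linear_combination hr))
      (lin m2 (sub_mem m1 mx) (div_ne_zero r0 g0) (by field_simp; linear_combination q * hr)) s0
    exact fin' _ h1 h2 h3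
  · have c2 : ((p - q) / γ) ^ 2 = ((p + q) / γ) ^ 2 + 4 := by
      field_simp
      linear_combination (-4) * hγ
    have c3 : ((1 - (p + q + r)) * (a * b / m)) ^ 2 = y ^ 2 + 1 := by
      rw [hy]
      linear_combination hk
    rw [mul_pow, mul_pow, c2, c3, c1]
    congr 1
    field_simp
    ring

end Pool.Agent.P.MP_50039c_nt.RS.Q3
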