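import Pool.Agent.P.MP_50039c_nt.RS.Iface
import Pool.Agent.P.MP_50039c_nt.RS.Q3B

/-! Step R33. -/

set_option autoImplicit false

namespace Pool.Agent.P.MP_50039c_nt.RS

universe u

theorem p_R33 (L : Type u) [Field L] [IsAlgClosed L] [CharZero L] : S_R33 L := by
  intro K _ _ a b e f m hd hG top
  have : CharZero K := charZero_of_injective_algebraMap (algebraMap L K).injective
  simp only [G0, one_pow, mul_ne_zero_iff] at hG
  obtain ⟨⟨⟨⟨⟨⟨⟨⟨⟨⟨a0, b0⟩, -⟩, ab⟩, -⟩, a1⟩, b1⟩, -⟩, -⟩, -⟩, -⟩ := hG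
  exact Q3.r33 hd a0 b0 ab a1 b1 top

end Pool.Agent.P.MP_50039c_nt.RS
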