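import Pool.Agent.P.MP_50039c_nt.LV.IfaceB

/-! Curves of genus at most one on a variety that dominates a variety of general type. -/

set_option autoImplicit false

namespace Pool.Agent.P.MP_50039c_nt.RS

open MvPolynomial Module Pool.Agent.P.MP_6f117a_ag PJ LV
open scoped IntermediateField

universe u

variable (L : Type u) [Field L] {K K' : Type u} [Field K] [Algebra L K] [Field K'] [Algebra L K']
  {n : ℕ}

/-- The graph of the specialisation from `x` to `ξ`. -/
def Sp (x : Fin n → K) (ξ : Fin n → K') : Subalgebra L (K × K') where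
  carrier := {z | ∃ u v : MvPolynomial (Fin n) L, aeval ξ v ≠ 0 ∧ z.1 * aeval x v = aeval x u ∧
    z.2 * aeval ξ v = aeval ξ u}
  mul_mem' := fun ⟨u, v, h1, h2, h3⟩ ⟨u', v', h4, h5, h6⟩ => ⟨u * u', v * v', by simp [h1, h4],
    by simp only [map_mul, Prod.fst_mul, ← h2, ← h5]; ring,
    by simp only [map_mul, Prod.snd_mul, ← h3, ← h6]; ring⟩
  add_mem' := fun ⟨u, v, h1, h2, h3⟩ ⟨u', v', h4, h5, h6⟩ => ⟨u * v' + u' * v, v * v',
    by simp [h1, h4], by simp only [map_mul, map_add, Prod.fst_add, ← h2, ← h5]; ring,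
    by simp only [map_mul, map_add, Prod.snd_add, ← h3, ← h6]; ring⟩
  algebraMap_mem' c := ⟨C c, 1, by simp, by simp, by simp⟩

/-- `K` is algebraic over a subfield of general type. -/
def Dom (K : Type u) [Field K] [Algebra L K] : Prop :=
  ∃ (K₀ : Type u) (_ : Field K₀) (_ : Algebra L K₀) (φ : K₀ →ₐ[L] K) (m : ℕ)
    (z : Fin (m + 1) → K₀), z 0 = 1 ∧ rat L z = ⊤ ∧ GenType L K₀ ∧
      Algebra.IsAlgebraic (Algebra.adjoin L (Set.range fun j => φ (z j))) K

/-- A non-constant point over a function field of genus at most one which has large degree over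
the field of definition of the point. -/
def Big (N : ℕ) (ξ : Fin n → K') : Prop := ∃ _ : FF L K', genus L K' ≤ 1 ∧
  (∃ i, Transcendental L (ξ i)) ∧ ∀ s ∈ IntermediateField.adjoin L (Set.range ξ),
    Transcendental L s → N < finrank L⟮s⟯ K'

variable {L} {x : Fin n → K} {ξ : Fin n → K'}

theorem Big.mono {N M : ℕ} (h : Big L N ξ) (hM : M ≤ N) : Big L M ξ :=
  let ⟨h1, h2, h3, h4⟩ := h
  ⟨h1, h2, h3, fun s hs ht => hM.trans_lt (h4 s hs ht)⟩

theorem sp_eq (h : ∀ F : MvPolynomial (Fin n) L, aeval x F = 0 → aeval ξ F = 0) {z : K}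
    {a b : K'} (ha : (z, a) ∈ Sp L x ξ) (hb : (z, b) ∈ Sp L x ξ) : a = b := by
  obtain ⟨u, v, h1, h2, h3⟩ := sub_mem ha hb
  rw [h u (by simpa using h2.symm)] at h3
  exact sub_eq_zero.1 ((mul_eq_zero.1 h3).resolve_right h1)

theorem sp_gen (hx : IntermediateField.adjoin L (Set.range x) = ⊤) (z : K) :
    ∃ F : MvPolynomial (Fin n) L, aeval x F ≠ 0 ∧ ∀ (K' : Type u) [Field K'] [Algebra L K']
      (ξ : Fin n → K'), aeval ξ F ≠ 0 → ∃ a ∈ IntermediateField.adjoin L (Set.range ξ),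
        (z, a) ∈ Sp L x ξ ∧ (z ≠ 0 → a ≠ 0) := by
  rcases eq_or_ne z 0 with rfl | h0
  · exact ⟨1, by simp, fun K' _ _ ξ _ => ⟨0, zero_mem _, zero_mem _, fun h => (h rfl).elim⟩⟩
  obtain ⟨u, v, rfl⟩ := (IntermediateField.mem_adjoin_range_iff L x z).1 (hx ▸ trivial)
  rw [div_ne_zero_iff] at h0
  refine ⟨u * v, by simp [h0], fun K' _ _ ξ h => ?_⟩
  rw [map_mul, mul_ne_zero_iff] at h
  exact ⟨_, (IntermediateField.mem_adjoin_range_iff L ξ _).2 ⟨u, v, rfl⟩,
    ⟨u, v, h.2, div_mul_cancel₀ _ h0.2, div_mul_cancel₀ _ h.2⟩, fun _ => div_ne_zero h.1 h.2⟩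

theorem sp_aeval {σ : Type} {y : σ → K} {η : σ → K'} (h : ∀ j, (y j, η j) ∈ Sp L x ξ)
    (P : MvPolynomial σ L) : (aeval y P, aeval η P) ∈ Sp L x ξ := by
  induction P using MvPolynomial.induction_on with
  | C c => simpa using (Sp L x ξ).algebraMap_mem c
  | add p q hp hq => simpa using add_mem hp hq
  | mul_X p j hp => simpa using mul_mem hp (h j)

theorem dom_step [IsAlgClosed L] (hLV : ∀ (K : Type u) [Field K] [Algebra L K] (n : ℕ)
    (x : Fin (n + 1) → K), x ≠ 0 → rat L x = ⊤ → GenType L K → LV L x) (hD : S_DEGL L)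
    (hx : IntermediateField.adjoin L (Set.range x) = ⊤) (h : Dom L K) :
    ∃ (N : ℕ) (F : MvPolynomial (Fin n) L), aeval x F ≠ 0 ∧ ∀ (K' : Type u) [Field K']
      [Algebra L K'] (ξ : Fin n → K'), (∀ P : MvPolynomial (Fin n) L, aeval x P = 0 →
        aeval ξ P = 0) → Big L N ξ → aeval ξ F = 0 := by
  obtain ⟨K₀, _, _, φ, m, z, z0, zr, gt, alg⟩ := h
  obtain ⟨α, e, G, -, g2, g3⟩ := hLV K₀ m z (fun h => by simp [h] at z0) zr gt
  set y : Fin (m + 1) → K := fun j => φ (z j)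
  have ev : ∀ P : MvPolynomial (Fin (m + 1)) L, aeval y P = φ (aeval z P) := fun P =>
    (MvPolynomial.comp_aeval_apply z φ P).symm
  have rel : ∀ i, ∃ (q : Polynomial (MvPolynomial (Fin (m + 1)) L)) (d : ℕ),
      aeval y (q.coeff d) ≠ 0 ∧ q.sum (fun k c => aeval y c * x i ^ k) = 0 := fun i => by
    obtain ⟨p, p0, hp⟩ := alg.isAlgebraic (x i)
    let ψ : MvPolynomial (Fin (m + 1)) L →ₐ[L] Algebra.adjoin L (Set.range y) :=
      aeval fun j => ⟨y j, Algebra.subset_adjoin ⟨j, rfl⟩⟩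
    have hψ : ∀ P, (ψ P : K) = aeval y P := fun P =>
      MvPolynomial.comp_aeval_apply _ (Algebra.adjoin L (Set.range y)).val P
    obtain ⟨q, rfl⟩ := Polynomial.map_surjective ψ.toRingHom (fun a => by
      obtain ⟨P, hP⟩ := (Algebra.adjoin_range_eq_range_aeval L y).le a.2
      exact ⟨P, Subtype.ext ((hψ P).trans hP)⟩) p
    refine ⟨q, (q.map ψ.toRingHom).natDegree,
      fun h0 => Polynomial.leadingCoeff_ne_zero.2 p0 (Subtype.ext ?_), ?_⟩
    · rw [Polynomial.leadingCoeff, Polynomial.coeff_map]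
      exact (hψ _).trans h0
    · rw [Polynomial.aeval_def, Polynomial.eval₂_map, Polynomial.eval₂_def] at hp
      simpa [hψ] using hp
  choose q d q1 q2 using rel
  choose F F1 F2 using sp_gen hx
  refine ⟨α, (∏ j, F (y j)) * F (aeval y G) * ∏ i, F (aeval y ((q i).coeff (d i))),
    by simp [F1, Finset.prod_ne_zero_iff], fun K' _ _ ξ on ⟨_, b1, ⟨i, b2⟩, b3⟩ =>
      by_contra fun h0 => ?_⟩
  simp only [map_mul, map_prod, ← ne_eq, mul_ne_zero_iff, Finset.prod_ne_zero_iff,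
    Finset.mem_univ, forall_const] at h0
  choose η e1 e2 e3 using fun j => F2 _ K' ξ (h0.1.1 j)
  have ne : ∀ P : MvPolynomial (Fin (m + 1)) L, aeval ξ (F (aeval y P)) ≠ 0 → aeval y P ≠ 0 →
      aeval η P ≠ 0 := fun P h1 h2 => by
    obtain ⟨a, -, a1, a2⟩ := F2 _ K' ξ h1
    exact sp_eq on a1 (sp_aeval e2 P) ▸ a2 h2
  have η0 : η 0 = 1 := sp_eq on (e2 0) (by rw [show y 0 = 1 by simp [y, z0]]; exact one_mem _)
  have h1 := g3 K' η (fun h => by simp [h] at η0) (fun P hP => sp_eq on (sp_aeval e2 P)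
    (by rw [ev, hP.2, map_zero]; exact zero_mem _)) (ne G h0.1.2 (by simpa [ev] using g2))
  obtain ⟨j, hj⟩ : ∃ j, Transcendental L (η j) := by
    by_contra hc
    choose c hc' using fun j => (const_or_trans (L := L) (η j)).resolve_right fun h => hc ⟨j, h⟩
    have ec : ∀ P : MvPolynomial (Fin (m + 1)) L, aeval η P = algebraMap L K' (eval c P) :=
      fun P => by
        rw [← funext hc']
        exact MvPolynomial.aeval_algebraMap_apply K' c P
    refine b2 ⟨(q i).map (eval c), fun h => ne _ (h0.2 i) (q1 i) ?_, ?_⟩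
    · rw [ec, ← Polynomial.coeff_map, h]
      simp
    · have hi : (x i, ξ i) ∈ Sp L x ξ := ⟨X i, 1, by simp⟩
      have h2 : ((0 : K), (q i).sum fun k a => aeval η a * ξ i ^ k) ∈ Sp L x ξ := by
        have := sum_mem (S := Sp L x ξ) (t := (q i).support) fun k _ => mul_mem
          (sp_aeval e2 ((q i).coeff k)) (pow_mem hi k)
        rw [← q2 i]
        convert this using 1
        ext <;> simp [Prod.fst_sum, Prod.snd_sum, Polynomial.sum]
      have h3 := sp_eq (b := 0) on h2 (zero_mem _)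
      rw [Polynomial.aeval_def, Polynomial.eval₂_map, Polynomial.eval₂_def]
      simpa [ec] using h3
  have h2 := hD K' m η 0 j (by simp [η0]) (by simpa [η0] using hj)
  rw [η0, div_one] at h2
  have h3 := b3 _ (e1 j) hj
  have h7 : (α : ℤ) * genus L K' ≤ α * 1 :=
    mul_le_mul_of_nonneg_left (by exact_mod_cast b1) (Int.natCast_nonneg α)
  omega

theorem fin_abs [IsAlgClosed L] (hLV : ∀ (K : Type u) [Field K] [Algebra L K] (n : ℕ)
    (x : Fin (n + 1) → K), x ≠ 0 → rat L x = ⊤ → GenType L K → LV L x) (hD : S_DEGL L)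
    (hT : S_TERN L) (I₀ : Ideal (MvPolynomial (Fin n) L)) (G₀ : MvPolynomial (Fin n) L)
    (i j : Fin n) (h : ∀ (K : Type u) [Field K] [Algebra L K] (x : Fin n → K),
      IntermediateField.adjoin L (Set.range x) = ⊤ → I₀ ≤ RingHom.ker (aeval x) →
        aeval x G₀ ≠ 0 → Algebra.trdeg L K ≤ 1 ∨ Dom L K) :
    ∃ (N e : ℕ) (g : MvPolynomial (Fin 3) L), g ≠ 0 ∧ g.IsHomogeneous e ∧
      ∀ (K : Type u) [Field K] [Algebra L K] (ξ : Fin n → K), I₀ ≤ RingHom.ker (aeval ξ) →
        aeval ξ G₀ ≠ 0 → Big L N ξ → aeval ![ξ i, ξ j, 1] g = 0 := by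
  suffices H : ∀ I, I₀ ≤ I → ∃ (N e : ℕ) (g : MvPolynomial (Fin 3) L), g ≠ 0 ∧
      g.IsHomogeneous e ∧ ∀ (K : Type u) [Field K] [Algebra L K] (ξ : Fin n → K),
        I ≤ RingHom.ker (aeval ξ) → aeval ξ G₀ ≠ 0 → Big L N ξ →
          aeval ![ξ i, ξ j, 1] g = 0 from H _ le_rfl
  intro I
  induction I using IsNoetherian.induction with
  | hgt I ih =>
    intro hI
    have key := fun G (hG : G ∉ I) => ih (I ⊔ Ideal.span {G}) (lt_of_le_of_ne le_sup_left fun e =>
      hG (e ▸ Ideal.mem_sup_right (Ideal.mem_span_singleton_self G))) (hI.trans le_sup_left)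
    have sub : ∀ {G} {P : Ideal (MvPolynomial (Fin n) L)}, I ≤ P → G ∈ P →
        I ⊔ Ideal.span {G} ≤ P := fun h1 h2 =>
      sup_le h1 ((Ideal.span_singleton_le_iff_mem _).2 h2)
    by_cases h0 : G₀ ∈ I
    · exact ⟨0, 0, 1, one_ne_zero, isHomogeneous_one _ _, fun K _ _ ξ h1 h2 => (h2 (h1 h0)).elim⟩
    by_cases hp : Ideal.IsPrime I
    · let K := FractionRing (MvPolynomial (Fin n) L ⧸ I)
      let π : MvPolynomial (Fin n) L →ₐ[L] K :=
        (IsScalarTower.toAlgHom L _ K).comp (Ideal.Quotient.mkₐ L I)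
      let x : Fin n → K := fun k => π (X k)
      have e : ∀ P, aeval x P = π P := fun P => by rw [MvPolynomial.aeval_unique π]; rfl
      have hx : ∀ P, aeval x P = 0 ↔ P ∈ I := fun P => by
        simp [e, π, Ideal.Quotient.eq_zero_iff_mem]
      have top : IntermediateField.adjoin L (Set.range x) = ⊤ := top_le_iff.1 fun z _ => by
        obtain ⟨a, b, -, rfl⟩ := IsFractionRing.div_surjective (MvPolynomial (Fin n) L ⧸ I) z
        obtain ⟨a, rfl⟩ := Ideal.Quotient.mk_surjective a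
        obtain ⟨b, rfl⟩ := Ideal.Quotient.mk_surjective b
        exact (IntermediateField.mem_adjoin_range_iff L x _).2 ⟨a, b, by rw [e, e]; rfl⟩
      rcases h K x top (fun F hF => (hx F).2 (hI hF)) (mt (hx _).1 h0) with h1 | h1
      · have := FF.of_fg (top ▸ IntermediateField.fg_adjoin_of_finite (Set.finite_range x)) h1
        obtain ⟨g, d, g1, g2, g3⟩ := hT K ![x i, x j, 1]
        have ev : ∀ {K' : Type u} [Field K'] [Algebra L K'] (ξ : Fin n → K'),
            aeval ξ (aeval ![X i, X j, 1] g : MvPolynomial (Fin n) L) =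
              aeval ![ξ i, ξ j, 1] g := fun ξ => by
          rw [MvPolynomial.comp_aeval_apply]
          congr 2
          funext k
          fin_cases k <;> simp
        exact ⟨0, d, g, g1, g2, fun K' _ _ ξ h1 _ _ => ev ξ ▸ h1 ((hx _).1 ((ev x).trans g3))⟩
      · obtain ⟨M, F, f1, f2⟩ := dom_step hLV hD top h1
        obtain ⟨N, d, g, g1, g2, g3⟩ := key F (mt (hx F).2 f1)
        exact ⟨N + M, d, g, g1, g2, fun K' _ _ ξ h1 h2 h3 => g3 K' ξ (sub h1 (f2 K' ξ
          (fun P hP => h1 ((hx P).1 hP)) (h3.mono (by omega)))) h2 (h3.mono (by omega))⟩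
    · obtain ⟨a, ha, b, hb, hab⟩ := (Ideal.not_isPrime_iff.1 hp).resolve_left
        fun e => h0 (e ▸ trivial)
      obtain ⟨N, d, g, g1, g2, g3⟩ := key a ha
      obtain ⟨M, d', g', g4, g5, g6⟩ := key b hb
      refine ⟨N + M, d + d', g * g', mul_ne_zero g1 g4, g2.mul g5, fun K' _ _ ξ h1 h2 h3 => ?_⟩
      rw [map_mul, mul_eq_zero]
      exact ((RingHom.ker_isPrime (aeval ξ)).mem_or_mem (h1 hab)).imp
        (fun h => g3 K' ξ (sub h1 h) h2 (h3.mono (by omega)))
        fun h => g6 K' ξ (sub h1 h) h2 (h3.mono (by omega))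

end Pool.Agent.P.MP_50039c_nt.RS
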