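import Pool.Agent.P.MP_50039c_nt.LV.IfaceB

/-! The height of a root is bounded by the height of the coefficients. -/

set_option autoImplicit false

namespace Pool.Agent.P.MP_50039c_nt.RS

open Module WithZero Pool.Agent.P.MP_6f117a_ag
open scoped IntermediateField

universe u

variable {L : Type u} [Field L] {K : Type u} [Field K] [Algebra L K] {m : ℕ}

theorem v_aeval_le (P : Place L K) {η : Fin m → K} {M : ℤᵐ⁰} (h1 : 1 ≤ M) (h : ∀ j, P.v (η j) ≤ M)
    {R : MvPolynomial (Fin m) L} {b : ℕ} (hb : R.totalDegree ≤ b) :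
    P.v (MvPolynomial.aeval η R) ≤ M ^ b := by
  rw [MvPolynomial.aeval_def, MvPolynomial.eval₂_eq]
  refine P.v.map_sum_le fun d hd => ?_
  rw [map_mul, map_prod]
  refine (mul_le_of_le_one_left' (P.triv _)).trans ((Finset.prod_le_prod' fun i _ =>
    (map_pow P.v _ _).trans_le (pow_le_pow_left' (h i) _)).trans ?_)
  rw [Finset.prod_pow_eq_pow_sum]
  exact pow_le_pow_right' h1 ((MvPolynomial.le_totalDegree hd).trans hb)

theorem v_root_le {Γ : Type*} [LinearOrderedCommGroupWithZero Γ] (v : Valuation K Γ)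
    {p : Polynomial K} (p0 : p ≠ 0) {s : K} (hs : p.eval s = 0) (h1 : 1 < v s) {M : Γ}
    (h : ∀ k, v (p.coeff k) ≤ M) : v s * v p.leadingCoeff ≤ M := by
  refine not_lt.1 fun h2 => ?_
  have s0 : 0 < v s := zero_lt_one.trans h1
  have c0 : v p.leadingCoeff ≠ 0 := by simpa using p0
  rw [Polynomial.eval_eq_sum_range, Finset.sum_range_succ, add_eq_zero_iff_eq_neg] at hs
  refine (v.map_sum_lt (g := v (-(p.coeff p.natDegree * s ^ p.natDegree)))
    (by simpa using ⟨p0, fun e => absurd e (by simpa using s0.ne')⟩) fun k hk => ?_).ne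
      (congrArg v hs)
  rw [Valuation.map_neg, map_mul, map_mul, map_pow, map_pow]
  calc _ ≤ M * v s ^ k := mul_le_mul_left (h k) _
    _ < v s * v p.leadingCoeff * v s ^ k := mul_lt_mul_of_pos_right h2 (pow_pos s0 k)
    _ = v p.leadingCoeff * v s ^ (k + 1) := by rw [pow_succ]; ac_rfl
    _ ≤ _ := mul_le_mul_right (pow_le_pow_right' h1.le (Finset.mem_range.1 hk)) _

theorem root_height [IsAlgClosed L] [CharZero L] [FF L K] {η : Fin (m + 1) → K} (η0 : η 0 = 1)
    {p : Polynomial K} (p0 : p ≠ 0) {b : ℕ} (hb : ∀ k, ∃ R : MvPolynomial (Fin (m + 1)) L,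
      R.totalDegree ≤ b ∧ p.coeff k = MvPolynomial.aeval η R) {s : K} (ht : Transcendental L s)
    (hs : p.eval s = 0) : (finrank L⟮s⟯ K : ℤ) ≤ b * degree L η := by
  classical
  have c0 := Polynomial.leadingCoeff_ne_zero.2 p0
  obtain ⟨Z, z1, z2⟩ := degree_eq (L := L) (x := η) (i := 0) (by simp [η0])
  obtain ⟨Y, y1, y2⟩ := exists_poles ht
  simp only [η0, div_one] at z2
  have m1 : ∀ P : Place L K, 1 ≤ Finset.univ.sup fun j => P.v (η j) := fun P =>
    le_trans (by simp [η0]) (Finset.le_sup (f := fun j => P.v (η j)) (Finset.mem_univ 0))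
  have hc : ∀ (P : Place L K) k, P.v (p.coeff k) ≤ (Finset.univ.sup fun j => P.v (η j)) ^ b :=
    fun P k => by
      obtain ⟨R, h1, h2⟩ := hb k
      exact h2 ▸ v_aeval_le P (m1 P) (fun j => Finset.le_sup (f := fun j => P.v (η j))
        (Finset.mem_univ j)) h1
  let W := Z ∪ Y ∪ (finite_supp (L := L) c0).toFinset
  rw [z2, Finset.sum_subset (s₂ := W) (fun P h => by simp [W, h]) fun P _ h => by
    rw [le_antisymm (Finset.sup_le fun j _ => by
      by_cases h0 : η j = 0
      · simp [h0]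
      · exact (not_not.1 (mt (z1 P j h0) h)).le) (m1 P), log_one], ← y2, Finset.mul_sum,
    ← add_zero (∑ P ∈ Y, _), ← prod_formula c0 W (by simp +contextual [W]),
    ← Finset.inter_eq_right.2 (show Y ⊆ W from fun P h => by simp [W, h]), ← Finset.sum_ite_mem,
    ← Finset.sum_add_distrib]
  refine Finset.sum_le_sum fun P _ => ?_
  have c1 : P.v p.leadingCoeff ≠ 0 := by simpa using p0
  have m0 := (zero_lt_one.trans_le (m1 P)).ne'
  rw [← nsmul_eq_mul, ← log_pow]
  split_ifs with h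
  · have s0 : P.v s ≠ 0 := by simpa using trans_ne ht
    rw [← log_mul s0 c1]
    exact (log_le_log (mul_ne_zero s0 c1) (pow_ne_zero _ m0)).2
      (v_root_le P.v p0 hs ((y1 P).1 h) (hc P))
  · rw [zero_add]
    exact (log_le_log c1 (pow_ne_zero _ m0)).2 (hc P _)

end Pool.Agent.P.MP_50039c_nt.RS
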