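import Pool.Agent.P.MP_50039c_nt.RS.Abs
import Pool.Agent.P.MP_50039c_nt.RS.Height

/-! Curves of any genus on a variety that dominates a variety of general type. -/

set_option autoImplicit false

namespace Pool.Agent.P.MP_50039c_nt.RS

open MvPolynomial Module Pool.Agent.P.MP_6f117a_ag PJ LV
open scoped IntermediateField

universe u

variable (L : Type u) [Field L] {K K' : Type u} [Field K] [Algebra L K] [Field K'] [Algebra L K']
  {n : ℕ}

/-- A point over a function field with a coordinate whose degree is large against the genus. -/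
def Tall (N : ℕ) (ξ : Fin n → K') : Prop := ∃ _ : FF L K', ∃ i, Transcendental L (ξ i) ∧
  N * genus L K' < finrank L⟮ξ i⟯ K'

variable {L} {x : Fin n → K} {ξ : Fin n → K'}

theorem Tall.mono {N M : ℕ} (h : Tall L N ξ) (hM : M ≤ N) : Tall L M ξ :=
  let ⟨h1, i, h2, h3⟩ := h
  ⟨h1, i, h2, (Nat.mul_le_mul_right _ hM).trans_lt h3⟩

theorem dom_tall [IsAlgClosed L] [CharZero L] (hLV : ∀ (K : Type u) [Field K] [Algebra L K] (n : ℕ)
    (x : Fin (n + 1) → K), x ≠ 0 → rat L x = ⊤ → GenType L K → LV L x)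
    (hx : IntermediateField.adjoin L (Set.range x) = ⊤) (h : Dom L K) :
    ∃ (N : ℕ) (F : MvPolynomial (Fin n) L), aeval x F ≠ 0 ∧ ∀ (K' : Type u) [Field K']
      [Algebra L K'] (ξ : Fin n → K'), (∀ P : MvPolynomial (Fin n) L, aeval x P = 0 →
        aeval ξ P = 0) → Tall L N ξ → aeval ξ F = 0 := by
  obtain ⟨K₀, _, _, φ, m, z, z0, zr, gt, alg⟩ := h
  obtain ⟨α, e, G, -, g2, g3⟩ := hLV K₀ m z (fun h => by simp [h] at z0) zr gt
  set y : Fin (m + 1) → K := fun j => φ (z j)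
  have ev : ∀ P : MvPolynomial (Fin (m + 1)) L, aeval y P = φ (aeval z P) := fun P =>
    (MvPolynomial.comp_aeval_apply z φ P).symm
  have rel : ∀ i, ∃ (q : Polynomial (MvPolynomial (Fin (m + 1)) L)) (d : ℕ),
      aeval y (q.coeff d) ≠ 0 ∧ q.sum (fun k c => aeval y c * x i ^ k) = 0 := fun i => by
    obtain ⟨p, p0, hp⟩ := alg.isAlgebraic (x i)
    let ψ : MvPolynomial (Fin (m + 1)) L →ₐ[L] Algebra.adjoin L (Set.range y) :=
      aeval fun j => ⟨y j, Algebra.subset_adjoin ⟨j, rfl⟩⟩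
    have hψ : ∀ P, (ψ P : K) = aeval y P := fun P =>
      MvPolynomial.comp_aeval_apply _ (Algebra.adjoin L (Set.range y)).val P
    obtain ⟨q, rfl⟩ := Polynomial.map_surjective ψ.toRingHom (fun a => by
      obtain ⟨P, hP⟩ := (Algebra.adjoin_range_eq_range_aeval L y).le a.2
      exact ⟨P, Subtype.ext ((hψ P).trans hP)⟩) p
    refine ⟨q, (q.map ψ.toRingHom).natDegree,
      fun h0 => Polynomial.leadingCoeff_ne_zero.2 p0 (Subtype.ext ?_), ?_⟩
    · rw [Polynomial.leadingCoeff, Polynomial.coeff_map]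
      exact (hψ _).trans h0
    · rw [Polynomial.aeval_def, Polynomial.eval₂_map, Polynomial.eval₂_def] at hp
      simpa [hψ] using hp
  choose q d q1 q2 using rel
  choose F F1 F2 using sp_gen hx
  obtain ⟨b, hb⟩ := Finite.exists_le fun i => (q i).support.sup fun k => ((q i).coeff k).totalDegree
  refine ⟨b * α, (∏ j, F (y j)) * F (aeval y G) * ∏ i, F (aeval y ((q i).coeff (d i))),
    by simp [F1, Finset.prod_ne_zero_iff], fun K' _ _ ξ on ⟨_, i, b2, b3⟩ =>
      by_contra fun h0 => ?_⟩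
  simp only [map_mul, map_prod, ← ne_eq, mul_ne_zero_iff, Finset.prod_ne_zero_iff,
    Finset.mem_univ, forall_const] at h0
  choose η e1 e2 e3 using fun j => F2 _ K' ξ (h0.1.1 j)
  have ne : ∀ P : MvPolynomial (Fin (m + 1)) L, aeval ξ (F (aeval y P)) ≠ 0 → aeval y P ≠ 0 →
      aeval η P ≠ 0 := fun P h1 h2 => by
    obtain ⟨a, -, a1, a2⟩ := F2 _ K' ξ h1
    exact sp_eq on a1 (sp_aeval e2 P) ▸ a2 h2
  have η0 : η 0 = 1 := sp_eq on (e2 0) (by rw [show y 0 = 1 by simp [y, z0]]; exact one_mem _)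
  have h1 := g3 K' η (fun h => by simp [h] at η0) (fun P hP => sp_eq on (sp_aeval e2 P)
    (by rw [ev, hP.2, map_zero]; exact zero_mem _)) (ne G h0.1.2 (by simpa [ev] using g2))
  have hi : (x i, ξ i) ∈ Sp L x ξ := ⟨X i, 1, by simp⟩
  have h2 : ((0 : K), (q i).sum fun k a => aeval η a * ξ i ^ k) ∈ Sp L x ξ := by
    have := sum_mem (S := Sp L x ξ) (t := (q i).support) fun k _ => mul_mem
      (sp_aeval e2 ((q i).coeff k)) (pow_mem hi k)
    rw [← q2 i]
    convert this using 1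
    ext <;> simp [Prod.fst_sum, Prod.snd_sum, Polynomial.sum]
  have h3 := root_height η0 (p := (q i).map (aeval η).toRingHom) (fun h => ne _ (h0.2 i) (q1 i)
    (by simpa using congrArg (Polynomial.coeff · (d i)) h)) (b := b) (fun k => ⟨(q i).coeff k, by
      by_cases hk : k ∈ (q i).support
      · exact (Finset.le_sup (f := fun k => ((q i).coeff k).totalDegree) hk).trans (hb i)
      · simp [Polynomial.notMem_support_iff.1 hk], Polynomial.coeff_map _ _⟩) b2 (by
      rw [Polynomial.eval_map, Polynomial.eval₂_def]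
      exact sp_eq (b := 0) on h2 (zero_mem _))
  have h4 := mul_le_mul_of_nonneg_left h1 (Int.natCast_nonneg b)
  rw [← mul_assoc] at h4
  exact (h3.trans h4).not_gt (by exact_mod_cast b3)

theorem fin_tall [IsAlgClosed L] [CharZero L] (hLV : ∀ (K : Type u) [Field K] [Algebra L K] (n : ℕ)
    (x : Fin (n + 1) → K), x ≠ 0 → rat L x = ⊤ → GenType L K → LV L x)
    (hT : S_TERN L) (I₀ : Ideal (MvPolynomial (Fin n) L)) (G₀ : MvPolynomial (Fin n) L)
    (i j : Fin n) (h : ∀ (K : Type u) [Field K] [Algebra L K] (x : Fin n → K),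
      IntermediateField.adjoin L (Set.range x) = ⊤ → I₀ ≤ RingHom.ker (aeval x) →
        aeval x G₀ ≠ 0 → Algebra.trdeg L K ≤ 1 ∨ Dom L K) :
    ∃ (N e : ℕ) (g : MvPolynomial (Fin 3) L), g ≠ 0 ∧ g.IsHomogeneous e ∧
      ∀ (K : Type u) [Field K] [Algebra L K] (ξ : Fin n → K), I₀ ≤ RingHom.ker (aeval ξ) →
        aeval ξ G₀ ≠ 0 → Tall L N ξ → aeval ![ξ i, ξ j, 1] g = 0 := by
  suffices H : ∀ I, I₀ ≤ I → ∃ (N e : ℕ) (g : MvPolynomial (Fin 3) L), g ≠ 0 ∧
      g.IsHomogeneous e ∧ ∀ (K : Type u) [Field K] [Algebra L K] (ξ : Fin n → K),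
        I ≤ RingHom.ker (aeval ξ) → aeval ξ G₀ ≠ 0 → Tall L N ξ →
          aeval ![ξ i, ξ j, 1] g = 0 from H _ le_rfl
  intro I
  induction I using IsNoetherian.induction with
  | hgt I ih =>
    intro hI
    have key := fun G (hG : G ∉ I) => ih (I ⊔ Ideal.span {G}) (lt_of_le_of_ne le_sup_left fun e =>
      hG (e ▸ Ideal.mem_sup_right (Ideal.mem_span_singleton_self G))) (hI.trans le_sup_left)
    have sub : ∀ {G} {P : Ideal (MvPolynomial (Fin n) L)}, I ≤ P → G ∈ P →
        I ⊔ Ideal.span {G} ≤ P := fun h1 h2 =>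
      sup_le h1 ((Ideal.span_singleton_le_iff_mem _).2 h2)
    by_cases h0 : G₀ ∈ I
    · exact ⟨0, 0, 1, one_ne_zero, isHomogeneous_one _ _, fun K _ _ ξ h1 h2 => (h2 (h1 h0)).elim⟩
    by_cases hp : Ideal.IsPrime I
    · let K := FractionRing (MvPolynomial (Fin n) L ⧸ I)
      let π : MvPolynomial (Fin n) L →ₐ[L] K :=
        (IsScalarTower.toAlgHom L _ K).comp (Ideal.Quotient.mkₐ L I)
      let x : Fin n → K := fun k => π (X k)
      have e : ∀ P, aeval x P = π P := fun P => by rw [MvPolynomial.aeval_unique π]; rfl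
      have hx : ∀ P, aeval x P = 0 ↔ P ∈ I := fun P => by
        simp [e, π, Ideal.Quotient.eq_zero_iff_mem]
      have top : IntermediateField.adjoin L (Set.range x) = ⊤ := top_le_iff.1 fun z _ => by
        obtain ⟨a, b, -, rfl⟩ := IsFractionRing.div_surjective (MvPolynomial (Fin n) L ⧸ I) z
        obtain ⟨a, rfl⟩ := Ideal.Quotient.mk_surjective a
        obtain ⟨b, rfl⟩ := Ideal.Quotient.mk_surjective b
        exact (IntermediateField.mem_adjoin_range_iff L x _).2 ⟨a, b, by rw [e, e]; rfl⟩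
      rcases h K x top (fun F hF => (hx F).2 (hI hF)) (mt (hx _).1 h0) with h1 | h1
      · have := FF.of_fg (top ▸ IntermediateField.fg_adjoin_of_finite (Set.finite_range x)) h1
        obtain ⟨g, d, g1, g2, g3⟩ := hT K ![x i, x j, 1]
        have ev : ∀ {K' : Type u} [Field K'] [Algebra L K'] (ξ : Fin n → K'),
            aeval ξ (aeval ![X i, X j, 1] g : MvPolynomial (Fin n) L) =
              aeval ![ξ i, ξ j, 1] g := fun ξ => by
          rw [MvPolynomial.comp_aeval_apply]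
          congr 2
          funext k
          fin_cases k <;> simp
        exact ⟨0, d, g, g1, g2, fun K' _ _ ξ h1 _ _ => ev ξ ▸ h1 ((hx _).1 ((ev x).trans g3))⟩
      · obtain ⟨M, F, f1, f2⟩ := dom_tall hLV top h1
        obtain ⟨N, d, g, g1, g2, g3⟩ := key F (mt (hx F).2 f1)
        exact ⟨N + M, d, g, g1, g2, fun K' _ _ ξ h1 h2 h3 => g3 K' ξ (sub h1 (f2 K' ξ
          (fun P hP => h1 ((hx P).1 hP)) (h3.mono (by omega)))) h2 (h3.mono (by omega))⟩
    · obtain ⟨a, ha, b, hb, hab⟩ := (Ideal.not_isPrime_iff.1 hp).resolve_left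
        fun e => h0 (e ▸ trivial)
      obtain ⟨N, d, g, g1, g2, g3⟩ := key a ha
      obtain ⟨M, d', g', g4, g5, g6⟩ := key b hb
      refine ⟨N + M, d + d', g * g', mul_ne_zero g1 g4, g2.mul g5, fun K' _ _ ξ h1 h2 h3 => ?_⟩
      rw [map_mul, mul_eq_zero]
      exact ((RingHom.ker_isPrime (aeval ξ)).mem_or_mem (h1 hab)).imp
        (fun h => g3 K' ξ (sub h1 h) h2 (h3.mono (by omega)))
        fun h => g6 K' ξ (sub h1 h) h2 (h3.mono (by omega))

end Pool.Agent.P.MP_50039c_nt.RS
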