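import Pool.Agent.P.MP_50039c_nt.RS.Iface

/-! Charts given by two equations in four local variables, and products of projective systems. -/

set_option autoImplicit false

namespace Pool.Agent.P.MP_50039c_nt.RS

open MvPolynomial Module Pool.Agent.P.MP_6f117a_ag PJ LV
open scoped IntermediateField

universe u

variable {L K : Type u} [Field L] [Field K] [Algebra L K]

/-- The functions `x` take the values `c` at the point. -/
def At (P : Loc L K) {σ : Type} (x : σ → K) (c : σ → L) : Prop :=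
  ∀ i, x i - algebraMap L K (c i) ∈ P.m

/-- Some member of the system divides all the others. -/
def Domi (P : Loc L K) (Y : List K) : Prop := ∃ s ∈ Y, s ≠ 0 ∧ ∀ y ∈ Y, y / s ∈ P.O

/-- The regular ratios of the system lie in `Z`. -/
def Cov (P : Loc L K) (Z : Subalgebra L K) (Y : List K) : Prop :=
  ∀ s ∈ Y, s ≠ 0 → (∀ y ∈ Y, y / s ∈ P.O) → ∀ y ∈ Y, y / s ∈ Z

/-- There are local coordinates that give `C` and in which the forms `H` are regular. -/
def Out (P : Loc L K) (D E : Derivation L K K) (C : Subalgebra L K → Prop) (H : List K) : Prop :=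
  ∃ p ∈ P.O, ∃ q ∈ P.O, (∀ Z, P.Sq Z → p ∈ Z → q ∈ Z → C Z) ∧
    ∀ h ∈ H, ∃ b ∈ P.O, h = b * jac D E p q

variable {P : Loc L K} {σ : Type} {x : σ → K} {c : σ → L} {Z : Subalgebra L K}

theorem mem_of_res {y : K} {a : L} (h : y - algebraMap L K a ∈ P.m) : y ∈ P.O := by
  simpa using add_mem (P.le _ h) (P.O.algebraMap_mem a)

theorem exists_at (hx : ∀ i, x i ∈ P.O) : ∃ c, At P x c := by
  choose c hc using fun i => P.res _ (hx i)
  exact ⟨c, hc⟩

theorem at4 {x₀ x₁ x₂ x₃ : K} {c₀ c₁ c₂ c₃ : L} (h₀ : x₀ - algebraMap L K c₀ ∈ P.m)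
    (h₁ : x₁ - algebraMap L K c₁ ∈ P.m) (h₂ : x₂ - algebraMap L K c₂ ∈ P.m)
    (h₃ : x₃ - algebraMap L K c₃ ∈ P.m) : At P ![x₀, x₁, x₂, x₃] ![c₀, c₁, c₂, c₃] := fun i => by
  fin_cases i <;> assumption

theorem mem4 {x₀ x₁ x₂ x₃ : K} (h₀ : x₀ ∈ Z) (h₁ : x₁ ∈ Z) (h₂ : x₂ ∈ Z) (h₃ : x₃ ∈ Z) :
    ∀ i, ![x₀, x₁, x₂, x₃] i ∈ Z := fun i => by
  fin_cases i <;> assumption

theorem At.res (h : At P x c) (F : MvPolynomial σ L) :
    aeval x F - algebraMap L K (eval c F) ∈ P.m := by
  induction F using MvPolynomial.induction_on with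
  | C a => simp
  | add F G hF hG => convert add_mem hF hG using 1; simp only [map_add]; ring
  | mul_X F i hF =>
    convert add_mem (Loc.mul' hF (mem_of_res (h i))) (P.mul _ (P.O.algebraMap_mem (eval c F)) _
      (h i)) using 1
    simp only [map_mul, aeval_X, eval_X]; ring

theorem At.mem (h : At P x c) (F : MvPolynomial σ L) : aeval x F ∈ P.O := mem_of_res (h.res F)

theorem At.un (h : At P x c) (F : MvPolynomial σ L) (h0 : eval c F ≠ 0) : P.Un (aeval x F) :=
  Loc.un_of_res h0 (h.res F)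

theorem At.m (h : At P x c) (F : MvPolynomial σ L) (h0 : eval c F = 0) : aeval x F ∈ P.m := by
  simpa [h0] using h.res F

theorem At.zero (h : At P x c) (F : MvPolynomial σ L) (h0 : aeval x F ∈ P.m) : eval c F = 0 :=
  by_contra fun e => (h.un F e).2 h0

theorem At.eq (h : At P x c) (F : MvPolynomial σ L) (h0 : aeval x F = 0) : eval c F = 0 :=
  h.zero F (h0 ▸ P.m.zero_mem)

theorem aeval_mem (h : ∀ i, x i ∈ Z) (F : MvPolynomial σ L) : aeval x F ∈ Z := by
  induction F using MvPolynomial.induction_on with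
  | C a => simp
  | add F G hF hG => exact map_add (aeval x) F G ▸ add_mem hF hG
  | mul_X F i hF => simpa using mul_mem hF (h i)

theorem mem_aeval (h : ∀ i, x i ∈ Z) (F : MvPolynomial σ L) {y : K} (e : y = aeval x F) :
    y ∈ Z := e ▸ aeval_mem h F

theorem At.mem' (h : At P x c) (F : MvPolynomial σ L) {y : K} (e : y = aeval x F) : y ∈ P.O :=
  e ▸ h.mem F

theorem At.un' (h : At P x c) (F : MvPolynomial σ L) {y : K} (e : y = aeval x F)
    (h0 : eval c F ≠ 0) : P.Un y := e ▸ h.un F h0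

theorem At.m' (h : At P x c) (F : MvPolynomial σ L) {y : K} (e : y = aeval x F)
    (h0 : eval c F = 0) : y ∈ P.m := e ▸ h.m F h0

theorem At.res' (h : At P x c) (F : MvPolynomial σ L) {y : K} {a : L} (e : y = aeval x F)
    (e' : a = eval c F) : y - algebraMap L K a ∈ P.m := e ▸ e' ▸ h.res F

theorem pd_nat (i : σ) (n : ℕ) [n.AtLeastTwo] :
    pderiv i (no_index (OfNat.ofNat n) : MvPolynomial σ L) = 0 := by
  rw [← map_ofNat C n, pderiv_C]

theorem At.taylor [Fintype σ] [DecidableEq σ] (h : At P x c) (hZ : P.Sq Z) (F : MvPolynomial σ L) :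
    aeval x F - ∑ i, algebraMap L K (eval c (pderiv i F)) * x i ∈ Z := by
  have : aeval x F - algebraMap L K (eval c F) -
      ∑ i, algebraMap L K (eval c (pderiv i F)) * (x i - algebraMap L K (c i)) ∈ Z := by
    induction F using MvPolynomial.induction_on with
    | C a => simp
    | add F G hF hG =>
      convert add_mem hF hG using 1
      simp only [map_add, add_mul, Finset.sum_add_distrib]; ring
    | mul_X F j hF =>
      convert add_mem (mul_mem hF (Z.algebraMap_mem (c j))) (hZ _ (h.res F) _ (h j)) using 1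
      have e : ∀ i, algebraMap L K (eval c (pderiv i (F * X j))) * (x i - algebraMap L K (c i)) =
          algebraMap L K (eval c (pderiv i F)) * (x i - algebraMap L K (c i)) *
            algebraMap L K (c j) + if i = j then algebraMap L K (eval c F) *
              (x j - algebraMap L K (c j)) else 0 := fun i => by
        by_cases e : i = j
        · subst e; simp; ring
        · simp [e, Ne.symm e]; ring
      simp only [e, Finset.sum_add_distrib, ← Finset.sum_mul, Finset.sum_ite_eq', Finset.mem_univ,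
        if_true, map_mul, aeval_X, eval_X]
      ring
  convert sub_mem (add_mem this (Z.algebraMap_mem (eval c F))) (sum_mem (t := Finset.univ)
    fun i _ => Z.algebraMap_mem (eval c (pderiv i F) * c i)) using 1
  simp only [mul_sub, Finset.sum_sub_distrib, map_mul]; ring

theorem der_aeval [Fintype σ] [DecidableEq σ] (D : Derivation L K K) (x : σ → K)
    (F : MvPolynomial σ L) : D (aeval x F) = ∑ i, aeval x (pderiv i F) * D (x i) := by
  induction F using MvPolynomial.induction_on with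
  | C a => simp
  | add F G hF hG => simp only [map_add, hF, hG, add_mul, Finset.sum_add_distrib]
  | mul_X F j hF =>
    have e : ∀ i, aeval x (pderiv i (F * X j)) * D (x i) = aeval x (pderiv i F) * D (x i) * x j +
        if i = j then aeval x F * D (x j) else 0 := fun i => by
      by_cases e : i = j
      · subst e; simp; ring
      · simp [e, Ne.symm e]; ring
    simp only [e, Finset.sum_add_distrib, ← Finset.sum_mul, Finset.sum_ite_eq', Finset.mem_univ,
      if_true]
    rw [map_mul, aeval_X, Derivation.leibniz, hF, smul_eq_mul, smul_eq_mul]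
    ring

/-- The determinant of four vectors. -/
def det4 {R : Type*} [CommRing R] (a b f g : Fin 4 → R) : R :=
  (a 0 * b 1 - a 1 * b 0) * (f 2 * g 3 - f 3 * g 2) - (a 0 * b 2 - a 2 * b 0) * (f 1 * g 3 - f 3 * g 1)
  + (a 0 * b 3 - a 3 * b 0) * (f 1 * g 2 - f 2 * g 1) + (a 1 * b 2 - a 2 * b 1) * (f 0 * g 3 - f 3 * g 0)
  - (a 1 * b 3 - a 3 * b 1) * (f 0 * g 2 - f 2 * g 0) + (a 2 * b 3 - a 3 * b 2) * (f 0 * g 1 - f 1 * g 0)

theorem plucker (f g u v : Fin 4 → K) (fu : ∑ i, f i * u i = 0) (fv : ∑ i, f i * v i = 0)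
    (gu : ∑ i, g i * u i = 0) (gv : ∑ i, g i * v i = 0) (k l : Fin 4) (hkl : k ≠ l) :
    ∃ i j : Fin 4, (∀ n, n = i ∨ n = j ∨ n = k ∨ n = l) ∧ ∀ a b : Fin 4 → K,
      ((∑ i, a i * u i) * (∑ i, b i * v i) - (∑ i, b i * u i) * ∑ i, a i * v i) *
        (f k * g l - f l * g k) = det4 a b f g * (u i * v j - u j * v i) := by
  have key : ∀ a b w z : Fin 4 → K, ((∑ i, a i * u i) * (∑ i, b i * v i) -
      (∑ i, b i * u i) * ∑ i, a i * v i) * ((∑ i, f i * w i) * (∑ i, g i * z i) -
        (∑ i, f i * z i) * ∑ i, g i * w i) = det4 a b f g * det4 u v w z := fun a b w z => by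
    have e : det4 a b f g * det4 u v w z = det4 (fun n => ∑ i, a i * ![u, v, w, z] n i)
        (fun n => ∑ i, b i * ![u, v, w, z] n i) (fun n => ∑ i, f i * ![u, v, w, z] n i)
        fun n => ∑ i, g i * ![u, v, w, z] n i := by
      simp only [det4, Fin.sum_univ_four, Matrix.cons_val_zero, Matrix.cons_val_one,
        Matrix.cons_val]
      ring
    rw [e]
    simp only [det4, Matrix.cons_val_zero, Matrix.cons_val_one, Matrix.cons_val, fu, fv, gu, gv]
    ring
  have := fun a b => key a b (Pi.single k 1) (Pi.single l 1)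
  simp only [Pi.single_apply, mul_ite, mul_one, mul_zero, Finset.sum_ite_eq', Finset.mem_univ,
    if_true] at this
  simp only [this]
  clear this key fu fv gu gv
  fin_cases k <;> fin_cases l
  · exact absurd rfl hkl
  · exact ⟨2, 3, by decide, by simp [det4]⟩
  · exact ⟨3, 1, by decide, by simp [det4]⟩
  · exact ⟨1, 2, by decide, by simp [det4]⟩
  · exact ⟨3, 2, by decide, by simp [det4]⟩
  · exact absurd rfl hkl
  · exact ⟨0, 3, by decide, by simp [det4]⟩
  · exact ⟨2, 0, by decide, by simp [det4]⟩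
  · exact ⟨1, 3, by decide, by simp [det4]⟩
  · exact ⟨3, 0, by decide, by simp [det4]⟩
  · exact absurd rfl hkl
  · exact ⟨0, 1, by decide, by simp [det4]⟩
  · exact ⟨2, 1, by decide, by simp [det4]⟩
  · exact ⟨0, 2, by decide, by simp [det4]⟩
  · exact ⟨1, 0, by decide, by simp [det4]⟩
  · exact absurd rfl hkl

/-- The gradient. -/
noncomputable def grad (x : Fin 4 → K) (F : MvPolynomial (Fin 4) L) : Fin 4 → K :=
  fun i => aeval x (pderiv i F)

theorem chart0 (D E : Derivation L K K) {x : Fin 4 → K} {c : Fin 4 → L} (h : At P x c)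
    (F G : MvPolynomial (Fin 4) L) (hF : aeval x F = 0) (hG : aeval x G = 0)
    (hu : eval c F = 0 → eval c G = 0 → ∃ k l, eval c (pderiv k F) * eval c (pderiv l G) ≠
      eval c (pderiv l F) * eval c (pderiv k G)) : ∃ ζ, (∀ A B : MvPolynomial (Fin 4) L,
      jac D E (aeval x A) (aeval x B) = det4 (grad x A) (grad x B) (grad x F) (grad x G) * ζ) ∧
        Out P D E (fun Z => ∀ i, x i ∈ Z) [ζ] := by
  obtain ⟨k, l, hu⟩ := hu (h.eq F hF) (h.eq G hG)
  have hkl : k ≠ l := fun e => hu (by rw [e])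
  have z : ∀ (D : Derivation L K K) (F : MvPolynomial (Fin 4) L), aeval x F = 0 →
      ∑ i, grad x F i * D (x i) = 0 := fun D F h => by
    simp only [grad]
    rw [← der_aeval, h, map_zero]
  obtain ⟨i, j, h1, h2⟩ := plucker _ _ _ _ (z D F hF) (z E F hF) (z D G hG)
    (z E G hG) k l hkl
  have hx : ∀ n, x n ∈ P.O := fun n => mem_of_res (h n)
  have un := h.un (pderiv k F * pderiv l G - pderiv l F * pderiv k G)
    (by simpa [sub_eq_zero] using hu)
  refine ⟨_, fun A B => ?_, _, hx i, _, hx j, fun Z hZ hi hj => ?_, fun y hy =>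
    ⟨_, un.inv.1, List.mem_singleton.1 hy⟩⟩
  · have e : jac D E (aeval x A) (aeval x B) * aeval x (pderiv k F * pderiv l G -
        pderiv l F * pderiv k G) = det4 (grad x A) (grad x B) (grad x F) (grad x G) *
          jac D E (x i) (x j) := by
      simp only [jac, der_aeval, map_sub, map_mul]
      exact h2 _ _
    have := un.ne
    field_simp
    exact e
  · have key : ∀ k l : Fin 4, (∀ n, n = i ∨ n = j ∨ n = k ∨ n = l) →
        eval c (pderiv k F) * eval c (pderiv l G) ≠ eval c (pderiv l F) * eval c (pderiv k G) →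
          x k ∈ Z := fun k l h1 hu => by
      let t : Fin 4 → K := fun n => algebraMap L K (eval c (pderiv n F) * eval c (pderiv l G) -
        eval c (pderiv l F) * eval c (pderiv n G)) * x n
      have h3 : ∑ n, t n ∈ Z := by
        convert sub_mem (mul_mem (h.taylor hZ G) (Z.algebraMap_mem (eval c (pderiv l F))))
          (mul_mem (h.taylor hZ F) (Z.algebraMap_mem (eval c (pderiv l G)))) using 1
        simp only [t, hF, hG, Fin.sum_univ_four, map_sub, map_mul]; ring
      have h4 : t k ∈ Z := by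
        rw [← Finset.add_sum_erase _ _ (Finset.mem_univ k)] at h3
        refine (add_mem_cancel_right (sum_mem fun n hn => ?_)).1 h3
        rcases h1 n with rfl | rfl | rfl | rfl
        · exact mul_mem (Z.algebraMap_mem _) hi
        · exact mul_mem (Z.algebraMap_mem _) hj
        · simp at hn
        · simp [t]
      have := mul_mem (Z.algebraMap_mem (eval c (pderiv k F) * eval c (pderiv l G) -
        eval c (pderiv l F) * eval c (pderiv k G))⁻¹) h4
      rwa [← mul_assoc, ← map_mul, inv_mul_cancel₀ (sub_ne_zero.2 hu), map_one, one_mul] at this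
    intro n
    rcases h1 n with rfl | rfl | rfl | rfl
    · exact hi
    · exact hj
    · exact key _ _ h1 hu
    · exact key _ k (fun m => by have := h1 m; tauto) hu.symm

theorem Out.mono {D E : Derivation L K K} {C C' : Subalgebra L K → Prop} {η : K} {H : List K}
    (h : Out P D E C [η]) (hC : ∀ Z, P.Sq Z → C Z → C' Z) (hH : ∀ y ∈ H, ∃ b ∈ P.O, y = b * η) :
    Out P D E C' H := by
  obtain ⟨p, hp, q, hq, h1, h2⟩ := h
  obtain ⟨b, hb, e⟩ := h2 η (by simp)
  refine ⟨p, hp, q, hq, fun Z hZ a b => hC Z hZ (h1 Z hZ a b), fun y hy => ?_⟩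
  obtain ⟨a, ha, rfl⟩ := hH y hy
  exact ⟨_, mul_mem ha hb, by rw [mul_assoc, ← e]⟩

/-- The chart given by two equations with independent gradients. -/
theorem chart (D E : Derivation L K K) {x : Fin 4 → K} {c : Fin 4 → L} (h : At P x c)
    (F G A B : MvPolynomial (Fin 4) L) (hF : aeval x F = 0) (hG : aeval x G = 0)
    (hu : eval c F = 0 → eval c G = 0 → ∃ k l, eval c (pderiv k F) * eval c (pderiv l G) ≠
      eval c (pderiv l F) * eval c (pderiv k G)) {η N f g : K} (β : K) (hβ : β ∈ P.O) (N0 : N ≠ 0)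
    (hN : det4 (grad x A) (grad x B) (grad x F) (grad x G) = β * N) (hη : η * N = jac D E f g)
    (hf : f = aeval x A) (hg : g = aeval x B) {C : Subalgebra L K → Prop}
    (hC : ∀ Z, P.Sq Z → (∀ i, x i ∈ Z) → C Z) : Out P D E C [η] := by
  subst hf hg
  obtain ⟨ζ, h1, h2⟩ := chart0 D E h F G hF hG hu
  refine h2.mono hC fun y hy => ⟨β, hβ, mul_right_cancel₀ N0 ?_⟩
  rw [List.mem_singleton.1 hy, hη, h1, hN]
  ring

theorem Out.imp {D E : Derivation L K K} {C C' : Subalgebra L K → Prop} {H H' : List K}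
    (h : Out P D E C H) (hC : ∀ Z, C Z → C' Z) (hH : ∀ y ∈ H', y ∈ H ∨ -y ∈ H) :
    Out P D E C' H' := by
  obtain ⟨p, hp, q, hq, h1, h2⟩ := h
  refine ⟨p, hp, q, hq, fun Z hZ a b => hC Z (h1 Z hZ a b), fun y hy => ?_⟩
  rcases hH y hy with h | h
  · exact h2 y h
  · obtain ⟨b, hb, e⟩ := h2 _ h
    exact ⟨_, neg_mem hb, by linear_combination -e⟩

/-- A subsystem that generates the system. -/
theorem Domi.sub {Y : List K} (h : Domi P Y) (W : List K) (h1 : ∀ w ∈ W, w ∈ Y)
    (h2 : ∀ y ∈ Y, ∃ w ∈ W, ∃ b ∈ P.O, y = b * w) : Domi P W := by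
  obtain ⟨s, hs, s0, h⟩ := h
  obtain ⟨w, hw, b, hb, rfl⟩ := h2 s hs
  have := left_ne_zero_of_mul s0
  refine ⟨w, hw, right_ne_zero_of_mul s0, fun y hy => ?_⟩
  convert mul_mem hb (h y (h1 y hy)) using 1
  field_simp

theorem Domi.congr {Y W : List K} (h : Domi P Y) (e : ∀ y, y ∈ W ↔ y ∈ Y) : Domi P W := by
  simpa only [Domi, e] using h

theorem Cov.congr {Y W : List K} (h : Cov P Z Y) (e : ∀ y, y ∈ W ↔ y ∈ Y) : Cov P Z W := by
  simpa only [Cov, e] using h

theorem dom_map {Y : List K} {ν : K} (h0 : ν ≠ 0) : Domi P (Y.map (ν * ·)) ↔ Domi P Y := by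
  simp [Domi, h0, mul_div_mul_left]

theorem cov_map {Y : List K} {ν : K} (h0 : ν ≠ 0) : Cov P Z (Y.map (ν * ·)) ↔ Cov P Z Y := by
  simp [Cov, h0, mul_div_mul_left]

theorem cov_of {Y : List K} (hZ : P.Sq Z) {ν : K} (h0 : ν ≠ 0)
    (h : ∀ y ∈ Y, y / ν ∈ Z) (hu : ∃ y ∈ Y, P.Un (y / ν)) (hO : ∀ y ∈ Y, y / ν ∈ P.O) :
    Cov P Z Y := by
  intro s hs s0 h1 y hy
  obtain ⟨w, hw, hu⟩ := hu
  have : P.Un (s / ν) := ⟨hO s hs, fun e => hu.2 (by
    convert P.mul _ (h1 w hw) _ e using 1; field_simp)⟩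
  convert hZ.div_mem (h y hy) this (h s hs) using 1
  field_simp

theorem At.cov (h : At P x c) (hZ : P.Sq Z) (hx : ∀ i, x i ∈ Z) {ν : K} (h0 : ν ≠ 0)
    (Q : List (MvPolynomial σ L)) (hu : ∃ q ∈ Q, eval c q ≠ 0) {Y : List K}
    (hY : Y = Q.map fun q => ν * aeval x q) : Cov P Z Y := by
  subst hY
  refine cov_of hZ h0 ?_ ?_ ?_
  · simpa [h0] using fun q _ => aeval_mem hx q
  · obtain ⟨q, h1, h2⟩ := hu
    exact ⟨_, List.mem_map_of_mem h1, by simpa [h0] using h.un q h2⟩
  · simpa [h0] using fun q _ => h.mem q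

theorem seg (hLOC : S_LOC L) {ι : Type} [Fintype ι] [DecidableEq ι] (Y : ι → List K)
    (h3 : 3 ≤ ∏ s, (Y s).length) (h0 : ∀ s, ∃ y ∈ Y s, y ≠ 0) {f g : K}
    (ht : IsTranscendenceBasis L ![f, g]) (W : Set K) (hW : IntermediateField.adjoin L W = ⊤)
    (hY : ∀ w ∈ W, ∃ s, ∃ y ∈ Y s, ∃ z ∈ Y s, z ≠ 0 ∧ w = y / z) (η : K) (hη : η ≠ 0)
    (hP : ∀ D E : Derivation L K K, jac D E f g = 1 → ∀ P : Loc L K, (∀ s, Domi P (Y s)) →
      Out P D E (fun Z => ∀ s, Cov P Z (Y s)) [η, f * η, g * η]) [CharZero L] : GenType L K := by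
  classical
  obtain ⟨D, hD, -⟩ := exists_basis_der _ ht
  have hc : Fintype.card ((s : ι) → Fin (Y s).length) = ∏ s, (Y s).length := by simp
  let e := Fintype.equivFinOfCardEq hc
  let z : Fin (∏ s, (Y s).length) → K := fun m => ∏ s, (Y s).get (e.symm m s)
  have hz : ∀ S, z (e S) = ∏ s, (Y s).get (S s) := fun S => by simp [z]
  have up : ∀ S s j, z (e S) ≠ 0 → z (e (Function.update S s j)) / z (e S) =
      (Y s).get j / (Y s).get (S s) := fun S s j hS => by
    rw [hz] at hS
    rw [hz, hz, ← Finset.prod_div_distrib, Finset.prod_eq_single s (fun t _ h => ?_) (by simp)]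
    · simp
    · rw [Function.update_of_ne h, div_self (Finset.prod_ne_zero_iff.1 hS t (Finset.mem_univ _))]
  choose S₀ hS₀ using fun s => show ∃ j, (Y s).get j ≠ 0 by
    obtain ⟨y, h1, h2⟩ := h0 s
    obtain ⟨j, rfl⟩ := List.get_of_mem h1
    exact ⟨j, h2⟩
  refine hLOC K 2 (∏ s, (Y s).length - 3) _ z (by omega) (fun h => ?_) ?_ ?_ D 1 η
    (fun j => ![f, g] j * η) one_pos hη ?_ ?_
  · exact Finset.prod_ne_zero_iff.2 (fun s _ => hS₀ s) ((hz S₀).symm.trans (congrFun h _))
  · refine top_le_iff.1 (hW ▸ IntermediateField.adjoin.mono _ _ _ fun w hw => ?_)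
    obtain ⟨s, y, h1, y', h2, h4, rfl⟩ := hY w hw
    obtain ⟨j, rfl⟩ := List.get_of_mem h1
    obtain ⟨i, rfl⟩ := List.get_of_mem h2
    refine ⟨e (Function.update (Function.update S₀ s i) s j), e (Function.update S₀ s i), ?_⟩
    rw [up, Function.update_self]
    rw [hz]
    refine Finset.prod_ne_zero_iff.2 fun t _ => ?_
    by_cases h : t = s
    · subst h; simpa using h4
    · simpa [Function.update_of_ne h] using hS₀ t
  · simpa using ht.lift_cardinalMk_eq_trdeg.symm
  · simpa only [mul_div_cancel_right₀ _ hη] using ht.1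
  intro P S S0 hS
  obtain ⟨S, rfl⟩ := e.surjective S
  have a0 : ∀ s, (Y s).get (S s) ≠ 0 := fun s =>
    Finset.prod_ne_zero_iff.1 (hz S ▸ S0) s (Finset.mem_univ _)
  have a1 : ∀ s, ∀ y ∈ Y s, y / (Y s).get (S s) ∈ P.O := fun s y hy => by
    obtain ⟨j, rfl⟩ := List.get_of_mem hy
    exact up S s j S0 ▸ hS _
  obtain ⟨p, hp, q, hq, h1, h2⟩ := hP (D 0) (D 1) (by
    have d1 := hD 0 0
    have d2 := hD 1 1
    have d3 := hD 0 1
    simp at d1 d2 d3
    simp [jac, d1, d2, d3]) P fun s => ⟨_, List.get_mem _ _, a0 s, a1 s⟩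
  refine ⟨![p, q], fun j => by fin_cases j <;> assumption, fun Z hZ hpq => ?_, fun y hy => ?_⟩
  · rintro _ ⟨T, rfl⟩
    obtain ⟨T, rfl⟩ := e.surjective T
    rw [hz, hz, ← Finset.prod_div_distrib]
    exact prod_mem fun s _ => h1 Z hZ (hpq 0) (hpq 1) s _ (List.get_mem _ _) (a0 s) (a1 s) _
      (List.get_mem _ _)
  · have e3 : (Matrix.of fun a b => D a (![p, q] b)).det = jac (D 0) (D 1) p q := by
      simp [Matrix.det_fin_two, jac]
    rw [e3, pow_one]
    refine h2 y ?_
    rcases hy with rfl | ⟨j, rfl⟩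
    · simp
    · fin_cases j <;> simp

end Pool.Agent.P.MP_50039c_nt.RS
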