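import Pool.Agent.P.MP_50039c_nt.LV.TEVEN

/-! The constant term of a factor of the sextic has even valuation. -/

set_option autoImplicit false

namespace Pool.Agent.P.MP_50039c_nt.RS

open Polynomial LV

universe u

variable {K Γ : Type*} [Field K] [LinearOrderedCommGroupWithZero Γ]

theorem root_val (v : Valuation K Γ) {A B T : K} (h : QQ A B 1 T = 0) :
    v T = v A ∨ v T = v B ∨ v T = v 1 := by
  by_contra hc
  push Not at hc
  obtain ⟨a0, a1⟩ := EVENx.key v hc.1
  obtain ⟨b0, b1⟩ := EVENx.key v hc.2.1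
  obtain ⟨c0, c1⟩ := EVENx.key v hc.2.2
  have h1 := v.map_one_add_of_lt (v.map_sub_lt (v.map_sub_lt c1 a1) b1)
  have h2 : 1 + (4 * T * 1 / (T + 1) ^ 2 - 4 * T * A / (T + A) ^ 2 - 4 * T * B / (T + B) ^ 2) = 0 := by
    unfold QQ at h
    field_simp
    linear_combination h
  rw [h2, map_zero] at h1
  exact zero_ne_one h1

theorem exists_ext (v : Valuation K Γ) (E : Type*) [Field E] [Algebra K E] :
    ∃ A : ValuationSubring E, v.IsEquiv (A.valuation.comap (algebraMap K E)) := by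
  obtain ⟨A, h1, h2⟩ := IsLocalRing.exists_factor_valuationRing
    ((algebraMap K E).comp v.valuationSubring.subtype)
  refine ⟨A, Valuation.isEquiv_iff_val_le_one.2 fun {x} =>
    ⟨fun h => (A.valuation_le_one_iff _).2 (h1 ⟨x, h⟩), fun h => not_lt.1 fun h3 => ?_⟩⟩
  have x0 : x ≠ 0 := fun e => by simp [e] at h3
  have h4 : v x⁻¹ ≤ 1 := by rw [map_inv₀]; exact inv_le_one_of_one_le₀ h3.le
  obtain ⟨y, hy⟩ := (h2.map_nonunit ⟨x⁻¹, h4⟩ (IsUnit.of_mul_eq_one
    ⟨algebraMap K E x, (A.valuation_le_one_iff _).1 h⟩ (Subtype.ext (by simp [x0])))).exists_right_inv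
  have h5 : x⁻¹ * y = 1 := congrArg Subtype.val hy
  have h6 : v y ≤ 1 := y.2
  rw [inv_mul_eq_one₀ x0] at h5
  exact h3.not_ge (h5 ▸ h6)

theorem even_const (v : Valuation K Γ) {a b m : K} {f : K[X]} (hf : f.Monic)
    (h : f ∣ QQ (C (a ^ 2)) (C (b ^ 2)) 1 X) (hm : f.coeff 0 = m ^ 2) :
    ∃ i j : ℕ, v m = v (a ^ i * b ^ j) := by
  let E := AlgebraicClosure K
  let φ := algebraMap K E
  obtain ⟨A, hA⟩ := exists_ext v E
  have key : ∀ s : Multiset E, (∀ T ∈ s, QQ (φ a ^ 2) (φ b ^ 2) 1 T = 0) →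
      ∃ i j : ℕ, A.valuation s.prod = A.valuation (φ a ^ i * φ b ^ j) ^ 2 := fun s => by
    induction s using Multiset.induction_on with
    | empty => exact fun _ => ⟨0, 0, by simp⟩
    | cons T s ih =>
      intro hs
      obtain ⟨i, j, e⟩ := ih fun T h => hs T (Multiset.mem_cons_of_mem h)
      rw [Multiset.prod_cons, map_mul, e]
      rcases root_val A.valuation (hs T (Multiset.mem_cons_self _ _)) with h | h | h
      · exact ⟨i + 1, j, by simp only [h, map_mul, pow_succ, pow_zero, one_mul]; ac_rfl⟩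
      · exact ⟨i, j + 1, by simp only [h, map_mul, pow_succ, pow_zero, one_mul]; ac_rfl⟩
      · exact ⟨i, j, by simp [h]⟩
  obtain ⟨i, j, e⟩ := key (f.map φ).roots fun T hT => by
    have := eval₂_eq_zero_of_dvd_of_eval₂_eq_zero φ T h
      (eval_map φ T ▸ (mem_roots (hf.map φ).ne_zero).1 hT)
    simpa [QQ, eval₂_pow] using this
  have h1 := congrArg A.valuation
    ((IsAlgClosed.splits (f.map φ)).coeff_zero_eq_prod_roots_of_monic (hf.map φ))
  rw [coeff_map, hm, map_mul, e, map_pow, map_pow, map_pow, Valuation.map_neg, map_one, one_pow,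
    one_mul] at h1
  exact ⟨i, j, hA.eq_iff.2 (by simpa using pow_left_injective two_ne_zero h1)⟩

end Pool.Agent.P.MP_50039c_nt.RS
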