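import Pool.Agent.P.MP_50039c_nt.RS.Glue
import Pool.Agent.P.MP_50039c_nt.RS.Even

/-! The families of genus at most one on which the sextic is reducible. -/

set_option autoImplicit false

namespace Pool.Agent.P.MP_50039c_nt.RS

open Polynomial Module Pool.Agent.P.MP_6f117a_ag PJ LV
open scoped IntermediateField

universe u

theorem map_sex {R S : Type*} [CommRing R] [CommRing S] (φ : R →+* S) (A B : R) :
    (QQ (C A) (C B) 1 X).map φ = QQ (C (φ A)) (C (φ B)) 1 X := by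
  simp [QQ]

theorem map_G0 {R S F : Type*} [CommRing R] [CommRing S] [FunLike F R S] [RingHomClass F R S]
    (φ : F) (a b c : R) : φ (G0 a b c) = G0 (φ a) (φ b) (φ c) := by
  simp [G0]

theorem sex_deg {K : Type*} [Field K] (A B D : K) :
    (QQ (C A) (C B) (C D) X).Monic ∧ (QQ (C A) (C B) (C D) X).natDegree = 6 := by
  have : (QQ (C A) (C B) (C D) X).natDegree ≤ 6 := by unfold QQ; compute_degree
  have h : (QQ (C A) (C B) (C D) X).coeff 6 = 1 := by unfold QQ; compute_degree!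
  exact ⟨monic_of_natDegree_le_of_coeff_eq_one 6 this h,
    natDegree_eq_of_le_of_coeff_ne_zero this (h ▸ one_ne_zero)⟩

theorem monic2 {R : Type*} [CommRing R] (e n : R) : (X ^ 2 - C e * X + C n).Monic := by
  nontriviality R
  monicity!

theorem monic3 {R : Type*} [CommRing R] (e f T : R) :
    (X ^ 3 + C e * X ^ 2 + C f * X + C T).Monic := by
  nontriviality R
  monicity!

theorem map2 {R S : Type*} [CommRing R] [CommRing S] (φ : R →+* S) (e n : R) :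
    (X ^ 2 - C e * X + C n).map φ = X ^ 2 - C (φ e) * X + C (φ n) := by
  simp

theorem map3 {R S : Type*} [CommRing R] [CommRing S] (φ : R →+* S) (e f T : R) :
    (X ^ 3 + C e * X ^ 2 + C f * X + C T).map φ =
      X ^ 3 + C (φ e) * X ^ 2 + C (φ f) * X + C (φ T) := by
  simp

theorem sex_scale {K : Type*} [Field K] {A B D : K} (h0 : D ≠ 0)
    (h : Irreducible (QQ (C (A / D)) (C (B / D)) 1 X)) : Irreducible (QQ (C A) (C B) (C D) X) := by
  have := invertibleOfNonzero h0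
  rw [← MulEquiv.irreducible_iff (algEquivCMulXAddC D 0)]
  convert (irreducible_isUnit_mul ((isUnit_C.2 h0.isUnit).pow 6)).2 h using 1
  have e : ∀ x, C x = C D * C (x / D) := fun x => by rw [← C_mul, mul_div_cancel₀ _ h0]
  conv_lhs => rw [e A, e B]
  simp [QQ, -map_div₀, map_ofNat]
  ring

theorem scale {L K : Type*} [Field L] [Field K] [Algebra L K] {e : ℕ} {G : MvPolynomial (Fin 3) L}
    (h : G.IsHomogeneous e) (t : K) (x : Fin 3 → K) :
    MvPolynomial.aeval (fun i => x i / t) G = MvPolynomial.aeval x G / t ^ e := by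
  rw [MvPolynomial.aeval_def, MvPolynomial.aeval_def, MvPolynomial.eval₂_eq',
    MvPolynomial.eval₂_eq', Finset.sum_div]
  refine Finset.sum_congr rfl fun m hm => ?_
  have h1 : Finsupp.weight (1 : Fin 3 → ℕ) m = e := h (MvPolynomial.mem_support_iff.1 hm)
  have h2 : Finsupp.weight (1 : Fin 3 → ℕ) m = m.degree := by
    rw [Finsupp.degree_eq_weight_one]; rfl
  rw [h2, Finsupp.degree_eq_sum] at h1
  simp only [div_pow, Finset.prod_div_distrib, Finset.prod_pow_eq_pow_sum, h1]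
  ring

variable (L : Type u) [Field L]

/-- Towers with an unramified square root. -/
def S_TW : Prop := ∀ (K : Type u) [Field K] [Algebra L K], Ratl L K ∨ Wei L K → ∀ T : K,
  (∀ (K' : Type u) [Field K'] [Algebra L K'] (φ : K →ₐ[L] K') (m : K'), m ^ 2 = φ T →
    ∀ P : Place L K', ∃ c, P.v m = P.v (φ c)) → ∀ N : ℕ,
  ∃ (K' : Type u) (_ : Field K') (_ : Algebra L K') (φ : K →ₐ[L] K') (m : K'), m ^ 2 = φ T ∧
    ∀ (n : ℕ) (ξ : Fin n → K'), (∀ i, ξ i = m ∨ ∃ c, ξ i = φ c) →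
      (∃ i, Transcendental L (ξ i)) → Big L N ξ

/-- One ternary form vanishes on all non-constant families with the property `p`. -/
def Fm (p : ∀ (K : Type u) [Field K], K → K → Prop) : Prop :=
  ∃ (g : MvPolynomial (Fin 3) L) (e : ℕ), g ≠ 0 ∧ g.IsHomogeneous e ∧
    ∀ (K : Type u) [Field K] [Algebra L K], Ratl L K ∨ Wei L K → ∀ a b : K, p K a b →
      G0 a b 1 ≠ 0 → Transcendental L a ∨ Transcendental L b → MvPolynomial.aeval ![a, b, 1] g = 0

variable {L} [IsAlgClosed L] (hLV : ∀ (K : Type u) [Field K] [Algebra L K] (n : ℕ)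
  (x : Fin (n + 1) → K), x ≠ 0 → rat L x = ⊤ → GenType L K → LV L x) (hD : S_DEGL L)
  (hT : S_TERN L) (hW : S_TW L)

include hLV hD hT

theorem fin_dvd {n : ℕ} {f : (MvPolynomial (Fin n) L)[X]} (hf : f.Monic) (i j : Fin n)
    (h : ∀ (K : Type u) [Field K] [Algebra L K] (x : Fin n → K),
      IntermediateField.adjoin L (Set.range x) = ⊤ →
        f.map (MvPolynomial.aeval x : _ →ₐ[L] K) ∣ QQ (C (x i ^ 2)) (C (x j ^ 2)) 1 X →
          G0 (x i) (x j) 1 ≠ 0 → Algebra.trdeg L K ≤ 1 ∨ Dom L K) :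
    ∃ (N e : ℕ) (g : MvPolynomial (Fin 3) L), g ≠ 0 ∧ g.IsHomogeneous e ∧
      ∀ (K K' : Type u) [Field K] [Algebra L K] [Field K'] [Algebra L K'] (φ : K →ₐ[L] K')
        (a b : K) (F : K[X]) (ξ : Fin n → K'), ξ i = φ a → ξ j = φ b →
        f.map (MvPolynomial.aeval ξ : _ →ₐ[L] K') = F.map (φ : K →+* K') →
        F ∣ QQ (C (a ^ 2)) (C (b ^ 2)) 1 X → G0 a b 1 ≠ 0 → Big L N ξ →
          MvPolynomial.aeval ![a, b, 1] g = 0 := by
  obtain ⟨N, e, g, g1, g2, g3⟩ := fin_abs hLV hD hT (Ideal.span (Set.range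
    (QQ (C (.X i ^ 2)) (C (.X j ^ 2)) 1 X %ₘ f).coeff)) (G0 (.X i) (.X j) 1) i j
    fun K _ _ x h1 h2 h3 => h K x h1 (by
      have := (span_le _ _ hf).1 h2
      rw [map_sex] at this
      simpa using this) (by simpa [map_G0] using h3)
  refine ⟨N, e, g, g1, g2, fun K K' _ _ _ _ φ a b F ξ e1 e2 e3 h1 h2 h3 => φ.injective ?_⟩
  have := g3 K' ξ ((span_le _ _ hf).2 (by
    have := Polynomial.map_dvd (φ : K →+* K') h1
    rw [map_sex, ← e3] at this
    rw [map_sex]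
    simpa [e1, e2] using this)) (by
      rw [map_G0, MvPolynomial.aeval_X, MvPolynomial.aeval_X, e1, e2, map_one, ← map_one φ,
        ← map_G0]
      simpa using h2) h3
  rw [map_zero, ← this]
  refine (MvPolynomial.comp_aeval_apply _ φ g).trans ?_
  congr 2
  funext k
  fin_cases k <;> simp [e1, e2]

include hW

theorem two_of (hV : S_GTV L) (hR : S_R24 L) : Fm L fun K _ a b =>
    ∃ e n : K, X ^ 2 - C e * X + C n ∣ QQ (C (a ^ 2)) (C (b ^ 2)) 1 X := by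
  obtain ⟨N, d, g, g1, g2, g3⟩ := fin_dvd hLV hD hT (n := 4) (monic2 (.X 2) (.X 3)) 0 1
    fun K _ _ x h1 h2 h3 => by
      rw [map2] at h2
      simp only [RingHom.coe_coe, MvPolynomial.aeval_X] at h2
      refine (hR K (x 0) (x 1) (x 2) (x 3) h2 h3 (top_le_iff.1 (h1.ge.trans
        (IntermediateField.adjoin.mono _ _ _ ?_)))).imp_right
          fun ⟨t, g, u, r, h4, h5, h6⟩ => domV hV h4 h5 h6
      rintro _ ⟨i, rfl⟩
      fin_cases i <;> simp
  refine ⟨g, d, g1, g2, fun K _ _ hK a b ⟨e, n, h1⟩ h2 h3 => ?_⟩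
  obtain ⟨K', _, _, φ, m, -, h4⟩ := hW K hK 0
    (fun K' _ _ φ m h P => ⟨0, by rw [map_zero, pow_eq_zero_iff two_ne_zero] at h; simp [h]⟩) N
  refine g3 K K' φ a b _ ![φ a, φ b, φ e, φ n] rfl rfl (by simp) h1 h2
    (h4 _ _ (fun i => .inr ?_) ?_)
  · fin_cases i <;> exact ⟨_, rfl⟩
  · exact h3.elim (fun h => ⟨0, mt (isAlgebraic_algHom_iff φ φ.injective).1 h⟩)
      fun h => ⟨1, mt (isAlgebraic_algHom_iff φ φ.injective).1 h⟩

theorem three_of (h8 : S_GT8 L) (hR : S_R33 L) : Fm L fun K _ a b => ∃ e f T : K,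
    X ^ 3 + C e * X ^ 2 + C f * X + C T ∣ QQ (C (a ^ 2)) (C (b ^ 2)) 1 X := by
  have H := fin_dvd hLV hD hT (n := 5) (monic3 (R := MvPolynomial (Fin 5) L) (.X 2) (.X 3)
    (.X 4 ^ 2)) 0 1 fun K _ _ x h1 h2 h3 => by
      rw [map3] at h2
      simp only [RingHom.coe_coe, map_pow (MvPolynomial.aeval x), MvPolynomial.aeval_X] at h2
      refine (hR K (x 0) (x 1) (x 2) (x 3) (x 4) h2 h3 (top_le_iff.1 (h1.ge.trans
        (IntermediateField.adjoin.mono _ _ _ ?_)))).imp_right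
          fun ⟨x, y, w, h4, h5⟩ => dom8 h8 h4 h5
      rintro _ ⟨i, rfl⟩
      fin_cases i <;> simp
  obtain ⟨N, d, g, g1, g2, g3⟩ := H
  refine ⟨g, d, g1, g2, fun K _ _ hK a b ⟨e, f, T, h1⟩ h2 h3 => ?_⟩
  have H := hW K hK T (fun K' _ _ φ m h P => by
    have := Polynomial.map_dvd (φ : K →+* K') h1
    rw [map_sex, map3] at this
    simp only [RingHom.coe_coe, map_pow φ] at this
    obtain ⟨i, j, h5⟩ := even_const P.v (a := φ a) (b := φ b) (m := m) (monic3 _ _ _) this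
      (by simp [h])
    exact ⟨a ^ i * b ^ j, by simpa using h5⟩) N
  obtain ⟨K', _, _, φ, m, hm, h4⟩ := H
  refine g3 K K' φ a b _ ![φ a, φ b, φ e, φ f, m] rfl rfl ?_ h1 h2 (h4 _ _ (fun i => ?_) ?_)
  · rw [map3, map3]
    simp [hm]
  · fin_cases i
    exacts [.inr ⟨_, rfl⟩, .inr ⟨_, rfl⟩, .inr ⟨_, rfl⟩, .inr ⟨_, rfl⟩, .inl rfl]
  · exact h3.elim (fun h => ⟨0, mt (isAlgebraic_algHom_iff φ φ.injective).1 h⟩)
      fun h => ⟨1, mt (isAlgebraic_algHom_iff φ φ.injective).1 h⟩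

omit hLV hD hT hW in
theorem all_of [CharZero L]
    (h1 : Fm L fun K _ a b => ∃ T : K, QQ (a ^ 2) (b ^ 2) 1 T = 0)
    (h2 : Fm L fun K _ a b => ∃ e n : K, X ^ 2 - C e * X + C n ∣ QQ (C (a ^ 2)) (C (b ^ 2)) 1 X)
    (h3 : Fm L fun K _ a b => ∃ e f T : K,
      X ^ 3 + C e * X ^ 2 + C f * X + C T ∣ QQ (C (a ^ 2)) (C (b ^ 2)) 1 X) :
    ∃ (G : MvPolynomial (Fin 3) L) (e : ℕ), G ≠ 0 ∧ G.IsHomogeneous e ∧
      ∀ (K : Type u) [Field K] [Algebra L K], Ratl L K ∨ Wei L K → ∀ y : Fin 3 → K,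
        (G0 (y 0) (y 1) (y 2) ≠ 0 →
          ¬ Irreducible (QQ (C (y 0 ^ 2)) (C (y 1 ^ 2)) (C (y 2 ^ 2)) X)) →
          (∃ (l : Fin 3 → L) (g : K), ∀ i, y i = l i • g) ∨ MvPolynomial.aeval y G = 0 := by
  obtain ⟨g1, e1, a1, b1, c1⟩ := h1
  obtain ⟨g2, e2, a2, b2, c2⟩ := h2
  obtain ⟨g3, e3, a3, b3, c3⟩ := h3
  have hx := fun i : Fin 3 => MvPolynomial.isHomogeneous_X L i
  have hp := fun (i : Fin 3) n => MvPolynomial.isHomogeneous_X_pow (R := L) i n
  obtain ⟨e0, b0⟩ : ∃ e, (G0 (.X 0) (.X 1) (.X 2) : MvPolynomial (Fin 3) L).IsHomogeneous e :=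
    ⟨_, ((((((((((hx 0).mul (hx 1)).mul (hx 2)).mul ((hp 0 2).sub (hp 1 2))).mul
      ((hp 0 2).add (hp 1 2))).mul ((hp 0 2).sub (hp 2 2))).mul ((hp 1 2).sub (hp 2 2))).mul
      ((hp 0 2).add (hp 2 2))).mul ((hp 1 2).add (hp 2 2))).mul
      ((hp 0 4).sub ((hp 1 2).mul (hp 2 2)))).mul ((hp 1 4).sub ((hp 0 2).mul (hp 2 2)))⟩
  have a0 : (G0 (.X 0) (.X 1) (.X 2) : MvPolynomial (Fin 3) L) ≠ 0 := fun h => by
    have := congrArg (MvPolynomial.eval ![2, 3, 5]) h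
    simp [G0] at this
    norm_num at this
  have b4 := (b1.mul b2).mul b3
  refine ⟨_, _, mul_ne_zero a0 (mul_ne_zero (mul_ne_zero a1 a2) a3), b0.mul b4,
    fun K _ _ hK y hy => or_iff_not_imp_left.2 fun hc => ?_⟩
  rw [map_mul, mul_eq_zero, or_iff_not_imp_left]
  intro h0
  have y0 : y 2 ≠ 0 := fun e => h0 (by simp [G0, e])
  have ey : (fun i => y i / y 2) = ![y 0 / y 2, y 1 / y 2, 1] := by
    funext i
    fin_cases i <;> simp [y0]
  have h4 := scale b0 (y 2) y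
  have h5 := scale b4 (y 2) y
  rw [ey] at h4 h5
  have h6 : G0 (y 0 / y 2) (y 1 / y 2) 1 ≠ 0 := by
    simpa [map_G0] using h4.trans_ne (div_ne_zero h0 (pow_ne_zero _ y0))
  have h7 : Transcendental L (y 0 / y 2) ∨ Transcendental L (y 1 / y 2) := by
    rcases const_or_trans (L := L) (y 0 / y 2) with ⟨l, hl⟩ | h
    · refine .inr ((const_or_trans _).resolve_left fun ⟨m, hm⟩ => hc ⟨![l, m, 1], y 2, fun i => ?_⟩)
      fin_cases i <;> simp [Algebra.smul_def, hl, hm, y0]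
    · exact .inl h
  have h8 := mt (sex_scale (pow_ne_zero 2 y0)) (hy (by simpa [map_G0] using h0))
  rw [← div_pow, ← div_pow] at h8
  generalize y 0 / y 2 = a, y 1 / y 2 = b at h5 h6 h7 h8
  obtain ⟨m1, m2⟩ := sex_deg (a ^ 2) (b ^ 2) 1
  rw [C_1] at m1 m2
  rw [m1.irreducible_iff_lt_natDegree_lt (fun e => by rw [e] at m2; simp at m2), m2] at h8
  push Not at h8
  obtain ⟨f, f1, f2, f3⟩ := h8
  rw [← div_eq_zero_iff.trans (or_iff_left (pow_ne_zero _ y0)), ← h5, map_mul, map_mul]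
  have f4 := f1.as_sum
  obtain f2 | f2 | f2 : f.natDegree = 1 ∨ f.natDegree = 2 ∨ f.natDegree = 3 := by
    rw [Finset.mem_Ioc] at f2
    omega
  · rw [c1 K hK a b ⟨-f.coeff 0, ?_⟩ h6 h7, zero_mul, zero_mul]
    have := eval_eq_zero_of_dvd_of_eval_eq_zero f3 (x := -f.coeff 0) (by
      rw [f4]
      simp [f2])
    simpa [QQ] using this
  · rw [c2 K hK a b ⟨-f.coeff 1, f.coeff 0, ?_⟩ h6 h7, mul_zero, zero_mul]
    convert f3 using 1
    conv_rhs => rw [f4]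
    simp [f2, Finset.sum_range_succ]
    ring
  · rw [c3 K hK a b ⟨f.coeff 2, f.coeff 1, f.coeff 0, ?_⟩ h6 h7, mul_zero]
    convert f3 using 1
    conv_rhs => rw [f4]
    simp [f2, Finset.sum_range_succ]
    ring

end Pool.Agent.P.MP_50039c_nt.RS
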