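import Pool.Agent.P.MP_50039c_nt.LV.Base

/-! From the sextic to the polynomial of degree twelve, over fields of level greater than two. -/

set_option autoImplicit false

namespace Pool.Agent.P.MP_50039c_nt.RS

open Polynomial LV

variable {F : Type*} [Field F]

theorem even_odd (g : F[X]) : ∃ g₀ g₁ : F[X], g = expand F 2 g₀ + X * expand F 2 g₁ := by
  induction g using Polynomial.recOnHorner with
  | M0 => exact ⟨0, 0, by simp⟩
  | MC p a _ _ ih =>
    obtain ⟨g₀, g₁, rfl⟩ := ih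
    exact ⟨g₀ + C a, g₁, by simp only [map_add, expand_C]; ring⟩
  | MX p _ ih =>
    obtain ⟨g₀, g₁, rfl⟩ := ih
    exact ⟨X * g₁, g₀, by simp only [map_mul, expand_X]; ring⟩

theorem irr_expand (hF : ∀ x y : F, x ^ 2 + y ^ 2 ≠ -1) {Q : F[X]} (hQ : Irreducible Q)
    {c w z : F} (w0 : w ≠ 0) (z0 : z ≠ 0) (hw : Q.eval (-c ^ 2) = -w ^ 2) (hz : Q.eval 0 = z ^ 2) :
    Irreducible (expand F 2 Q) := by
  have P0 : expand F 2 Q ≠ 0 := (expand_ne_zero two_pos).2 hQ.ne_zero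
  have key : ∀ g : F[X], g ∣ expand F 2 Q → g.natDegree ≤ Q.natDegree → IsUnit g := by
    intro g hg hd
    by_contra hu
    have g0 : g ≠ 0 := ne_zero_of_dvd_ne_zero P0 hg
    obtain ⟨g₀, g₁, e⟩ := even_odd g
    have e' : g.comp (-X) = expand F 2 g₀ - X * expand F 2 g₁ := by
      rw [e]
      simp [expand_eq_comp_X_pow, comp_assoc, sub_eq_add_neg]
    have eh : expand F 2 (g₀ ^ 2 - X * g₁ ^ 2) = g * g.comp (-X) := by
      rw [e']
      nth_rewrite 1 [e]
      simp only [map_sub, map_mul, map_pow, expand_X]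
      ring
    have c0 : g.comp (-X) ≠ 0 := by simpa using g0
    have h0 : g₀ ^ 2 - X * g₁ ^ 2 ≠ 0 := fun h => mul_ne_zero g0 c0 (by rw [← eh, h, map_zero])
    obtain ⟨k, hk⟩ : Q ∣ g₀ ^ 2 - X * g₁ ^ 2 := by_contra fun h => hu
      ((eh ▸ (hQ.coprime_iff_not_dvd.2 h).map (expand F 2 : F[X] →+* F[X]) :
        IsCoprime (expand F 2 Q) (g * g.comp (-X))).of_mul_right_left.symm.isUnit_of_dvd hg)
    have k0 : k ≠ 0 := fun h => h0 (by rw [hk, h, mul_zero])
    have d := congrArg natDegree eh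
    rw [natDegree_expand, natDegree_mul g0 c0, natDegree_comp, natDegree_neg, natDegree_X, hk,
      natDegree_mul hQ.ne_zero k0] at d
    obtain ⟨κ, rfl⟩ := natDegree_eq_zero.1 (show k.natDegree = 0 by omega)
    have κ0 : κ ≠ 0 := C_ne_zero.1 k0
    have e1 := congrArg (eval 0) hk
    have e2 := congrArg (eval (-c ^ 2)) hk
    simp only [eval_sub, eval_mul, eval_pow, eval_X, eval_C, hw, hz] at e1 e2
    have x0 : g₀.eval 0 ≠ 0 := fun h => mul_ne_zero (pow_ne_zero 2 z0) κ0 (by rw [← e1, h]; ring)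
    refine hF (z * g₀.eval (-c ^ 2) / (w * g₀.eval 0)) (z * c * g₁.eval (-c ^ 2) / (w * g₀.eval 0)) ?_
    field_simp
    linear_combination z ^ 2 * e2 + w ^ 2 * e1
  refine ⟨fun h => hQ.not_isUnit ?_, fun g k e => ?_⟩
  · have h1 := natDegree_eq_zero_of_isUnit h
    rw [natDegree_expand] at h1
    exact isUnit_iff_degree_eq_zero.2
      (by rw [degree_eq_natDegree hQ.ne_zero, show Q.natDegree = 0 by omega]; rfl)
  · have d := congrArg natDegree e
    rw [natDegree_expand, natDegree_mul (left_ne_zero_of_mul (e ▸ P0))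
      (right_ne_zero_of_mul (e ▸ P0))] at d
    exact (le_total g.natDegree k.natDegree).imp (fun h => key g ⟨k, e⟩ (by omega))
      fun h => key k ⟨g, e.trans (mul_comm _ _)⟩ (by omega)

/-- If `-1` is not a sum of two squares, the polynomial of degree twelve is irreducible as soon as
the sextic is. -/
theorem irr_twelve (hF : ∀ x y : F, x ^ 2 + y ^ 2 ≠ -1) {a b c : F}
    (h0 : a * b * c * (a ^ 2 - c ^ 2) * (b ^ 2 - c ^ 2) ≠ 0)
    (hQ : Irreducible (QQ (C (a ^ 2)) (C (b ^ 2)) (C (c ^ 2)) X)) :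
    Irreducible (QQ (C (a ^ 2)) (C (b ^ 2)) (C (c ^ 2)) (X ^ 2)) := by
  have two : (2 : F) ≠ 0 := fun h => hF 1 0 (by linear_combination h)
  simp only [mul_ne_zero_iff] at h0
  obtain ⟨⟨⟨⟨a0, b0⟩, c0⟩, a1⟩, b1⟩ := h0
  have h := irr_expand hF hQ (c := c) (w := 2 * c ^ 2 * (a ^ 2 - c ^ 2) * (b ^ 2 - c ^ 2))
    (z := a ^ 2 * b ^ 2 * c ^ 2) (by simp [two, c0, a1, b1]) (by simp [a0, b0, c0])
    (by simp [QQ]; ring) (by simp [QQ]; ring)
  simpa [QQ, map_ofNat] using h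

end Pool.Agent.P.MP_50039c_nt.RS
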