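import Pool.Agent.P.MP_50039c_nt.LV.All
import Pool.Agent.P.MP_50039c_nt.RS.Main
import Pool.Agent.P.MP_50039c_nt.RS.Real

/-! The assembly, given the four geometric steps. -/

set_option autoImplicit false

namespace Pool.Agent.P.MP_50039c_nt.RS

open Polynomial Pool.Agent.P.MP_6f117a_ag PJ LV
open scoped IntermediateField

universe u

variable {L : Type u} [Field L] [IsAlgClosed L] [CharZero L]

theorem one_of : Fm L fun K _ a b => ∃ T : K, QQ (a ^ 2) (b ^ 2) 1 T = 0 := by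
  obtain ⟨G, e, h1, h2, h3⟩ := main_of L (all_DEG L) (p_G1 L) (p_RAT L) (p_WEI L (p_RAT L))
    (p_FFW L) (p_FFX L) (p_TOW L (p_FFW L) (p_STEPR L) (p_STEPW L)) (p_UNR0 L) (p_UNR L)
    (p_TERN L) (p_DEGL L) (p_EVEN L)
  exact ⟨G, e, h1, h2, fun K _ _ hK a b ⟨T, hT⟩ _ h => h3 K hK ![a, b, 1] T (by simpa using hT)
    (h.elim (fun h => ⟨2, 0, by simp, by simpa using h⟩) fun h => ⟨2, 1, by simp, by simpa using h⟩)⟩

theorem all_tw : S_TW L := fun K _ _ hK => tower (p_G1 L) (p_RAT L) (p_WEI L (p_RAT L)) (p_FFW L)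
  (p_FFX L) (p_TOW L (p_FFW L) (p_STEPR L) (p_STEPW L)) (p_UNR0 L) (p_UNR L) hK

variable (h8 : S_GT8 L) (hV : S_GTV L) (h2 : S_R24 L) (h3 : S_R33 L)

include h8 hV h2 h3

theorem fin_of : ∃ (G : MvPolynomial (Fin 3) L) (e : ℕ), G ≠ 0 ∧ G.IsHomogeneous e ∧
    ∀ (K : Type u) [Field K] [Algebra L K] (s w : K) (A B : L), Transcendental L s →
      w ^ 2 = s ^ 3 + algebraMap L K A * s + algebraMap L K B → L⟮s, w⟯ = ⊤ → ∀ a b c : K,
        (G0 a b c ≠ 0 → ¬ Irreducible (QQ (C (a ^ 2)) (C (b ^ 2)) (C (c ^ 2)) X)) →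
          (∃ (l m n : L) (g : K), a = l • g ∧ b = m • g ∧ c = n • g) ∨
            MvPolynomial.aeval ![a, b, c] G = 0 := by
  obtain ⟨G, e, g1, g2, g3⟩ := all_of one_of
    (two_of (lv_all L) (p_DEGL L) (p_TERN L) all_tw hV h2)
    (three_of (lv_all L) (p_DEGL L) (p_TERN L) all_tw h8 h3)
  exact ⟨G, e, g1, g2, fun K _ _ s w A B hs hw ht a b c h =>
    (g3 K (p_NORM L K s w A B hs hw ht) ![a, b, c] h).imp_left
      fun ⟨l, g, h⟩ => ⟨l 0, l 1, l 2, g, h 0, h 1, h 2⟩⟩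

theorem fin_twelve : ∃ (G : MvPolynomial (Fin 3) L) (e : ℕ), G ≠ 0 ∧ G.IsHomogeneous e ∧
    ∀ (K : Type u) [Field K] [Algebra L K] (s w : K) (A B : L), Transcendental L s →
      w ^ 2 = s ^ 3 + algebraMap L K A * s + algebraMap L K B → L⟮s, w⟯ = ⊤ →
        ∀ (F : Type u) [Field F] (φ : F →+* K), (∀ x y : F, x ^ 2 + y ^ 2 ≠ -1) → ∀ a b c : F,
          ¬ Irreducible (QQ (C (a ^ 2)) (C (b ^ 2)) (C (c ^ 2)) (X ^ 2)) →
            (∃ (l m n : L) (g : K), φ a = l • g ∧ φ b = m • g ∧ φ c = n • g) ∨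
              MvPolynomial.aeval ![φ a, φ b, φ c] G = 0 := by
  obtain ⟨G, e, g1, g2, g3⟩ := fin_of h8 hV h2 h3
  refine ⟨G, e, g1, g2, fun K _ _ s w A B hs hw ht F _ φ hF a b c h =>
    g3 K s w A B hs hw ht _ _ _ fun h0 h1 => h (irr_twelve hF (fun h4 => h0 ?_)
      ((sex_deg _ _ _).1.irreducible_of_irreducible_map φ _ ?_))⟩
  · rw [← map_G0, map_eq_zero, G0]
    linear_combination (a ^ 2 - b ^ 2) * (a ^ 2 + b ^ 2) * (a ^ 2 + c ^ 2) * (b ^ 2 + c ^ 2) *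
      (a ^ 4 - b ^ 2 * c ^ 2) * (b ^ 4 - a ^ 2 * c ^ 2) * h4
  · convert h1 using 1
    simp [QQ]

end Pool.Agent.P.MP_50039c_nt.RS
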