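import Pool.Agent.P.MP_50039c_nt.RS.Riem
import Pool.Agent.P.MP_50039c_nt.LV.TNORM

/-! Function fields of genus at most one are rational or elliptic. -/

set_option autoImplicit false

namespace Pool.Agent.P.MP_50039c_nt.RS

open WithZero Module Pool.Agent.P.MP_6f117a_ag LV
open scoped IntermediateField

universe u

variable {L K : Type u} [Field L] [Field K] [Algebra L K] [IsAlgClosed L] [CharZero L] [FF L K]

omit [IsAlgClosed L] [CharZero L] [FF L K] in
theorem le_pred {g : ℤᵐ⁰} {k : ℤ} (h : g < exp (k + 1)) : g ≤ exp k := by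
  rcases eq_or_ne g 0 with rfl | h0
  · exact zero_le
  rw [← exp_log h0, exp_lt_exp] at h
  rw [← exp_log h0, exp_le_exp]
  omega

theorem one_pole (P : Place L K) {x : K} {k : ℕ} (k0 : 0 < k) (h1 : P.v x = exp (k : ℤ))
    (h2 : ∀ Q : Place L K, Q ≠ P → Q.v x ≤ 1) : Transcendental L x ∧ finrank L⟮x⟯ K = k := by
  have h3 : 1 < P.v x := by rw [h1, ← exp_zero, exp_lt_exp]; omega
  have ht := P.trans (fun e => by simp [e] at h3) h3.ne'
  obtain ⟨Y, y1, y2⟩ := exists_poles ht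
  rw [show Y = {P} from Finset.ext fun Q => (y1 Q).trans (Iff.trans ⟨fun h => by_contra fun e =>
    (h2 Q e).not_gt h, fun e => e ▸ h3⟩ Finset.mem_singleton.symm), Finset.sum_singleton, h1,
    log_exp] at y2
  exact ⟨ht, by omega⟩

theorem reduce (P : Place L K) {z w : K} {k : ℤ} (h1 : P.v w = exp (k + 1)) (h2 : P.v z ≤ exp (k + 1)) :
    ∃ c : L, P.v (z - algebraMap L K c * w) ≤ exp k := by
  have w0 : w ≠ 0 := fun e => exp_ne_zero (h1.symm.trans (by rw [e, map_zero]))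
  obtain ⟨c, hc⟩ := P.res (x := z / w) (by rw [map_div₀, h1, div_le_one₀ exp_pos]; exact h2)
  refine ⟨c, le_pred ?_⟩
  rw [show z - algebraMap L K c * w = (z / w - algebraMap L K c) * w by field_simp, map_mul, h1]
  exact mul_lt_of_lt_one_left exp_pos hc

theorem low_genus {t : K} (ht : Transcendental L t) (hg : genus L K ≤ 1) : Ratl L K ∨ Wei L K := by
  obtain ⟨P, hP⟩ := riem ht
  by_cases h : ∃ x, P.v x = exp ((1 : ℕ) : ℤ) ∧ ∀ Q : Place L K, Q ≠ P → Q.v x ≤ 1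
  · obtain ⟨x, h1, h2⟩ := h
    obtain ⟨h3, h4⟩ := one_pole P one_pos h1 h2
    exact .inl ⟨x, h3, IntermediateField.finrank_eq_one_iff_eq_top.1 h4⟩
  have con : ∀ x, P.v x ≤ exp 1 → (∀ Q : Place L K, Q ≠ P → Q.v x ≤ 1) →
      ∃ c, algebraMap L K c = x := fun x h1 h2 => (const_or_trans x).resolve_right fun h3 => by
    obtain ⟨Q, hQ⟩ := exists_pole h3
    obtain rfl : Q = P := by_contra fun e => (h2 Q e).not_gt hQ
    exact (le_pred (k := 0) (lt_of_le_of_ne h1 fun e => h ⟨x, e, h2⟩)).not_gt hQ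
  have ex : ∀ k : ℕ, ∃ x, P.v x = exp ((k + 2 : ℕ) : ℤ) ∧ ∀ Q : Place L K, Q ≠ P → Q.v x ≤ 1 := fun k => by
    obtain ⟨V, _, v1, v2, v3⟩ := hP (k + 2)
    by_contra hc
    have h1 := step_nat P 1 k V fun x hx => le_pred (lt_of_le_of_ne (by
      simpa [add_comm, add_left_comm, add_assoc, one_add_one_eq_two] using (show P.v x ≤ _ from v1 hx))
      fun e => hc ⟨x, e.trans (by congr 1; push_cast; ring), fun Q hQ => v2 Q hQ hx⟩)
    have h2 : finrank L (V ⊓ P.le 1 : Submodule L K) ≤ 1 :=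
      (Submodule.finrank_mono (t := Submodule.span L {(1 : K)}) fun x hx => by
        obtain ⟨c, rfl⟩ := con x hx.2 fun Q hQ => v2 Q hQ hx.1
        exact Submodule.mem_span_singleton.2 ⟨c, by rw [Algebra.smul_def, mul_one]⟩).trans
        (finrank_span_singleton one_ne_zero).le
    omega
  obtain ⟨x, x1, x2⟩ := ex 0
  obtain ⟨y, y1, y2⟩ := ex 1
  obtain ⟨x3, x4⟩ := one_pole P (by omega) x1 x2
  obtain ⟨y3, y4⟩ := one_pole P (by omega) y1 y2
  have := FF.fin x x3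
  have := FF.fin y y3
  have top : L⟮x, y⟯ = ⊤ := IntermediateField.finrank_eq_one_iff_eq_top.1 (by
    have h1 := x4 ▸ IntermediateField.finrank_dvd_of_le_left (F := L⟮x⟯) (E := L⟮x, y⟯)
      (IntermediateField.adjoin.mono _ _ _ (by simp))
    have h2 := y4 ▸ IntermediateField.finrank_dvd_of_le_left (F := L⟮y⟯) (E := L⟮x, y⟯)
      (IntermediateField.adjoin.mono _ _ _ (by simp))
    exact Nat.eq_one_of_dvd_coprimes (by norm_num) h1 h2)
  have y6 : P.v (y ^ 2) = exp (5 + 1) := by rw [map_pow, y1, ← exp_nsmul]; rfl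
  obtain ⟨c₆, e6⟩ := reduce P (w := x ^ 3) (k := 5) (by rw [map_pow, x1, ← exp_nsmul]; rfl) y6.le
  obtain ⟨c₅, e5⟩ := reduce P (w := x * y) (k := 4) (by rw [map_mul, x1, y1, ← exp_add]; rfl) e6
  obtain ⟨c₄, e4⟩ := reduce P (w := x ^ 2) (k := 3) (by rw [map_pow, x1, ← exp_nsmul]; rfl) e5
  obtain ⟨c₃, e3⟩ := reduce P (w := y) (k := 2) y1 e4
  obtain ⟨c₂, e2⟩ := reduce P (w := x) (k := 1) x1 e3
  have c0 : c₆ ≠ 0 := fun e => by
    rw [e, map_zero, zero_mul, sub_zero, y6, exp_le_exp] at e6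
    omega
  obtain ⟨c₀, e0⟩ := con _ e2 fun Q hQ => by
    have s : ∀ {z w : K} (c : L), Q.v z ≤ 1 → Q.v w ≤ 1 → Q.v (z - algebraMap L K c * w) ≤ 1 :=
      fun c h1 h2 => Q.v.map_sub_le h1 (by rw [map_mul]; exact mul_le_one' (Q.triv c) h2)
    have a := x2 Q hQ
    have b := y2 Q hQ
    exact s _ (s _ (s _ (s _ (s _ (by rw [map_pow]; exact pow_le_one' b _)
      (by rw [map_pow]; exact pow_le_one' a _)) (by rw [map_mul]; exact mul_le_one' a b))
      (by rw [map_pow]; exact pow_le_one' a _)) b) a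
  have : CharZero K := charZero_of_injective_algebraMap (algebraMap L K).injective
  have c1 : algebraMap L K c₆ ≠ 0 := (map_ne_zero _).2 c0
  obtain ⟨s, hs⟩ : ∃ s, s = algebraMap L K c₆ * x + algebraMap L K ((c₄ + c₅ ^ 2 / 4) / 3) := ⟨_, rfl⟩
  obtain ⟨w, hw⟩ : ∃ w, w = algebraMap L K c₆ * (y - (algebraMap L K (c₅ / 2) * x +
    algebraMap L K (c₃ / 2))) := ⟨_, rfl⟩
  have mx : ∀ F : IntermediateField L K, s ∈ F → x ∈ F := fun F h => by
    rw [show x = (s - algebraMap L K ((c₄ + c₅ ^ 2 / 4) / 3)) / algebraMap L K c₆ by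
      rw [hs]; field_simp; ring]
    exact div_mem (sub_mem h (F.algebraMap_mem _)) (F.algebraMap_mem _)
  have m1 : s ∈ L⟮s, w⟯ := IntermediateField.subset_adjoin _ _ (by simp)
  have m2 : w ∈ L⟮s, w⟯ := IntermediateField.subset_adjoin _ _ (by simp)
  refine p_NORM L K s w ((c₂ + c₅ * c₃ / 2) * c₆ - (c₄ + c₅ ^ 2 / 4) ^ 2 / 3)
    ((c₀ + c₃ ^ 2 / 4) * c₆ ^ 2 - (c₂ + c₅ * c₃ / 2) * c₆ * (c₄ + c₅ ^ 2 / 4) / 3 +
      2 * (c₄ + c₅ ^ 2 / 4) ^ 3 / 27)
    (NORMx.trans x3 (mx _ (IntermediateField.mem_adjoin_simple_self L s))) ?_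
    (NORMx.top top _ (mx _ m1) ?_)
  · rw [hs, hw]
    simp only [map_add, map_sub, map_mul, map_div₀, map_pow, map_ofNat, e0]
    ring
  · rw [show y = w / algebraMap L K c₆ + (algebraMap L K (c₅ / 2) * x + algebraMap L K (c₃ / 2)) by
      rw [hw]; field_simp; ring]
    exact add_mem (div_mem m2 (IntermediateField.algebraMap_mem _ _)) (add_mem
      (mul_mem (IntermediateField.algebraMap_mem _ _) (mx _ m1)) (IntermediateField.algebraMap_mem _ _))

end Pool.Agent.P.MP_50039c_nt.RS
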