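import Pool.Agent.P.MP_50039c_nt.LV.TUNR0
import Pool.Agent.P.MP_50039c_nt.LV.TFFX

/-! The genus of an unramified quadratic extension. -/

set_option autoImplicit false

namespace Pool.Agent.P.MP_50039c_nt.RS

open Module WithZero Pool.Agent.P.MP_6f117a_ag LV
open scoped IntermediateField

universe u

variable {L K K' : Type u} [Field L] [Field K] [Algebra L K] [Field K'] [Algebra L K']
  [Algebra K K'] [IsScalarTower L K K'] [IsAlgClosed L] [CharZero L]

theorem genus_le [FF L K] {δ : Derivation L K K} (h : δ ≠ 0) (Z : Finset (Place L K))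
    (hZ : ∀ P, P.κ δ ≠ 0 → P ∈ Z) : genus L K = 0 ∨ (genus L K : ℤ) ≤ ∑ P ∈ Z, P.κ δ + 1 := by
  classical
  rw [genus_eq h]
  by_cases h0 : can δ = ⊥
  · exact .inl (by rw [h0, finrank_bot])
  obtain ⟨x, hx, x0⟩ := (Submodule.ne_bot_iff _).1 h0
  obtain ⟨t, ht, -⟩ := exists_trans h
  obtain ⟨P, -⟩ := exists_pole ht
  have := fd_can h
  have v0 : ∀ Q : Place L K, Q.v x ≠ 0 := fun Q => by simpa using x0
  let Y := insert P (Z ∪ (finite_supp (L := L) x0).toFinset)
  obtain ⟨W, h1, h2, h3⟩ := step_many Y (fun Q => log (Q.v x) - if Q = P then 1 else 0)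
    (fun Q => Q.κ δ) (can δ) (fun Q _ => by
      have := (log_le_iff_le_exp (v0 Q)).2 (mem_can.1 hx Q)
      split_ifs <;> omega) fun Q _ y hy => mem_can.1 hy Q
  have hW : W = ⊥ := (Submodule.eq_bot_iff _).2 fun y hy => by
    refine (div_eq_zero_iff.1 (eq_zero_of_lt (L := L) (x := y / x) (fun Q => ?_) P ?_)).resolve_right x0
    · rw [map_div₀, div_le_one₀ (zero_lt_iff.2 (v0 Q))]
      by_cases e : Q ∈ Y
      · refine le_trans (h2 Q e hy) ?_
        rw [← exp_log (v0 Q), log_exp, exp_le_exp]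
        split_ifs <;> omega
      · have e1 : Q.κ δ = 0 := by_contra fun h => e (by simp [Y, hZ Q h])
        have e2 : Q.v x = 1 := by_contra fun h => e (by simp [Y, h])
        simpa [e1, e2] using mem_can.1 (h1 hy) Q
    · rw [map_div₀, div_lt_one₀ (zero_lt_iff.2 (v0 P))]
      refine lt_of_le_of_lt (h2 P (by simp [Y]) hy) ?_
      rw [← exp_log (v0 P), log_exp, exp_lt_exp]
      simp
  subst hW
  rw [finrank_bot, Finset.sum_sub_distrib, Finset.sum_sub_distrib,
    prod_formula x0 Y (by simp +contextual [Y]), Finset.sum_ite_eq' Y P, if_pos (by simp [Y]),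
    ← Finset.sum_subset (s₁ := Z) (fun Q hQ => by simp [Y, hQ])
      fun Q _ hQ => not_not.1 (mt (hZ Q) hQ)] at h3
  exact .inr (by simpa using h3)

omit [IsAlgClosed L] [CharZero L] in
theorem finrank_up (t : K) : finrank L⟮algebraMap K K' t⟯ K' = finrank L⟮t⟯ K * finrank K K' := by
  let f : K →ₐ[L] K' := IsScalarTower.toAlgHom L K K'
  have he : L⟮t⟯.map f = L⟮algebraMap K K' t⟯ := by
    rw [IntermediateField.adjoin_map, Set.image_singleton]; rfl
  have h3 : finrank L⟮t⟯ K' = finrank (L⟮t⟯.map f) K' :=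
    Algebra.finrank_eq_of_equiv_equiv (L⟮t⟯.equivMap f).toRingEquiv (RingEquiv.refl K')
      (by ext x; rfl)
  rw [← he, ← h3, Module.finrank_mul_finrank L⟮t⟯ K K']

omit [IsAlgClosed L] [CharZero L] [IsScalarTower L K K'] [Algebra K K'] in
theorem sum_up [DecidableEq (Place L K)] (r : Place L K' → Place L K) (g : Place L K → ℤ)
    (Z : Finset (Place L K)) (Y : Finset (Place L K')) (h : ∀ P ∈ Y, r P ∈ Z) :
    ∑ P ∈ Y, g (r P) = ∑ Q ∈ Z, (Y.filter fun P => r P = Q).card * g Q := by
  rw [← Finset.sum_fiberwise_of_maps_to h]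
  refine Finset.sum_congr rfl fun Q _ => ?_
  rw [Finset.sum_congr rfl fun P hP => congrArg g (Finset.mem_filter.1 hP).2, Finset.sum_const,
    nsmul_eq_mul]

variable [FF L K] [FF L K'] {r : Place L K' → Place L K}
  (hr : ∀ P x, (r P).v x = P.v (algebraMap K K' x))
include hr

theorem card_fibre (hn : ∀ Q (s : Finset (Place L K')), (∀ P ∈ s, r P = Q) → s.card ≤ finrank K K')
    (Q : Place L K) : ∃ s : Finset (Place L K'), (∀ P, P ∈ s ↔ r P = Q) ∧ s.card = finrank K K' := by
  classical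
  have ht := Q.π_trans
  have ht' : Transcendental L (algebraMap K K' Q.π) :=
    (transcendental_algebraMap_iff (algebraMap K K').injective).2 ht
  obtain ⟨Z, z1, z2⟩ := (model ht).fund
  obtain ⟨Y, y1, y2⟩ := (model ht').fund
  have q1 : Q.v Q.π < 1 := by rw [Q.v_π, ← exp_zero, exp_lt_exp]; omega
  refine ⟨Y.filter fun P => r P = Q, fun P => Finset.mem_filter.trans (and_iff_right_of_imp fun h =>
    (y1 P).2 (by rw [← hr, h]; exact q1)), ?_⟩
  have h1 := sum_up r (fun Q' => -log (Q'.v Q.π)) Z Y fun P hP => (z1 _).2 (hr P _ ▸ (y1 P).1 hP)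
  simp only [hr] at h1
  rw [y2, finrank_up, Nat.cast_mul, ← z2, Finset.sum_mul] at h1
  have h2 := (Finset.sum_eq_sum_iff_of_le fun Q' hQ' => ?_).1 h1.symm Q ((z1 Q).2 q1)
  · rw [Q.v_π, log_exp] at h2
    omega
  · have h3 : log (Q'.v Q.π) < 0 := (log_lt_iff_lt_exp (by simpa using Q.π_ne)).2 ((z1 Q').1 hQ')
    rw [mul_comm]
    exact mul_le_mul_of_nonneg_left (by exact_mod_cast hn Q' _ fun P hP => (Finset.mem_filter.1 hP).2)
      (by omega)

theorem kappa_up {t : K} (ht : Transcendental L t) : ∃ (D : Derivation L K K)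
    (D' : Derivation L K' K'), D ≠ 0 ∧ D' ≠ 0 ∧ ∀ P : Place L K', P.κ D' = (r P).κ D := by
  have inj : Function.Injective (algebraMap K K') := (algebraMap K K').injective
  obtain ⟨D, D1, D2, -⟩ := exists_dt ht
  obtain ⟨D', D1', -, -⟩ := exists_dt ((transcendental_algebraMap_iff inj).2 ht)
  have ext : ∀ x : K, D' (algebraMap K K' x) = algebraMap K K' (D x) := fun x => by
    have := congrArg (D'.compAlgebraMap K).liftKaehlerDifferential (D2 x)
    rw [map_smul, Derivation.liftKaehlerDifferential_comp_D,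
      Derivation.liftKaehlerDifferential_comp_D] at this
    refine this.trans ?_
    change D x • D' (algebraMap K K' t) = _
    rw [D1', Algebra.smul_def, mul_one]
  have hne : D' ≠ 0 := by rintro rfl; simp at D1'
  refine ⟨D, D', by rintro rfl; simp at D1, hne, fun P => ?_⟩
  have hs : P.v (algebraMap K K' (r P).π) = exp (-1) := by rw [← hr, (r P).v_π]
  have h := P.v_der_eq hne ((map_ne_zero _).2 (r P).π_ne) (by
    rw [hs, ← exp_zero]
    exact fun e => by have := exp_injective e; omega)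
  rw [hs, ← exp_add, neg_add_cancel, exp_zero, one_mul, ext, ← hr] at h
  rw [Place.κ, Place.κ, h]

theorem genus_up {t : K} (ht : Transcendental L t)
    (hn : ∀ Q (s : Finset (Place L K')), (∀ P ∈ s, r P = Q) → s.card ≤ finrank K K') :
    genus L K' ≤ finrank K K' * (2 * genus L K) + 1 := by
  classical
  obtain ⟨D, D', D0, D0', hκ⟩ := kappa_up hr ht
  choose s s1 s2 using card_fibre hr hn
  let Z := (finite_κ' D0).toFinset
  rcases genus_le D0' (Z.biUnion s) (fun P h => Finset.mem_biUnion.2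
    ⟨r P, by simpa [Z, hκ] using h, (s1 _ P).2 rfl⟩) with h | h
  · omega
  simp only [hκ] at h
  rw [sum_up r (fun Q => Q.κ D) Z _ fun P hP => by
      obtain ⟨Q, h1, h2⟩ := Finset.mem_biUnion.1 hP
      exact (s1 Q P).1 h2 ▸ h1,
    Finset.sum_congr rfl (g := fun Q : Place L K => (finrank K K' : ℤ) * Q.κ D) fun Q hQ => by
      rw [← s2 Q]
      congr 3
      exact Finset.ext fun P => Finset.mem_filter.trans ((and_iff_right_of_imp fun e =>
        Finset.mem_biUnion.2 ⟨Q, hQ, (s1 Q P).2 e⟩).trans (s1 Q P).symm), ← Finset.mul_sum] at h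
  have := mul_le_mul_of_nonneg_left (deg_can_le D0 Z (by simp [Z])) (Int.natCast_nonneg (finrank K K'))
  exact_mod_cast h.trans (add_le_add_left this 1)

omit [FF L K] [FF L K'] [IsAlgClosed L] in
theorem val_eq {u : K'} {T : K} (hu : u ^ 2 = algebraMap K K' T) {a : L} (a0 : a ≠ 0)
    {P : Place L K'} (hP : P.v (u - algebraMap L K' a) < 1) (p q : K) :
    P.v (algebraMap K K' p + algebraMap K K' q * u) =
      if (r P).v q ≤ (r P).v (p + q * algebraMap L K a) then (r P).v (p + q * algebraMap L K a)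
      else (r P).v (p ^ 2 - q ^ 2 * T) / (r P).v q := by
  rcases eq_or_ne q 0 with rfl | q0
  · simp [hr]
  have q1 : 0 < P.v (algebraMap K K' q) := zero_lt_iff.2 (by simpa using q0)
  simp only [hr, map_add, map_mul (algebraMap K K'), map_sub, map_pow (algebraMap K K'), ← hu,
    ← IsScalarTower.algebraMap_apply]
  generalize algebraMap K K' p = x at *
  generalize algebraMap K K' q = y at *
  split_ifs with h
  · rw [show x + y * u = x + y * algebraMap L K' a + y * (u - algebraMap L K' a) by ring]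
    exact P.v.map_add_eq_of_lt_left (by
      rw [map_mul]
      exact lt_of_lt_of_le (mul_lt_of_lt_one_right q1 hP) h)
  · have h1 : P.v (u + algebraMap L K' a) = 1 := by
      have h2 := P.v_const (mul_ne_zero two_ne_zero a0)
      rw [show u + algebraMap L K' a = algebraMap L K' (2 * a) + (u - algebraMap L K' a) by
        rw [map_mul, map_ofNat]; ring, P.v.map_add_eq_of_lt_left (h2 ▸ hP), h2]
    have h2 : P.v (x - y * u) = P.v y := by
      rw [show x - y * u = x + y * algebraMap L K' a - y * (u + algebraMap L K' a) by ring,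
        P.v.map_sub_eq_of_lt_right (by rw [map_mul, h1, mul_one]; exact not_le.1 h), map_mul, h1,
        mul_one]
    rw [show x ^ 2 - y ^ 2 * u ^ 2 = (x + y * u) * (x - y * u) by ring, map_mul, h2,
      mul_div_cancel_right₀ _ q1.ne']

omit [FF L K'] in
theorem card_le_two {m : K'} {T : K} (T0 : T ≠ 0) (hm : m ^ 2 = algebraMap K K' T) (top : K⟮m⟯ = ⊤)
    (Q : Place L K) {c : K} (hc : Q.v T = Q.v c ^ 2) (s : Finset (Place L K'))
    (hs : ∀ P ∈ s, r P = Q) : s.card ≤ 2 := by
  classical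
  have c0 : c ≠ 0 := fun e => T0 (by simpa [e] using hc)
  have c1 : algebraMap K K' c ≠ 0 := (map_ne_zero _).2 c0
  have h1 : Q.v (T / c ^ 2) = 1 := by rw [map_div₀, map_pow, hc, div_self (by simpa using c0)]
  obtain ⟨b, hb⟩ := Q.res h1.le
  obtain ⟨a, rfl⟩ := IsAlgClosed.exists_pow_nat_eq b two_pos
  have a0 : a ≠ 0 := fun e => by simp [e, h1] at hb
  have hu : (m / algebraMap K K' c) ^ 2 = algebraMap K K' (T / c ^ 2) := by
    rw [div_pow, hm, map_div₀, map_pow]
  have same : ∀ {a : L}, a ≠ 0 → ∀ P ∈ s, ∀ P' ∈ s,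
      P.v (m / algebraMap K K' c - algebraMap L K' a) < 1 →
      P'.v (m / algebraMap K K' c - algebraMap L K' a) < 1 → P = P' := fun a0 P hP P' hP' e e' =>
    Place.ext' (Valuation.ext fun z => by
      obtain ⟨p, q, rfl⟩ := UNR0x.lin m T hm top z
      rw [show algebraMap K K' q * m = algebraMap K K' (q * c) * (m / algebraMap K K' c) by
        rw [map_mul]; field_simp, val_eq hr hu a0 e, val_eq hr hu a0 e', hs P hP, hs P' hP'])
  have alt : ∀ P ∈ s, ¬ P.v (m / algebraMap K K' c - algebraMap L K' a) < 1 →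
      P.v (m / algebraMap K K' c - algebraMap L K' (-a)) < 1 := fun P hP h => by
    rw [← hs P hP, hr, map_sub, ← hu, ← IsScalarTower.algebraMap_apply, map_pow, sq_sub_sq,
      map_mul] at hb
    rw [map_neg, sub_neg_eq_add]
    exact lt_of_le_of_lt (le_mul_of_one_le_right' (not_lt.1 h)) hb
  refine (Finset.card_le_card_of_injOn (t := Finset.univ)
    (fun P => decide (P.v (m / algebraMap K K' c - algebraMap L K' a) < 1)) (fun _ _ => Finset.mem_coe.2 (Finset.mem_univ _))
    fun P hP P' hP' e => ?_).trans_eq (by simp)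
  rw [decide_eq_decide] at e
  by_cases h : P.v (m / algebraMap K K' c - algebraMap L K' a) < 1
  · exact same a0 P hP P' hP' h (e.1 h)
  · exact same (neg_ne_zero.2 a0) P hP P' hP' (alt P hP h) (alt P' hP' (mt e.2 h))

omit hr [FF L K'] in
theorem genus_sqrt (T : K) (hT : ∀ v : Valuation K ℤᵐ⁰, ∃ c, v T = v c ^ 2) :
    ∃ (K' : Type u) (_ : Field K') (_ : Algebra L K') (φ : K →ₐ[L] K') (m : K'), m ^ 2 = φ T ∧
      FF L K' ∧ genus L K' ≤ 4 * genus L K + 1 ∧
        ∀ s, Transcendental L s → finrank L⟮s⟯ K ≤ finrank L⟮φ s⟯ K' := by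
  by_cases h : ∃ b, b ^ 2 = T
  · obtain ⟨b, hb⟩ := h
    exact ⟨K, _, _, AlgHom.id L K, b, hb, inferInstance, by omega, fun _ _ => le_rfl⟩
  have ht : Transcendental L T := (const_or_trans T).resolve_left fun ⟨c, hc⟩ => by
    obtain ⟨a, rfl⟩ := IsAlgClosed.exists_pow_nat_eq c two_pos
    exact h ⟨_, (map_pow _ a 2).symm.trans hc⟩
  obtain ⟨m, hm⟩ := IsAlgClosed.exists_pow_nat_eq (algebraMap K (AlgebraicClosure K) T) two_pos
  have hi : IsIntegral K m := Algebra.IsIntegral.isIntegral m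
  have f2 : FiniteDimensional K K⟮m⟯ := IntermediateField.adjoin.finiteDimensional hi
  have d2 : finrank K K⟮m⟯ = 2 := by
    rw [IntermediateField.adjoin.finrank hi, ← minpoly.eq_of_irreducible_of_monic
      (X_pow_sub_C_irreducible_of_prime Nat.prime_two fun b e => h ⟨b, e⟩) (by simp [hm])
      (Polynomial.monic_X_pow_sub_C _ two_ne_zero), Polynomial.natDegree_X_pow_sub_C]
  let m' : K⟮m⟯ := IntermediateField.AdjoinSimple.gen K m
  have hm' : m' ^ 2 = algebraMap K K⟮m⟯ T := Subtype.ext hm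
  have top : K⟮m'⟯ = ⊤ := by
    apply IntermediateField.lift_injective
    rw [IntermediateField.lift_adjoin_simple, IntermediateField.lift_top]
    rfl
  obtain ⟨ff, -⟩ := p_FFX L K K⟮m⟯ T ht
  choose r hr using fun P => p_UNR0 L K K⟮m⟯ m' T hm' top P (by
    obtain ⟨c, hc⟩ := hT (P.v.comap (algebraMap K K⟮m⟯))
    rw [Valuation.comap_apply, Valuation.comap_apply, ← hm', map_pow] at hc
    exact ⟨c, pow_left_injective two_ne_zero hc⟩)
  refine ⟨K⟮m⟯, _, _, IsScalarTower.toAlgHom L K K⟮m⟯, m', hm', ff, ?_, fun s _ => ?_⟩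
  · have := genus_up hr ht fun Q s hs => by
      obtain ⟨c, hc⟩ := hT Q.v
      exact d2 ▸ card_le_two hr (trans_ne ht) hm' top Q hc s hs
    rw [d2] at this
    omega
  · rw [IsScalarTower.toAlgHom_apply, finrank_up, d2]
    omega

end Pool.Agent.P.MP_50039c_nt.RS
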