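import Pool.Agent.P.MP_50039c_nt.RS.Main
import Pool.Agent.P.MP_50039c_nt.RS.AbsH
import Pool.Agent.P.MP_50039c_nt.RS.Gen2

/-! The families of any genus on which the sextic is reducible. -/

set_option autoImplicit false

namespace Pool.Agent.P.MP_50039c_nt.RS

open Polynomial Module WithZero Pool.Agent.P.MP_6f117a_ag PJ LV
open scoped IntermediateField

universe u

theorem even_sq {K Γ : Type*} [Field K] [LinearOrderedCommGroupWithZero Γ] (v : Valuation K Γ)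
    {a b : K} {f : K[X]} (hf : f.Monic) (h : f ∣ QQ (C (a ^ 2)) (C (b ^ 2)) 1 X) :
    ∃ c, v (f.coeff 0) = v c ^ 2 := by
  let φ := algebraMap K (AlgebraicClosure K)
  obtain ⟨A, hA⟩ := exists_ext v (AlgebraicClosure K)
  obtain ⟨m, hm⟩ := IsAlgClosed.exists_pow_nat_eq (φ (f.coeff 0)) two_pos
  have := Polynomial.map_dvd φ h
  rw [map_sex, φ.map_pow, φ.map_pow] at this
  obtain ⟨i, j, e⟩ := even_const A.valuation (a := φ a) (b := φ b) (m := m) (hf.map φ) this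
    ((coeff_map φ 0).trans hm.symm)
  refine ⟨a ^ i * b ^ j, (hA.eq_iff.2 ?_).trans (v.map_pow _ 2)⟩
  change A.valuation (φ _) = A.valuation (φ _)
  rw [← hm, φ.map_pow, φ.map_mul, φ.map_pow, φ.map_pow, A.valuation.map_pow, e,
    A.valuation.map_pow]

variable (L : Type u) [Field L]

/-- Off one plane curve the families with the property `p` have degree linear in the genus. -/
def Ft (p : ∀ (K : Type u) [Field K], K → K → Prop) : Prop :=
  ∃ (α : ℕ) (g : MvPolynomial (Fin 3) L) (e : ℕ), g ≠ 0 ∧ g.IsHomogeneous e ∧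
    ∀ (K : Type u) [Field K] [Algebra L K] [FF L K], ∀ a b : K, p K a b → G0 a b 1 ≠ 0 →
      MvPolynomial.aeval ![a, b, 1] g ≠ 0 → ∀ s, s = a ∨ s = b → Transcendental L s →
        finrank L⟮s⟯ K ≤ α * (genus L K + 1)

variable {L} [IsAlgClosed L] [CharZero L] (hLV : ∀ (K : Type u) [Field K] [Algebra L K] (n : ℕ)
  (x : Fin (n + 1) → K), x ≠ 0 → rat L x = ⊤ → GenType L K → LV L x) (hT : S_TERN L)

omit [IsAlgClosed L] [CharZero L] in
theorem tall_of {K K' : Type u} [Field K] [Algebra L K] [Field K'] [Algebra L K'] [FF L K']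
    {φ : K →ₐ[L] K'} (h1 : genus L K' ≤ 4 * genus L K + 1)
    (h2 : ∀ s, Transcendental L s → finrank L⟮s⟯ K ≤ finrank L⟮φ s⟯ K') {n N : ℕ} {ξ : Fin n → K'}
    {s : K} (hs : Transcendental L s) (h3 : ∃ i, ξ i = φ s)
    (h : 4 * N * (genus L K + 1) < finrank L⟮s⟯ K) : Tall L N ξ := by
  obtain ⟨i, hi⟩ := h3
  refine ⟨inferInstance, i, hi ▸ mt (isAlgebraic_algHom_iff φ φ.injective).1 hs, ?_⟩
  rw [hi]
  nlinarith [h2 s hs, Nat.mul_le_mul_left N h1]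

include hLV hT

theorem tall_dvd {n : ℕ} {f : (MvPolynomial (Fin n) L)[X]} (hf : f.Monic) (i j : Fin n)
    (h : ∀ (K : Type u) [Field K] [Algebra L K] (x : Fin n → K),
      IntermediateField.adjoin L (Set.range x) = ⊤ →
        f.map (MvPolynomial.aeval x : _ →ₐ[L] K) ∣ QQ (C (x i ^ 2)) (C (x j ^ 2)) 1 X →
          G0 (x i) (x j) 1 ≠ 0 → Algebra.trdeg L K ≤ 1 ∨ Dom L K) :
    ∃ (N e : ℕ) (g : MvPolynomial (Fin 3) L), g ≠ 0 ∧ g.IsHomogeneous e ∧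
      ∀ (K K' : Type u) [Field K] [Algebra L K] [Field K'] [Algebra L K'] (φ : K →ₐ[L] K')
        (a b : K) (F : K[X]) (ξ : Fin n → K'), ξ i = φ a → ξ j = φ b →
        f.map (MvPolynomial.aeval ξ : _ →ₐ[L] K') = F.map (φ : K →+* K') →
        F ∣ QQ (C (a ^ 2)) (C (b ^ 2)) 1 X → G0 a b 1 ≠ 0 → Tall L N ξ →
          MvPolynomial.aeval ![a, b, 1] g = 0 := by
  obtain ⟨N, e, g, g1, g2, g3⟩ := fin_tall hLV hT (Ideal.span (Set.range
    (QQ (C (.X i ^ 2)) (C (.X j ^ 2)) 1 X %ₘ f).coeff)) (G0 (.X i) (.X j) 1) i j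
    fun K _ _ x h1 h2 h3 => h K x h1 (by
      have := (span_le _ _ hf).1 h2
      rw [map_sex] at this
      simpa using this) (by simpa [map_G0] using h3)
  refine ⟨N, e, g, g1, g2, fun K K' _ _ _ _ φ a b F ξ e1 e2 e3 h1 h2 h3 => φ.injective ?_⟩
  have := g3 K' ξ ((span_le _ _ hf).2 (by
    have := Polynomial.map_dvd (φ : K →+* K') h1
    rw [map_sex, ← e3] at this
    rw [map_sex]
    simpa [e1, e2] using this)) (by
      rw [map_G0, MvPolynomial.aeval_X, MvPolynomial.aeval_X, e1, e2, map_one, ← map_one φ,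
        ← map_G0]
      simpa using h2) h3
  rw [map_zero, ← this]
  refine (MvPolynomial.comp_aeval_apply _ φ g).trans ?_
  congr 2
  funext k
  fin_cases k <;> simp [e1, e2]

theorem one_tall (hD : S_DEG L) : Ft L fun K _ a b =>
    ∃ T : K, X - C T ∣ QQ (C (a ^ 2)) (C (b ^ 2)) 1 X := by
  have H := tall_dvd hLV hT (n := 3) (monic_X_sub_C (R := MvPolynomial (Fin 3) L) (.X 2 ^ 2)) 0 1
    fun K _ _ x h1 h2 h3 => by
      have top : ∀ z : Fin 4 → K, ∀ i, z i = 1 → (∀ j, ∃ k, z k = x j) → rat L z = ⊤ :=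
        fun z i hi hz => top_le_iff.1 (h1.ge.trans (IntermediateField.adjoin.mono _ _ _ (by
          rintro _ ⟨j, rfl⟩
          obtain ⟨k, hk⟩ := hz j
          exact ⟨k, i, by simp [hi, hk]⟩)))
      refine (hD K ![x 0, x 1, 1, x 2] (fun h => by simpa using congrFun h 2) (top _ 2 rfl
        fun j => by fin_cases j; exacts [⟨0, rfl⟩, ⟨1, rfl⟩, ⟨3, rfl⟩]) ?_).imp_right fun h =>
          ⟨K, _, _, .id L K, 3, ![1, x 0, x 1, x 2], rfl, top _ 0 rfl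
            fun j => by fin_cases j; exacts [⟨1, rfl⟩, ⟨2, rfl⟩, ⟨3, rfl⟩], h, ?_⟩
      · have := eval_eq_zero_of_dvd_of_eval_eq_zero h2 (x := x 2 ^ 2) (by simp)
        simpa [QQ] using this
      · rw [← IntermediateField.isAlgebraic_adjoin_iff_top, top_le_iff.1 (h1.ge.trans
          (IntermediateField.adjoin.mono _ _ _ ?_))]
        · infer_instance
        · rintro _ ⟨j, rfl⟩
          fin_cases j
          exacts [⟨1, rfl⟩, ⟨2, rfl⟩, ⟨3, rfl⟩]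
  obtain ⟨N, d, g, g1, g2, g3⟩ := H
  refine ⟨4 * N, g, d, g1, g2, fun K _ _ _ a b ⟨T, h1⟩ h2 h3 s hs ht => not_lt.1 fun h4 => h3 ?_⟩
  obtain ⟨K', _, _, φ, m, hm, _, k1, k2⟩ := genus_sqrt (L := L) (-T) fun v => by
    simpa using even_sq v (monic_X_sub_C T) h1
  obtain ⟨i, hi⟩ := IsAlgClosed.exists_pow_nat_eq (-1 : L) two_pos
  refine g3 K K' φ a b _ ![φ a, φ b, algebraMap L K' i * m] rfl rfl ?_ h1 h2
    (tall_of k1 k2 ht (hs.elim (fun h => ⟨0, h ▸ rfl⟩) fun h => ⟨1, h ▸ rfl⟩) h4)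
  simp [-map_pow, map_pow (MvPolynomial.aeval _), mul_pow, hm, ← map_pow (algebraMap L K'), hi]

theorem two_tall (hV : S_GTV L) (hR : S_R24 L) : Ft L fun K _ a b =>
    ∃ e n : K, X ^ 2 - C e * X + C n ∣ QQ (C (a ^ 2)) (C (b ^ 2)) 1 X := by
  have H := tall_dvd hLV hT (n := 4) (monic2 (R := MvPolynomial (Fin 4) L) (.X 2) (.X 3)) 0 1
    fun K _ _ x h1 h2 h3 => by
      rw [map2] at h2
      simp only [RingHom.coe_coe, MvPolynomial.aeval_X] at h2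
      refine (hR K (x 0) (x 1) (x 2) (x 3) h2 h3 (top_le_iff.1 (h1.ge.trans
        (IntermediateField.adjoin.mono _ _ _ ?_)))).imp_right
          fun ⟨t, g, u, r, h4, h5, h6⟩ => domV hV h4 h5 h6
      rintro _ ⟨i, rfl⟩
      fin_cases i <;> simp
  obtain ⟨N, d, g, g1, g2, g3⟩ := H
  refine ⟨4 * N, g, d, g1, g2, fun K _ _ _ a b ⟨e, n, h1⟩ h2 h3 s hs ht => not_lt.1 fun h4 => h3 ?_⟩
  exact g3 K K (.id L K) a b _ ![a, b, e, n] rfl rfl (by simp) h1 h2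
    (tall_of (φ := .id L K) (by omega) (fun _ _ => le_rfl) ht
      (hs.elim (fun h => ⟨0, h ▸ rfl⟩) fun h => ⟨1, h ▸ rfl⟩) h4)

theorem three_tall (h8 : S_GT8 L) (hR : S_R33 L) : Ft L fun K _ a b => ∃ e f T : K,
    X ^ 3 + C e * X ^ 2 + C f * X + C T ∣ QQ (C (a ^ 2)) (C (b ^ 2)) 1 X := by
  have H := tall_dvd hLV hT (n := 5) (monic3 (R := MvPolynomial (Fin 5) L) (.X 2) (.X 3)
    (.X 4 ^ 2)) 0 1 fun K _ _ x h1 h2 h3 => by
      rw [map3] at h2
      simp only [RingHom.coe_coe, map_pow (MvPolynomial.aeval x), MvPolynomial.aeval_X] at h2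
      refine (hR K (x 0) (x 1) (x 2) (x 3) (x 4) h2 h3 (top_le_iff.1 (h1.ge.trans
        (IntermediateField.adjoin.mono _ _ _ ?_)))).imp_right
          fun ⟨x, y, w, h4, h5⟩ => dom8 h8 h4 h5
      rintro _ ⟨i, rfl⟩
      fin_cases i <;> simp
  obtain ⟨N, d, g, g1, g2, g3⟩ := H
  refine ⟨4 * N, g, d, g1, g2, fun K _ _ _ a b ⟨e, f, T, h1⟩ h2 h3 s hs ht =>
    not_lt.1 fun h4 => h3 ?_⟩
  obtain ⟨K', _, _, φ, m, hm, _, k1, k2⟩ := genus_sqrt (L := L) T fun v => by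
    simpa using even_sq v (monic3 e f T) h1
  refine g3 K K' φ a b _ ![φ a, φ b, φ e, φ f, m] rfl rfl ?_ h1 h2
    (tall_of k1 k2 ht (hs.elim (fun h => ⟨0, h ▸ rfl⟩) fun h => ⟨1, h ▸ rfl⟩) h4)
  rw [map3, map3]
  simp [hm]

omit [IsAlgClosed L] hLV hT in
theorem all_tall (hH : S_HT L)
    (h1 : Ft L fun K _ a b => ∃ T : K, X - C T ∣ QQ (C (a ^ 2)) (C (b ^ 2)) 1 X)
    (h2 : Ft L fun K _ a b => ∃ e n : K, X ^ 2 - C e * X + C n ∣ QQ (C (a ^ 2)) (C (b ^ 2)) 1 X)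
    (h3 : Ft L fun K _ a b => ∃ e f T : K,
      X ^ 3 + C e * X ^ 2 + C f * X + C T ∣ QQ (C (a ^ 2)) (C (b ^ 2)) 1 X) :
    ∃ (α : ℕ) (G : MvPolynomial (Fin 3) L) (e : ℕ), G ≠ 0 ∧ G.IsHomogeneous e ∧
      ∀ (K : Type u) [Field K] [Algebra L K] [FF L K] (y : Fin 3 → K),
        (G0 (y 0) (y 1) (y 2) ≠ 0 →
          ¬ Irreducible (QQ (C (y 0 ^ 2)) (C (y 1 ^ 2)) (C (y 2 ^ 2)) X)) →
          MvPolynomial.aeval y G ≠ 0 → degree L y ≤ α * (genus L K + 1) := by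
  obtain ⟨α1, g1, e1, a1, b1, c1⟩ := h1
  obtain ⟨α2, g2, e2, a2, b2, c2⟩ := h2
  obtain ⟨α3, g3, e3, a3, b3, c3⟩ := h3
  have hx := fun i : Fin 3 => MvPolynomial.isHomogeneous_X L i
  have hp := fun (i : Fin 3) n => MvPolynomial.isHomogeneous_X_pow (R := L) i n
  obtain ⟨e0, b0⟩ : ∃ e, (G0 (.X 0) (.X 1) (.X 2) : MvPolynomial (Fin 3) L).IsHomogeneous e :=
    ⟨_, ((((((((((hx 0).mul (hx 1)).mul (hx 2)).mul ((hp 0 2).sub (hp 1 2))).mul
      ((hp 0 2).add (hp 1 2))).mul ((hp 0 2).sub (hp 2 2))).mul ((hp 1 2).sub (hp 2 2))).mul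
      ((hp 0 2).add (hp 2 2))).mul ((hp 1 2).add (hp 2 2))).mul
      ((hp 0 4).sub ((hp 1 2).mul (hp 2 2)))).mul ((hp 1 4).sub ((hp 0 2).mul (hp 2 2)))⟩
  have a0 : (G0 (.X 0) (.X 1) (.X 2) : MvPolynomial (Fin 3) L) ≠ 0 := fun h => by
    have := congrArg (MvPolynomial.eval ![2, 3, 5]) h
    simp [G0] at this
    norm_num at this
  have b4 := (b1.mul b2).mul b3
  refine ⟨3 * (α1 + α2 + α3), _, _, mul_ne_zero a0 (mul_ne_zero (mul_ne_zero a1 a2) a3),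
    b0.mul b4, fun K _ _ _ y hy hG => ?_⟩
  rw [map_mul, mul_ne_zero_iff] at hG
  obtain ⟨h0, hG⟩ := hG
  have y0 : y 2 ≠ 0 := fun e => h0 (by simp [G0, e])
  have ey : (fun i => y i / y 2) = ![y 0 / y 2, y 1 / y 2, 1] := by
    funext i
    fin_cases i <;> simp [y0]
  have h4 := scale b0 (y 2) y
  have h5 := scale b4 (y 2) y
  rw [ey] at h4 h5
  have h6 : G0 (y 0 / y 2) (y 1 / y 2) 1 ≠ 0 := by
    simpa [map_G0] using h4.trans_ne (div_ne_zero h0 (pow_ne_zero _ y0))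
  have h7 := h5.trans_ne (div_ne_zero hG (pow_ne_zero _ y0))
  have h8 := mt (sex_scale (pow_ne_zero 2 y0)) (hy (by simpa [map_G0] using h0))
  rw [← div_pow, ← div_pow] at h8
  suffices H : ∀ s, s = y 0 / y 2 ∨ s = y 1 / y 2 → Transcendental L s →
      finrank L⟮s⟯ K ≤ (α1 + α2 + α3) * (genus L K + 1) by
    have := (hH K 2 y fun e => y0 (congrFun e 2)).2.2.2 2 _ y0 fun j hj => H _ (by
      fin_cases j
      exacts [.inl rfl, .inr rfl, (hj (by simpa [y0] using isAlgebraic_one)).elim]) hj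
    push_cast at this ⊢
    linarith
  generalize y 0 / y 2 = a, y 1 / y 2 = b at h6 h7 h8
  intro s hs ht
  obtain ⟨m1, m2⟩ := sex_deg (a ^ 2) (b ^ 2) 1
  rw [C_1] at m1 m2
  rw [m1.irreducible_iff_lt_natDegree_lt (fun e => by rw [e] at m2; simp at m2), m2] at h8
  push Not at h8
  obtain ⟨f, f1, f2, f3⟩ := h8
  rw [map_mul, map_mul, mul_ne_zero_iff, mul_ne_zero_iff] at h7
  have f4 := f1.as_sum
  obtain f2 | f2 | f2 : f.natDegree = 1 ∨ f.natDegree = 2 ∨ f.natDegree = 3 := by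
    rw [Finset.mem_Ioc] at f2
    omega
  · refine (c1 K a b ⟨-f.coeff 0, ?_⟩ h6 h7.1.1 s hs ht).trans (Nat.mul_le_mul_right _ (by omega))
    convert f3 using 1
    conv_rhs => rw [f4]
    simp [f2]
  · refine (c2 K a b ⟨-f.coeff 1, f.coeff 0, ?_⟩ h6 h7.1.2 s hs ht).trans
      (Nat.mul_le_mul_right _ (by omega))
    convert f3 using 1
    conv_rhs => rw [f4]
    simp [f2, Finset.sum_range_succ]
    ring
  · refine (c3 K a b ⟨f.coeff 2, f.coeff 1, f.coeff 0, ?_⟩ h6 h7.2 s hs ht).trans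
      (Nat.mul_le_mul_right _ (by omega))
    convert f3 using 1
    conv_rhs => rw [f4]
    simp [f2, Finset.sum_range_succ]
    ring

end Pool.Agent.P.MP_50039c_nt.RS
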