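import Pool.Agent.P.MP_50039c_nt.RS.Fin
import Pool.Agent.P.MP_50039c_nt.RS.MainH
import Pool.Agent.P.MP_50039c_nt.RS.Gen1

/-! The bound for the degree in all genera. -/

set_option autoImplicit false

namespace Pool.Agent.P.MP_50039c_nt.RS

open Polynomial Pool.Agent.P.MP_6f117a_ag PJ LV
open scoped IntermediateField

universe u

variable {L : Type u} [Field L] [IsAlgClosed L] [CharZero L]
  (h8 : S_GT8 L) (hV : S_GTV L) (h2 : S_R24 L) (h3 : S_R33 L)

include h8 hV h2 h3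

theorem tall_all : ∃ (α : ℕ) (G : MvPolynomial (Fin 3) L) (e : ℕ), G ≠ 0 ∧ G.IsHomogeneous e ∧
    ∀ (K : Type u) [Field K] [Algebra L K], (⊤ : IntermediateField L K).FG →
      Algebra.trdeg L K = 1 → ∀ a b c : K,
        (G0 a b c ≠ 0 → ¬ Irreducible (QQ (C (a ^ 2)) (C (b ^ 2)) (C (c ^ 2)) X)) →
          MvPolynomial.aeval ![a, b, c] G ≠ 0 →
            degree L ![a, b, c] ≤ α * max 0 ((genus L K : ℤ) - 1) := by
  obtain ⟨G, e, g1, g2, g3⟩ := all_of one_of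
    (two_of (lv_all L) (p_DEGL L) (p_TERN L) all_tw hV h2)
    (three_of (lv_all L) (p_DEGL L) (p_TERN L) all_tw h8 h3)
  obtain ⟨α, G', e', g4, g5, g6⟩ := all_tall (t_HT L) (one_tall (lv_all L) (p_TERN L) (all_DEG L))
    (two_tall (lv_all L) (p_TERN L) hV h2) (three_tall (lv_all L) (p_TERN L) h8 h3)
  refine ⟨3 * α, MvPolynomial.X 2 * (G * G'), _, mul_ne_zero (MvPolynomial.X_ne_zero _)
    (mul_ne_zero g1 g4), (MvPolynomial.isHomogeneous_X L 2).mul (g2.mul g5),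
    fun K _ _ fg td a b c h hG => ?_⟩
  have := FF.of_fg fg td.le
  rw [map_mul, map_mul, mul_ne_zero_iff, mul_ne_zero_iff, MvPolynomial.aeval_X] at hG
  rcases le_or_gt (genus L K) 1 with hg | hg
  · refine le_trans (b := 0) ?_ (by positivity)
    simpa using (t_HT L K 2 ![a, b, c] fun e => hG.1 (congrFun e 2)).2.2.2 2 0 hG.1 fun j hj => by
      obtain ⟨l, g, hl⟩ := (g3 K (low_genus hj hg) ![a, b, c] h).resolve_right hG.2.1
      refine (hj ?_).elim
      have h0 := hG.1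
      rw [hl 2, smul_ne_zero_iff] at h0
      rw [hl j, hl 2, Algebra.smul_def, Algebra.smul_def, mul_div_mul_right _ _ h0.2, ← map_div₀]
      exact isAlgebraic_algebraMap _
  · refine (g6 K ![a, b, c] h hG.2.2).trans ?_
    rw [max_eq_right (by omega)]
    push_cast
    nlinarith [mul_nonneg (Int.natCast_nonneg α) (show (0 : ℤ) ≤ genus L K - 2 by omega)]

theorem tall_twelve : ∃ (α : ℕ) (G : MvPolynomial (Fin 3) L) (e : ℕ), G ≠ 0 ∧ G.IsHomogeneous e ∧
    ∀ (K : Type u) [Field K] [Algebra L K], (⊤ : IntermediateField L K).FG →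
      Algebra.trdeg L K = 1 → ∀ (F : Type u) [Field F] (φ : F →+* K),
        (∀ x y : F, x ^ 2 + y ^ 2 ≠ -1) → ∀ a b c : F,
          ¬ Irreducible (QQ (C (a ^ 2)) (C (b ^ 2)) (C (c ^ 2)) (X ^ 2)) →
            MvPolynomial.aeval ![φ a, φ b, φ c] G ≠ 0 →
              degree L ![φ a, φ b, φ c] ≤ α * max 0 ((genus L K : ℤ) - 1) := by
  obtain ⟨α, G, e, g1, g2, g3⟩ := tall_all h8 hV h2 h3
  refine ⟨α, G, e, g1, g2, fun K _ _ fg td F _ φ hF a b c h =>
    g3 K fg td _ _ _ fun h0 h1 => h (irr_twelve hF (fun h4 => h0 ?_)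
      ((sex_deg _ _ _).1.irreducible_of_irreducible_map φ _ ?_))⟩
  · rw [← map_G0, map_eq_zero, G0]
    linear_combination (a ^ 2 - b ^ 2) * (a ^ 2 + b ^ 2) * (a ^ 2 + c ^ 2) * (b ^ 2 + c ^ 2) *
      (a ^ 4 - b ^ 2 * c ^ 2) * (b ^ 4 - a ^ 2 * c ^ 2) * h4
  · convert h1 using 1
    simp [QQ]

end Pool.Agent.P.MP_50039c_nt.RS
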