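import Pool.Agent.P.MP_50039c_nt.LV.IfaceB

/-! The resolvent surfaces of the third cuboid polynomial: the steps. -/

set_option autoImplicit false

namespace Pool.Agent.P.MP_50039c_nt.RS

open Module Pool.Agent.P.MP_6f117a_ag PJ LV
open scoped IntermediateField

universe u

/-- The equation of the resolvent surface for a quadratic factor. -/
def Phi {R : Type*} [CommRing R] (t p q r : R) : R :=
  (1 - 2 * t) * (p ^ 2 + q ^ 2) + (t ^ 2 + 2 * t - 1) * p * q + (1 - t ^ 2) * r * (p + q) +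
    (t ^ 2 + 2 * t) * r ^ 2

/-- Eight lines in the plane. -/
def Oct {R : Type*} [CommRing R] (x y : R) : R :=
  (x ^ 2 + 4) * (y ^ 2 + 1) * ((y ^ 2 - 1 - x ^ 2) ^ 2 - 4 * x ^ 2)

/-- The degenerate triples. -/
def G0 {R : Type*} [CommRing R] (a b c : R) : R :=
  a * b * c * (a ^ 2 - b ^ 2) * (a ^ 2 + b ^ 2) * (a ^ 2 - c ^ 2) * (b ^ 2 - c ^ 2) *
    (a ^ 2 + c ^ 2) * (b ^ 2 + c ^ 2) * (a ^ 4 - b ^ 2 * c ^ 2) * (b ^ 4 - a ^ 2 * c ^ 2)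

variable (L : Type u) [Field L]

def S_GT8 : Prop := ∀ (K : Type u) [Field K] [Algebra L K] (x y w : K),
  IsTranscendenceBasis L ![x, y] → w ^ 2 = Oct x y → L⟮x, y, w⟯ = ⊤ → GenType L K

def S_GTV : Prop := ∀ (K : Type u) [Field K] [Algebra L K] (t g u r : K),
  IsTranscendenceBasis L ![t, g] → u ^ 2 = r * (t ^ 2 + 2 * t - 1) → Phi t (g ^ 2) 1 r = 0 →
    L⟮t, g, u⟯ = ⊤ → GenType L K

def S_R24 : Prop := ∀ (K : Type u) [Field K] [Algebra L K] (a b e n : K),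
  (Polynomial.X ^ 2 - Polynomial.C e * Polynomial.X + Polynomial.C n ∣
    QQ (Polynomial.C (a ^ 2)) (Polynomial.C (b ^ 2)) 1 Polynomial.X) → G0 a b 1 ≠ 0 →
  L⟮a, b, e, n⟯ = ⊤ → Algebra.trdeg L K ≤ 1 ∨ ∃ t g u r : K, IsTranscendenceBasis L ![t, g] ∧
    u ^ 2 = r * (t ^ 2 + 2 * t - 1) ∧ Phi t (g ^ 2) 1 r = 0

def S_R33 : Prop := ∀ (K : Type u) [Field K] [Algebra L K] (a b e f m : K),
  (Polynomial.X ^ 3 + Polynomial.C e * Polynomial.X ^ 2 + Polynomial.C f * Polynomial.X +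
    Polynomial.C (m ^ 2) ∣ QQ (Polynomial.C (a ^ 2)) (Polynomial.C (b ^ 2)) 1 Polynomial.X) →
  G0 a b 1 ≠ 0 → L⟮a, b, e, f, m⟯ = ⊤ → Algebra.trdeg L K ≤ 1 ∨
    ∃ x y w : K, IsTranscendenceBasis L ![x, y] ∧ w ^ 2 = Oct x y

end Pool.Agent.P.MP_50039c_nt.RS
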