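import Pool.Agent.P.MP_50039c_nt.RS.Abs
import Pool.Agent.P.MP_50039c_nt.RS.Iface

/-! Subfields of general type, towers, and the ideal of a factorisation. -/

set_option autoImplicit false

namespace Pool.Agent.P.MP_50039c_nt.RS

open Module Pool.Agent.P.MP_6f117a_ag PJ LV
open scoped IntermediateField

universe u

variable {L : Type u} [Field L] {K : Type u} [Field K] [Algebra L K]

theorem dom3 {s t : K} (w : K) (hb : IsTranscendenceBasis L ![s, t])
    (h : ∀ (K₀ : Type u) [Field K₀] [Algebra L K₀] (φ : K₀ →ₐ[L] K) (s' t' w' : K₀), φ s' = s →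
      φ t' = t → φ w' = w → IsTranscendenceBasis L ![s', t'] → L⟮s', t', w'⟯ = ⊤ →
        GenType L K₀) : Dom L K := by
  let s' : L⟮s, t, w⟯ := ⟨s, IntermediateField.subset_adjoin _ _ (by simp)⟩
  let t' : L⟮s, t, w⟯ := ⟨t, IntermediateField.subset_adjoin _ _ (by simp)⟩
  let w' : L⟮s, t, w⟯ := ⟨w, IntermediateField.subset_adjoin _ _ (by simp)⟩
  have top : L⟮s', t', w'⟯ = ⊤ := by
    apply IntermediateField.lift_injective
    rw [IntermediateField.lift_adjoin, IntermediateField.lift_top]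
    simp [Set.image_insert_eq, s', t', w']
  have hi : AlgebraicIndependent L ![s', t'] := .of_comp L⟮s, t, w⟯.val (by
    convert hb.1 using 1
    funext i
    fin_cases i <;> rfl)
  refine ⟨_, _, _, L⟮s, t, w⟯.val, 3, ![1, s', t', w'], rfl, top_le_iff.1 (top.ge.trans
    (IntermediateField.adjoin.mono _ _ _ ?_)), h _ L⟮s, t, w⟯.val s' t' w' rfl rfl rfl
      (hi.isTranscendenceBasis_of_lift_trdeg_le_of_finite ?_) top, ⟨fun a =>
        (hb.isAlgebraic.isAlgebraic a).tower_top_of_subalgebra_le (Algebra.adjoin_mono ?_)⟩⟩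
  · rintro _ (rfl | rfl | rfl)
    exacts [⟨1, 0, by simp⟩, ⟨2, 0, by simp⟩, ⟨3, 0, by simp⟩]
  · rw [hb.lift_cardinalMk_eq_trdeg, Cardinal.lift_le]
    exact trdeg_le_of_injective L⟮s, t, w⟯.val Subtype.val_injective
  · rintro _ ⟨i, rfl⟩
    fin_cases i
    exacts [⟨1, rfl⟩, ⟨2, rfl⟩]

theorem dom8 (h : S_GT8 L) {x y w : K} (hb : IsTranscendenceBasis L ![x, y])
    (hw : w ^ 2 = Oct x y) : Dom L K :=
  dom3 w hb fun K₀ _ _ φ x' y' w' e1 e2 e3 h1 h2 => h K₀ x' y' w' h1 (φ.injective (by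
    subst e1 e2 e3
    simpa [Oct, map_ofNat] using hw)) h2

theorem domV (h : S_GTV L) {t g u r : K} (hb : IsTranscendenceBasis L ![t, g])
    (hu : u ^ 2 = r * (t ^ 2 + 2 * t - 1)) (hr : Phi t (g ^ 2) 1 r = 0) : Dom L K := by
  have c0 : t ^ 2 + 2 * t - 1 ≠ 0 := fun e => hb.1.transcendental 0
    ⟨Polynomial.X ^ 2 + (2 * Polynomial.X - 1), Polynomial.Monic.ne_zero (by monicity!),
      by simpa [map_ofNat, add_sub_assoc] using e⟩
  refine dom3 u hb fun K₀ _ _ φ t' g' u' e1 e2 e3 h1 h2 => ?_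
  have e4 : φ (u' ^ 2 / (t' ^ 2 + 2 * t' - 1)) = r := by
    simp [map_ofNat, e1, e3, hu, c0]
  generalize u' ^ 2 / (t' ^ 2 + 2 * t' - 1) = r' at e4
  subst e1 e2 e3 e4
  exact h K₀ t' g' u' r' h1 (φ.injective (by simpa [map_ofNat] using hu))
    (φ.injective (by simpa [Phi, map_ofNat] using hr)) h2

theorem tower (hG1 : S_G1 L) (hRAT : S_RAT L) (hWEI : S_WEI L) (hFFW : S_FFW L) (hFFX : S_FFX L)
    (hTOW : S_TOW L) (hUNR0 : S_UNR0 L) (hUNR : S_UNR L) (hK : Ratl L K ∨ Wei L K) (T : K)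
    (hT : ∀ (K' : Type u) [Field K'] [Algebra L K'] (φ : K →ₐ[L] K') (m : K'), m ^ 2 = φ T →
      ∀ P : Place L K', ∃ c, P.v m = P.v (φ c)) (N : ℕ) :
    ∃ (K' : Type u) (_ : Field K') (_ : Algebra L K') (φ : K →ₐ[L] K') (m : K'), m ^ 2 = φ T ∧
      ∀ (n : ℕ) (ξ : Fin n → K'), (∀ i, ξ i = m ∨ ∃ c, ξ i = φ c) →
        (∃ i, Transcendental L (ξ i)) → Big L N ξ := by
  have := hFFW K hK
  obtain ⟨K₁, _, _, _, _, f1, n1, hK₁⟩ := hTOW K hK (2 * N + 2)
  have := hFFW K₁ hK₁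
  obtain ⟨m, hm⟩ := IsAlgClosed.exists_pow_nat_eq
    (algebraMap K₁ (AlgebraicClosure K₁) (algebraMap K K₁ T)) two_pos
  let K₂ := K₁⟮m⟯
  have f2 : FiniteDimensional K₁ K₂ :=
    IntermediateField.adjoin.finiteDimensional (Algebra.IsIntegral.isIntegral m)
  let m' : K₂ := IntermediateField.AdjoinSimple.gen K₁ m
  have hm' : m' ^ 2 = algebraMap K₁ K₂ (algebraMap K K₁ T) := Subtype.ext hm
  have top : K₁⟮m'⟯ = ⊤ := by
    apply IntermediateField.lift_injective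
    rw [IntermediateField.lift_adjoin_simple, IntermediateField.lift_top]
    rfl
  let φ : K →ₐ[L] K₂ := (IsScalarTower.toAlgHom L K₁ K₂).comp (IsScalarTower.toAlgHom L K K₁)
  have hφ : ∀ x, φ x = algebraMap K₁ K₂ (algebraMap K K₁ x) := fun _ => rfl
  obtain ⟨t, t1⟩ : ∃ t : K₁, Transcendental L t :=
    hK₁.elim (fun ⟨s, h, _⟩ => ⟨s, h⟩) fun ⟨s, _, _, _, h, _⟩ => ⟨s, h⟩
  obtain ⟨ff2, -⟩ := hFFX K₁ K₂ _ t1
  have reg : RegD L K₂ := hUNR K₁ K₂ (fun P => hUNR0 K₁ K₂ m' _ hm' top P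
    ((hT K₂ φ m' hm' P).elim fun c h => ⟨_, h⟩)) (hK₁.elim (hRAT K₁) (hWEI K₁))
  refine ⟨K₂, _, _, φ, m', hm', fun n ξ h1 h2 => ⟨ff2, hG1 K₂ reg, h2, fun s hs ht => ?_⟩⟩
  have : IsScalarTower L K K₂ := .of_algebraMap_eq fun c => by
    rw [IsScalarTower.algebraMap_apply K K₁ K₂, ← hφ, φ.commutes]
  have : FiniteDimensional K K₂ := .trans K K₁ K₂
  have := ff2.fin s ht
  have d1 : finrank K⟮m'⟯ K₂ ≤ finrank L⟮s⟯ K₂ :=
    IntermediateField.finrank_le_of_le_left (E := K⟮m'⟯.restrictScalars L)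
      (IntermediateField.adjoin_simple_le_iff.2 (IntermediateField.adjoin_le_iff.2 (by
        rintro _ ⟨i, rfl⟩
        rcases h1 i with h | ⟨c, h⟩ <;> rw [h]
        exacts [IntermediateField.mem_adjoin_simple_self K m', K⟮m'⟯.algebraMap_mem c]) hs))
  have d2 : finrank K K⟮m'⟯ ≤ 2 := by
    rw [IntermediateField.adjoin.finrank (Algebra.IsIntegral.isIntegral m')]
    exact (Polynomial.natDegree_le_of_dvd (minpoly.dvd K m' (p := Polynomial.X ^ 2 - Polynomial.C T)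
      (by simpa [sub_eq_zero, ← IsScalarTower.algebraMap_apply] using hm')) (Polynomial.X_pow_sub_C_ne_zero two_pos T)).trans
        Polynomial.natDegree_X_pow_sub_C.le
  have d3 : finrank K K₁ ≤ finrank K K₂ :=
    LinearMap.finrank_le_finrank_of_injective (f := (IsScalarTower.toAlgHom K K₁ K₂).toLinearMap)
      (algebraMap K₁ K₂).injective
  have d4 := Module.finrank_mul_finrank K K⟮m'⟯ K₂
  have d5 := Nat.mul_le_mul_right (finrank K⟮m'⟯ K₂) d2
  omega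

theorem span_le {R S F : Type*} [CommRing R] [CommRing S] [FunLike F R S] [RingHomClass F R S]
    (φ : F) (Q : Polynomial R) {f : Polynomial R} (hf : f.Monic) :
    Ideal.span (Set.range (Q %ₘ f).coeff) ≤ RingHom.ker φ ↔
      f.map (φ : R →+* S) ∣ Q.map (φ : R →+* S) := by
  rw [← Polynomial.modByMonic_eq_zero_iff_dvd (hf.map _), ← Polynomial.map_modByMonic _ hf,
    Ideal.span_le, Set.range_subset_iff, Polynomial.ext_iff]
  simp

end Pool.Agent.P.MP_50039c_nt.RS
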