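import Pool.Agent.P.MP_50039c_nt.LV.Base

/-! Quadratic factors of the sextic: the polynomial identities. -/

set_option autoImplicit false

namespace Pool.Agent.P.MP_50039c_nt.RS.Q2

open Polynomial LV

section Ring

variable {R : Type*} [CommRing R]

/-- the linear coefficient of the remainder -/
def r5 (A B C e n : R) : R :=
  6*A^2*B^2*C + A^2*B^2*e - 2*A^2*B*C^2 + 4*A^2*B*C*e - 2*A^2*B*e^2 + 2*A^2*B*n + A^2*C^2*e +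
    6*A^2*C*e^2 - 6*A^2*C*n + A^2*e^3 - 2*A^2*e*n - 2*A*B^2*C^2 + 4*A*B^2*C*e - 2*A*B^2*e^2 +
    2*A*B^2*n - 12*A*B*C^2*e - 8*A*B*C*e^2 + 8*A*B*C*n - 12*A*B*e^3 + 24*A*B*e*n - 2*A*C^2*e^2 +
    2*A*C^2*n + 4*A*C*e^3 - 8*A*C*e*n - 2*A*e^4 + 6*A*e^2*n - 2*A*n^2 + B^2*C^2*e + 6*B^2*C*e^2
    - 6*B^2*C*n + B^2*e^3 - 2*B^2*e*n - 2*B*C^2*e^2 + 2*B*C^2*n + 4*B*C*e^3 - 8*B*C*e*n -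
    2*B*e^4 + 6*B*e^2*n - 2*B*n^2 + C^2*e^3 - 2*C^2*e*n + 6*C*e^4 - 18*C*e^2*n + 6*C*n^2 + e^5 -
    4*e^3*n + 3*e*n^2

/-- the constant coefficient of the remainder -/
def r6 (A B C e n : R) : R :=
  A^2*B^2*C^2 - A^2*B^2*n - 4*A^2*B*C*n + 2*A^2*B*e*n - A^2*C^2*n - 6*A^2*C*e*n - A^2*e^2*n +
    A^2*n^2 - 4*A*B^2*C*n + 2*A*B^2*e*n + 12*A*B*C^2*n + 8*A*B*C*e*n + 12*A*B*e^2*n - 12*A*B*n^2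
    + 2*A*C^2*e*n - 4*A*C*e^2*n + 4*A*C*n^2 + 2*A*e^3*n - 4*A*e*n^2 - B^2*C^2*n - 6*B^2*C*e*n -
    B^2*e^2*n + B^2*n^2 + 2*B*C^2*e*n - 4*B*C*e^2*n + 4*B*C*n^2 + 2*B*e^3*n - 4*B*e*n^2 -
    C^2*e^2*n + C^2*n^2 - 6*C*e^3*n + 12*C*e*n^2 - e^4*n + 3*e^2*n^2 - n^3

/-- the value of the factor at `-A` -/
def fv (e n A : R) : R := A ^ 2 + e * A + n

/-- a square root -/
def kk (A B C e n : R) : R :=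
  -A^2*B*C + A^2*n - A*B*C*e - 2*A*B*n - 2*A*C*n - A*e*n + B*C*n - n^2

theorem div_rem (A B C e n T : R) : QQ A B C T = (T ^ 2 - e * T + n) *
    (A^2*B^2 + 4*A^2*B*C - 2*A^2*B*e - 2*A^2*B*T + A^2*C^2 + 6*A^2*C*e + 6*A^2*C*T + A^2*e^2 +
    A^2*e*T - A^2*n + A^2*T^2 + 4*A*B^2*C - 2*A*B^2*e - 2*A*B^2*T - 12*A*B*C^2 - 8*A*B*C*e -
    8*A*B*C*T - 12*A*B*e^2 - 12*A*B*e*T + 12*A*B*n - 12*A*B*T^2 - 2*A*C^2*e - 2*A*C^2*T +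
    4*A*C*e^2 + 4*A*C*e*T - 4*A*C*n + 4*A*C*T^2 - 2*A*e^3 - 2*A*e^2*T + 4*A*e*n - 2*A*e*T^2 +
    2*A*n*T - 2*A*T^3 + B^2*C^2 + 6*B^2*C*e + 6*B^2*C*T + B^2*e^2 + B^2*e*T - B^2*n + B^2*T^2 -
    2*B*C^2*e - 2*B*C^2*T + 4*B*C*e^2 + 4*B*C*e*T - 4*B*C*n + 4*B*C*T^2 - 2*B*e^3 - 2*B*e^2*T +
    4*B*e*n - 2*B*e*T^2 + 2*B*n*T - 2*B*T^3 + C^2*e^2 + C^2*e*T - C^2*n + C^2*T^2 + 6*C*e^3 +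
    6*C*e^2*T - 12*C*e*n + 6*C*e*T^2 - 6*C*n*T + 6*C*T^3 + e^4 + e^3*T - 3*e^2*n + e^2*T^2 -
    2*e*n*T + e*T^3 + n^2 - n*T^2 + T^4) +
    (r5 A B C e n * T + r6 A B C e n) := by
  unfold QQ r5 r6
  ring

variable {A B C e n : R} (h5 : r5 A B C e n = 0) (h6 : r6 A B C e n = 0)
include h5 h6

theorem id0 : (fv e n A * fv e n B * fv e n C) ^ 2 - 2 * e * fv e n A * fv e n B * fv e n C *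
    (A * fv e n B * fv e n C + B * fv e n A * fv e n C - C * fv e n A * fv e n B) +
    2 * (e ^ 2 - 4 * n) * ((A * fv e n B * fv e n C) ^ 2 + (B * fv e n A * fv e n C) ^ 2 -
      (C * fv e n A * fv e n B) ^ 2) = 0 := by
  unfold r5 at h5
  unfold r6 at h6
  unfold fv
  linear_combination (2*A^3*B^2*C^2 - 2*A^3*B^2*n - 8*A^3*B*C*n + 4*A^3*B*e*n - 2*A^3*C^2*n - 12*A^3*C*e*n -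
    2*A^3*e^2*n + 2*A^3*n^2 + 2*A^2*B^3*C^2 - 2*A^2*B^3*n - 2*A^2*B^2*C^3 + A^2*B^2*C^2*e -
    12*A^2*B^2*C*n + 8*A^2*B^2*e*n + 32*A^2*B*C^2*n + 24*A^2*B*e^2*n - 24*A^2*B*n^2 +
    2*A^2*C^3*n + 16*A^2*C^2*e*n - 8*A^2*C*e^2*n + 4*A^2*C*n^2 + 4*A^2*e^3*n - 9*A^2*e*n^2 -
    8*A*B^3*C*n + 4*A*B^3*e*n + 32*A*B^2*C^2*n + 24*A*B^2*e^2*n - 24*A*B^2*n^2 - 24*A*B*C^3*n -
    32*A*B*C*e^2*n + 32*A*B*C*n^2 + 16*A*B*e^3*n - 28*A*B*e*n^2 - 4*A*C^3*e*n + 8*A*C^2*e^2*n -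
    8*A*C^2*n^2 - 16*A*C*e^3*n + 28*A*C*e*n^2 - 2*B^3*C^2*n - 12*B^3*C*e*n - 2*B^3*e^2*n +
    2*B^3*n^2 + 2*B^2*C^3*n + 16*B^2*C^2*e*n - 8*B^2*C*e^2*n + 4*B^2*C*n^2 + 4*B^2*e^3*n -
    9*B^2*e*n^2 - 4*B*C^3*e*n + 8*B*C^2*e^2*n - 8*B*C^2*n^2 - 16*B*C*e^3*n + 28*B*C*e*n^2 +
    2*C^3*e^2*n - 2*C^3*n^2 + 12*C^2*e^3*n - 25*C^2*e*n^2 - 4*C*e^2*n^2 + 4*C*n^3 - e^3*n^2 +
    2*e*n^3) * h5 +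
    (-12*A^3*B^2*C - 2*A^3*B^2*e + 4*A^3*B*C^2 - 8*A^3*B*C*e + 4*A^3*B*e^2 - 4*A^3*B*n -
    2*A^3*C^2*e - 12*A^3*C*e^2 + 12*A^3*C*n - 2*A^3*e^3 + 4*A^3*e*n - 12*A^2*B^3*C - 2*A^2*B^3*e
    + 21*A^2*B^2*C^2 - 16*A^2*B^2*C*e + 8*A^2*B^2*e^2 - 9*A^2*B^2*n - 4*A^2*B*C^3 +
    32*A^2*B*C^2*e - 4*A^2*B*C*n + 24*A^2*B*e^3 - 48*A^2*B*e*n + 2*A^2*C^3*e + 16*A^2*C^2*e^2 -
    17*A^2*C^2*n - 8*A^2*C*e^3 + 12*A^2*C*e*n + 4*A^2*e^4 - 13*A^2*e^2*n + 5*A^2*n^2 +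
    4*A*B^3*C^2 - 8*A*B^3*C*e + 4*A*B^3*e^2 - 4*A*B^3*n - 4*A*B^2*C^3 + 32*A*B^2*C^2*e -
    4*A*B^2*C*n + 24*A*B^2*e^3 - 48*A*B^2*e*n - 24*A*B*C^3*e + 4*A*B*C^2*n - 32*A*B*C*e^3 +
    64*A*B*C*e*n + 16*A*B*e^4 - 44*A*B*e^2*n + 12*A*B*n^2 - 4*A*C^3*e^2 + 4*A*C^3*n +
    8*A*C^2*e^3 - 16*A*C^2*e*n - 16*A*C*e^4 + 44*A*C*e^2*n - 12*A*C*n^2 - 2*B^3*C^2*e -
    12*B^3*C*e^2 + 12*B^3*C*n - 2*B^3*e^3 + 4*B^3*e*n + 2*B^2*C^3*e + 16*B^2*C^2*e^2 -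
    17*B^2*C^2*n - 8*B^2*C*e^3 + 12*B^2*C*e*n + 4*B^2*e^4 - 13*B^2*e^2*n + 5*B^2*n^2 -
    4*B*C^3*e^2 + 4*B*C^3*n + 8*B*C^2*e^3 - 16*B*C^2*e*n - 16*B*C*e^4 + 44*B*C*e^2*n -
    12*B*C*n^2 + 2*C^3*e^3 - 4*C^3*e*n + 12*C^2*e^4 - 37*C^2*e^2*n + 13*C^2*n^2 - 4*C*e^3*n +
    8*C*e*n^2 - e^4*n + 3*e^2*n^2 - n^3) * h6

theorem id1 : A * (n - A ^ 2) * (fv e n B * fv e n C) ^ 2 +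
    B * (n - B ^ 2) * (fv e n A * fv e n C) ^ 2 - C * (n - C ^ 2) * (fv e n A * fv e n B) ^ 2 = 0 := by
  unfold r5 at h5
  unfold r6 at h6
  unfold fv
  linear_combination (-A^2*B*e*n + A^2*C*e*n - A*B^2*e*n - 4*A*B*C^2*n - 4*A*B*C*e*n - 4*A*B*e^2*n + 4*A*B*n^2 -
    A*C^2*e*n - A*e^3*n + 2*A*e*n^2 + B^2*C*e*n - B*C^2*e*n - B*e^3*n + 2*B*e*n^2 + C*e^3*n -
    2*C*e*n^2) * h5 +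
    (A^2*B^2*C - A^2*B*C^2 - A^2*B*e^2 + A^2*B*n + A^2*C*e^2 - A^2*C*n - A*B^2*C^2 - A*B^2*e^2 +
    A*B^2*n - 4*A*B*C^2*e - 4*A*B*C*e^2 + 4*A*B*C*n - 4*A*B*e^3 + 8*A*B*e*n - A*C^2*e^2 +
    A*C^2*n - A*e^4 + 3*A*e^2*n - A*n^2 + B^2*C*e^2 - B^2*C*n - B*C^2*e^2 + B*C^2*n - B*e^4 +
    3*B*e^2*n - B*n^2 + C*e^4 - 3*C*e^2*n + C*n^2) * h6

theorem id2 : (((n + A * B) * fv e n C) ^ 2 + 2 * ((n + A * B) * fv e n C) *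
    (2 * n * (A - C) * (B - C)) - (2 * n * (A - C) * (B - C)) ^ 2) * fv e n A =
    fv e n C * kk A B C e n ^ 2 := by
  unfold r5 at h5
  unfold r6 at h6
  unfold fv kk
  linear_combination (A^2*C*n + A^2*e*n - A*C^2*n + A*e^2*n - A*n^2 - C^2*e*n - C*e^2*n + C*n^2) * h5 +
    (A^2*C*e + A^2*e^2 - A^2*n - A*C^2*e + A*e^3 - 2*A*e*n - C^2*e^2 + C^2*n - C*e^3 + 2*C*e*n) * h6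

theorem id3 : (n + A * B) ^ 2 * (n - A * C) * (n - B * C) * fv e n A * fv e n B * fv e n C -
    4 * n * (n + A * B) * (fv e n C ^ 2 * ((A * fv e n B) ^ 2 + (B * fv e n A) ^ 2 -
      A * fv e n B * (B * fv e n A)) - C ^ 2 * fv e n A ^ 2 * fv e n B ^ 2) +
    4 * n ^ 2 * (A - C) * (B - C) * (fv e n C * ((A * fv e n B) ^ 2 + (B * fv e n A) ^ 2 -
      A * fv e n B * (B * fv e n A)) +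
      C * fv e n A * fv e n B * (A * fv e n B + B * fv e n A)) = 0 := by
  unfold r5 at h5
  unfold r6 at h6
  unfold fv
  linear_combination (A^3*B^3*C*n + 4*A^3*B^2*C^2*n + A^3*B^2*C*e*n - 3*A^3*B^2*n^2 - 12*A^3*B*C*n^2 +
    6*A^3*B*e*n^2 - 3*A^3*C^2*n^2 - 18*A^3*C*e*n^2 - 3*A^3*e^2*n^2 + 3*A^3*n^3 + 4*A^2*B^3*C^2*n
    + A^2*B^3*C*e*n - 3*A^2*B^3*n^2 - 5*A^2*B^2*C^3*n + A^2*B^2*C^2*e*n + A^2*B^2*C*e^2*n -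
    20*A^2*B^2*C*n^2 + 13*A^2*B^2*e*n^2 + 52*A^2*B*C^2*n^2 - 4*A^2*B*C*e*n^2 + 34*A^2*B*e^2*n^2
    - 34*A^2*B*n^3 + 5*A^2*C^3*n^2 + 36*A^2*C^2*e*n^2 - 7*A^2*C*e^2*n^2 + 7*A^2*C*n^3 +
    6*A^2*e^3*n^2 - 12*A^2*e*n^3 - 12*A*B^3*C*n^2 + 6*A*B^3*e*n^2 + 52*A*B^2*C^2*n^2 -
    4*A*B^2*C*e*n^2 + 34*A*B^2*e^2*n^2 - 34*A*B^2*n^3 - 60*A*B*C^3*n^2 - 29*A*B*C^2*e*n^2 -
    84*A*B*C*e^2*n^2 + 83*A*B*C*n^3 + 13*A*B*e^3*n^2 - 27*A*B*e*n^3 - 10*A*C^3*e*n^2 +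
    17*A*C^2*e^2*n^2 - 17*A*C^2*n^3 - 28*A*C*e^3*n^2 + 55*A*C*e*n^3 - 3*A*e^4*n^2 + 8*A*e^2*n^3
    - 2*A*n^4 - 3*B^3*C^2*n^2 - 18*B^3*C*e*n^2 - 3*B^3*e^2*n^2 + 3*B^3*n^3 + 5*B^2*C^3*n^2 +
    36*B^2*C^2*e*n^2 - 7*B^2*C*e^2*n^2 + 7*B^2*C*n^3 + 6*B^2*e^3*n^2 - 12*B^2*e*n^3 -
    10*B*C^3*e*n^2 + 17*B*C^2*e^2*n^2 - 17*B*C^2*n^3 - 28*B*C*e^3*n^2 + 55*B*C*e*n^3 -
    3*B*e^4*n^2 + 8*B*e^2*n^3 - 2*B*n^4 + 5*C^3*e^2*n^2 - 5*C^3*n^3 + 30*C^2*e^3*n^2 -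
    60*C^2*e*n^3 + 5*C*e^4*n^2 - 16*C*e^2*n^3 + 6*C*n^4 - e^3*n^3 + 2*e*n^4) * h5 +
    (A^3*B^3*C^2 + A^3*B^3*C*e + A^3*B^2*C^2*e + A^3*B^2*C*e^2 - 19*A^3*B^2*C*n - 3*A^3*B^2*e*n +
    6*A^3*B*C^2*n - 12*A^3*B*C*e*n + 6*A^3*B*e^2*n - 6*A^3*B*n^2 - 3*A^3*C^2*e*n -
    18*A^3*C*e^2*n + 18*A^3*C*n^2 - 3*A^3*e^3*n + 6*A^3*e*n^2 + A^2*B^3*C^2*e + A^2*B^3*C*e^2 -
    19*A^2*B^3*C*n - 3*A^2*B^3*e*n + A^2*B^2*C^2*e^2 + 40*A^2*B^2*C^2*n + A^2*B^2*C*e^3 -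
    21*A^2*B^2*C*e*n + 13*A^2*B^2*e^2*n - 13*A^2*B^2*n^2 - 10*A^2*B*C^3*n + 52*A^2*B*C^2*e*n -
    4*A^2*B*C*e^2*n + 4*A^2*B*C*n^2 + 34*A^2*B*e^3*n - 68*A^2*B*e*n^2 + 5*A^2*C^3*e*n +
    36*A^2*C^2*e^2*n - 36*A^2*C^2*n^2 - 7*A^2*C*e^3*n + 14*A^2*C*e*n^2 + 6*A^2*e^4*n -
    18*A^2*e^2*n^2 + 6*A^2*n^3 + 6*A*B^3*C^2*n - 12*A*B^3*C*e*n + 6*A*B^3*e^2*n - 6*A*B^3*n^2 -
    10*A*B^2*C^3*n + 52*A*B^2*C^2*e*n - 4*A*B^2*C*e^2*n + 4*A*B^2*C*n^2 + 34*A*B^2*e^3*n -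
    68*A*B^2*e*n^2 - 60*A*B*C^3*e*n - 29*A*B*C^2*e^2*n + 29*A*B*C^2*n^2 - 84*A*B*C*e^3*n +
    167*A*B*C*e*n^2 + 13*A*B*e^4*n - 40*A*B*e^2*n^2 + 14*A*B*n^3 - 10*A*C^3*e^2*n + 10*A*C^3*n^2
    + 17*A*C^2*e^3*n - 34*A*C^2*e*n^2 - 28*A*C*e^4*n + 83*A*C*e^2*n^2 - 27*A*C*n^3 - 3*A*e^5*n +
    11*A*e^3*n^2 - 7*A*e*n^3 - 3*B^3*C^2*e*n - 18*B^3*C*e^2*n + 18*B^3*C*n^2 - 3*B^3*e^3*n +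
    6*B^3*e*n^2 + 5*B^2*C^3*e*n + 36*B^2*C^2*e^2*n - 36*B^2*C^2*n^2 - 7*B^2*C*e^3*n +
    14*B^2*C*e*n^2 + 6*B^2*e^4*n - 18*B^2*e^2*n^2 + 6*B^2*n^3 - 10*B*C^3*e^2*n + 10*B*C^3*n^2 +
    17*B*C^2*e^3*n - 34*B*C^2*e*n^2 - 28*B*C*e^4*n + 83*B*C*e^2*n^2 - 27*B*C*n^3 - 3*B*e^5*n +
    11*B*e^3*n^2 - 7*B*e*n^3 + 5*C^3*e^3*n - 10*C^3*e*n^2 + 30*C^2*e^4*n - 90*C^2*e^2*n^2 +
    30*C^2*n^3 + 5*C*e^5*n - 21*C*e^3*n^2 + 17*C*e*n^3 - e^4*n^2 + 3*e^2*n^3 - n^4) * h6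

end Ring

theorem r5_symm {R : Type*} [CommRing R] (A B C e n : R) : r5 B A C e n = r5 A B C e n := by
  unfold r5
  ring

theorem r6_symm {R : Type*} [CommRing R] (A B C e n : R) : r6 B A C e n = r6 A B C e n := by
  unfold r6
  ring

theorem rem_zero {K : Type*} [Field K] {A B D e n : K}
    (h : X ^ 2 - C e * X + C n ∣ QQ (C A) (C B) (C D) X) :
    r5 A B D e n = 0 ∧ r6 A B D e n = 0 := by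
  rw [div_rem (C A) (C B) (C D) (C e) (C n) X, dvd_add_right (dvd_mul_right _ _),
    show r5 (C A) (C B) (C D) (C e) (C n) = C (r5 A B D e n) by simp [r5, map_ofNat],
    show r6 (C A) (C B) (C D) (C e) (C n) = C (r6 A B D e n) by simp [r6, map_ofNat]] at h
  have h1 : (X ^ 2 - C e * X + C n).degree = 2 := by compute_degree!
  have h2 := eq_zero_of_dvd_of_degree_lt h (h1 ▸ degree_linear_lt)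
  exact ⟨by simpa using congrArg (coeff · 1) h2, by simpa using congrArg (coeff · 0) h2⟩

end Pool.Agent.P.MP_50039c_nt.RS.Q2
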