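import Pool.Agent.P.MP_50039c_nt.RS.Q2B

/-! Cubic factors of the sextic: the equations of the resolvent. -/

set_option autoImplicit false

namespace Pool.Agent.P.MP_50039c_nt.RS.Q3

open Polynomial LV

variable {K : Type*} [Field K]

/-- The norm of `X + Y - Z`. -/
theorem norm_sq {A B D e f h : K}
    (hd : X ^ 3 + C e * X ^ 2 + C f * X + C h ∣ QQ (C A) (C B) (C D) X) :
    ∃ M : K, M ^ 2 = 512 * ((A - D) * (B - D)) ^ 3 * h ^ 2 *
      (A ^ 3 - e * A ^ 2 + f * A - h) * (B ^ 3 - e * B ^ 2 + f * B - h) := by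
  let N : Matrix (Fin 3) (Fin 3) K := !![0, 0, -h; 1, 0, -f; 0, 1, -e]
  have h0 : aeval N (X ^ 3 + C e * X ^ 2 + C f * X + C h) = 0 := by
    simp only [map_add, map_mul, aeval_X, aeval_C, Algebra.algebraMap_eq_smul_one, N,
      Matrix.one_fin_three, pow_succ, pow_zero]
    ext i j
    fin_cases i <;> fin_cases j <;> simp <;> ring
  have h1 : aeval N (QQ (C A) (C B) (C D) X) = 0 := by
    obtain ⟨g, hg⟩ := hd
    rw [hg, map_mul, h0, zero_mul]
  have h2 : ∀ Z : K, (aeval N (X + C Z)).det = Z ^ 3 - e * Z ^ 2 + f * Z - h := fun Z => by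
    simp [Algebra.algebraMap_eq_smul_one, N, Matrix.det_fin_three]
    ring
  have h3 : ((X - C A) * (X + C B) * (X + C D) + (X - C B) * (X + C A) * (X + C D) -
      (X - C D) * (X + C A) * (X + C B)) ^ 2 = QQ (C A) (C B) (C D) X +
      C (8 * ((A - D) * (B - D))) * (X + C 0) ^ 2 * (X + C A) * (X + C B) := by
    simp only [QQ, map_mul, map_sub, map_ofNat, map_zero]
    ring
  have h4 := congrArg (fun p => (aeval N p).det) h3
  rw [map_pow, Matrix.det_pow, map_add (aeval N) (QQ _ _ _ _), h1, zero_add, map_mul, map_mul,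
    map_mul, map_pow, Matrix.det_mul, Matrix.det_mul, Matrix.det_mul, Matrix.det_pow, h2, h2, h2,
    aeval_C, Algebra.algebraMap_eq_smul_one, Matrix.det_smul] at h4
  exact ⟨_, h4.trans (by rw [Fintype.card_fin, Matrix.det_one]; ring)⟩

/-- The cubic with prescribed values at `-A`, `-B`, `-1`. -/
def cub {R : Type*} [CommRing R] (A B p q r T : R) : R :=
  (T + A) * (T + B) * (T + 1) - 2 * p * A * (T + B) * (T + 1) - 2 * q * B * (T + A) * (T + 1) -
    2 * r * (T + A) * (T + B)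

theorem lagr [CharZero K] {A B : K} (a0 : A ≠ 0) (b0 : B ≠ 0) (ab : A - B ≠ 0) (a1 : A - 1 ≠ 0)
    (b1 : B - 1 ≠ 0) (e f h : K) : ∃ p q r : K, e = A + B + 1 - 2 * p * A - 2 * q * B - 2 * r ∧
      f = A * B + A + B - 2 * p * A * (B + 1) - 2 * q * B * (A + 1) - 2 * r * (A + B) ∧
      h = A * B * (1 - 2 * (p + q + r)) := by
  refine ⟨(A ^ 3 - e * A ^ 2 + f * A - h) / (2 * A * (A - B) * (A - 1)),
    -(B ^ 3 - e * B ^ 2 + f * B - h) / (2 * B * (A - B) * (B - 1)),
    (1 - e + f - h) / (2 * (A - 1) * (B - 1)), ?_, ?_, ?_⟩ <;> field_simp <;> ring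

theorem cofactor {A B e f h : K}
    (hd : X ^ 3 + C e * X ^ 2 + C f * X + C h ∣ QQ (C A) (C B) 1 X) : ∃ e' f' h' : K,
      QQ (C A) (C B) 1 X = (X ^ 3 + C e * X ^ 2 + C f * X + C h) *
        (X ^ 3 + C e' * X ^ 2 + C f' * X + C h') := by
  obtain ⟨g, hg⟩ := hd
  have m1 : (X ^ 3 + C e * X ^ 2 + C f * X + C h).Monic := by monicity!
  have d1 : (X ^ 3 + C e * X ^ 2 + C f * X + C h).natDegree = 3 := by compute_degree!
  have e2 : QQ (C A) (C B) 1 X = X ^ 6 + C (6 - 2 * A - 2 * B) * X ^ 5 +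
      C (A ^ 2 + B ^ 2 + 1 + 4 * A + 4 * B - 12 * A * B) * X ^ 4 +
      C (6 * A ^ 2 + 6 * B ^ 2 - 8 * A * B - 2 * A - 2 * B - 2 * A ^ 2 * B - 2 * A * B ^ 2) * X ^ 3 +
      C (4 * A * B ^ 2 + 4 * A ^ 2 * B - 12 * A * B + A ^ 2 + B ^ 2 + A ^ 2 * B ^ 2) * X ^ 2 +
      C (6 * A ^ 2 * B ^ 2 - 2 * A ^ 2 * B - 2 * A * B ^ 2) * X + C (A ^ 2 * B ^ 2) := by
    simp only [QQ, map_add, map_sub, map_mul, map_pow, map_ofNat, map_one]
    ring
  have m2 : (QQ (C A) (C B) 1 X).Monic := by rw [e2]; monicity!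
  have d2 : (QQ (C A) (C B) 1 X).natDegree = 6 := by rw [e2]; compute_degree!
  have m3 : g.Monic := m1.of_mul_monic_left (hg ▸ m2)
  have d3 : g.natDegree = 3 := by
    rw [hg, m1.natDegree_mul m3] at d2
    omega
  refine ⟨g.coeff 2, g.coeff 1, g.coeff 0, hg.trans (congrArg _ ?_)⟩
  conv_lhs => rw [m3.as_sum, d3]
  simp [Finset.sum_range_succ]
  ring

/-- The equations of a splitting into two cubics. -/
structure Eqs (A B p q r p' q' r' : K) : Prop where
  hp : p * p' = 1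
  hq : q * q' = 1
  hr : r * r' = -1
  hs : (1 - 2 * (p + q + r)) * (1 - 2 * (p' + q' + r')) = 1
  hu : (p * q' + q * p') * ((A + B) / (B - A)) - (r * p' + p * r') * ((1 + A) / (A - 1)) =
    p * (1 - (p' + q' + r')) + (1 - (p + q + r)) * p'
  hw : (r * p' + p * r') * ((1 + A) / (A - 1)) - (r * q' + q * r') * ((B + 1) / (1 - B)) =
    r * (1 - (p' + q' + r')) + (1 - (p + q + r)) * r'

theorem eqs [CharZero K] {A B p q r p' q' r' : K} (a0 : A ≠ 0) (b0 : B ≠ 0) (ab : A - B ≠ 0)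
    (a1 : A - 1 ≠ 0) (b1 : B - 1 ≠ 0) (h : QQ (C A) (C B) 1 X =
      cub (C A) (C B) (C p) (C q) (C r) X * cub (C A) (C B) (C p') (C q') (C r') X) :
    Eqs A B p q r p' q' r' := by
  have ba : B - A ≠ 0 := fun e => ab (by linear_combination -e)
  have b2 : 1 - B ≠ 0 := fun e => b1 (by linear_combination -e)
  have v := fun T => congrArg (eval T) h
  have d := fun T => congrArg (fun g => eval T (derivative g)) h
  simp only [QQ, cub, derivative_add, derivative_sub, derivative_mul, derivative_pow, derivative_X,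
    derivative_C, derivative_one, derivative_ofNat, eval_add, eval_sub, eval_mul, eval_pow, eval_X,
    eval_C, eval_one, eval_ofNat, eval_zero, Nat.cast_ofNat, Nat.add_one_sub_one] at v d
  have hp : p * p' = 1 := mul_left_cancel₀ (a := (2 * A * (A - B) * (A - 1)) ^ 2)
    (by simp [a0, ab, a1]) (by linear_combination -v (-A))
  have hr : r * r' = -1 := mul_left_cancel₀ (a := (2 * (A - 1) * (B - 1)) ^ 2)
    (by simp [a1, b1]) (by linear_combination -v (-1))
  refine ⟨hp, mul_left_cancel₀ (a := (2 * B * (A - B) * (B - 1)) ^ 2)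
    (by simp [b0, ab, b1]) (by linear_combination -v (-B)), hr,
    mul_left_cancel₀ (a := (A * B) ^ 2) (by simp [a0, b0]) (by linear_combination -v 0), ?_, ?_⟩
  · rw [mul_div_assoc', mul_div_assoc', div_sub_div _ _ ba a1, div_eq_iff (mul_ne_zero ba a1)]
    refine mul_left_cancel₀ (a := 2 * A * (B - A) * (A - 1)) (by simp [a0, ba, a1]) ?_
    linear_combination -d (-A) + 4 * A * (B - A) * (1 - A) *
      ((B - A) * (1 - A) - 2 * A * (B + 1 - 2 * A)) * hp
  · rw [mul_div_assoc', mul_div_assoc', div_sub_div _ _ a1 b2, div_eq_iff (mul_ne_zero a1 b2)]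
    refine mul_left_cancel₀ (a := 2 * (A - 1) * (B - 1)) (by simp [a1, b1]) ?_
    linear_combination d (-1) - 4 * (A - 1) * (B - 1) *
      ((A - 1) * (B - 1) - 2 * (A + B - 2)) * hr

end Pool.Agent.P.MP_50039c_nt.RS.Q3
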