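import Pool.Agent.P.MP_6f117a_ag.RR

/-! The sharp form of the inequality of Riemann at one place. -/

set_option autoImplicit false

namespace Pool.Agent.P.MP_50039c_nt.RS

open WithZero Polynomial Module Pool.Agent.P.MP_6f117a_ag
open scoped IntermediateField

universe u

variable {L K : Type u} [Field L] [Field K] [Algebra L K] [IsAlgClosed L] [CharZero L] [FF L K]

theorem dual_sharp {t : K} (ht : Transcendental L t) {D : Derivation L K K} (hD : D t = 1)
    {n : ℕ} {g g' : Fin n → K} (hg : LinearIndependent L⟮t⟯ g') (d : ℕ)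
    (tr : ∀ i j, Algebra.trace L⟮t⟯ K (g' i * g j) = if j = i then 1 else 0)
    (g2 : ∀ i (P : Place L K), 1 < P.v t → P.v (g' i) * P.v t ^ d ≤ 1)
    {i₀ : Fin n} {q : L[X]} (q0 : q ≠ 0) (hq : q.natDegree = d) (d0 : 0 < d)
    (g0 : g i₀ = aeval t q) (C : Submodule L K) [FiniteDimensional L C]
    (hC : Submodule.span L (Set.range fun p : ℕ × Fin n => t ^ p.1 * g p.2) ⊔ C = regSub L t) :
    (d - 1) * n + 1 ≤ genus L K + finrank L C := by
  have D0 : D ≠ 0 := by rintro rfl; simp at hD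
  obtain ⟨P₀, hP₀⟩ := exists_pole ht
  obtain ⟨l, l1, l2⟩ := exists_lam P₀ hP₀
  let W := Submodule.span L (Set.range fun p : Fin (d - 1) × Fin n => t ^ (p.1 : ℕ) * g' p.2)
  have : FiniteDimensional L W := FiniteDimensional.span_of_finite L (Set.finite_range _)
  obtain ⟨β, hβ⟩ : ∃ β : K →ₗ[L] K →ₗ[L] L, ∀ x y, β x y = l (Algebra.trace L⟮t⟯ K (x * y)) :=
    ⟨(LinearMap.mul L K).compr₂ (l.comp ((Algebra.trace L⟮t⟯ K).restrictScalars L)),
      fun _ _ => rfl⟩
  have sm : ∀ (k : ℕ) (x : K), Algebra.trace L⟮t⟯ K (t ^ k * x) =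
      pol L t (X ^ k) * Algebra.trace L⟮t⟯ K x := fun k x => by
    rw [← smul_eq_mul (pol L t _), ← map_smul, IntermediateField.smul_def, coe_pol]; simp
  have z : ∀ x ∈ W, ∀ y ∈ Submodule.span L (Set.range fun p : ℕ × Fin n => t ^ p.1 * g p.2),
      β x y = 0 := fun x hx y hy => by
    refine (Submodule.span_le (p := LinearMap.ker (β x))).2 ?_ hy
    rintro _ ⟨p, rfl⟩
    refine (Submodule.span_le (p := LinearMap.ker (β.flip _))).2 ?_ hx
    rintro _ ⟨p', rfl⟩
    change β _ _ = 0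
    rw [hβ, mul_mul_mul_comm, ← pow_add, sm, tr]
    split_ifs
    · rw [mul_one, l1]
    · simp
  let Φ := β.domRestrict₁₂ W C
  have h1 := Φ.finrank_range_add_finrank_ker
  have p0 : pol L t q ≠ 0 := fun e => q0 (pol_inj ht (by rw [e, map_zero]))
  have tq : ∀ (Y : L[X]) i, Algebra.trace L⟮t⟯ K (g' i * aeval t Y) =
      if i₀ = i then pol L t Y / pol L t q else 0 := fun Y i => by
    rw [show g' i * aeval t Y = (pol L t Y / pol L t q) • (g' i * g i₀) by
      rw [g0, IntermediateField.smul_def, smul_eq_mul, IntermediateField.coe_div, coe_pol, coe_pol]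
      field_simp [aeval_ne ht q0], map_smul, tr]
    split_ifs <;> simp
  obtain ⟨Y, Y1, Y0⟩ := (Submodule.ne_bot_iff _).1 (LinearMap.ker_ne_bot_of_finrank_lt
    (f := LinearMap.pi fun p : Fin (d - 1) => l ∘ₗ LinearMap.mulLeft L
      (pol L t (X ^ (p : ℕ)) / pol L t q) ∘ₗ (pol L t).toLinearMap ∘ₗ (degreeLT L d).subtype) (by
        rw [finrank_eq_card_basis (degreeLT.basis L d)]
        simp
        omega))
  obtain ⟨a, ha, c, hc, hy⟩ := Submodule.mem_sup.1 (hC.ge (Reg.aeval t Y.1))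
  have c0 : c ≠ 0 := by
    rintro rfl
    rw [add_zero] at hy
    have h1 : Submodule.span L (Set.range fun p : ℕ × Fin n => t ^ p.1 * g p.2) ≤
        (LinearMap.range (pol L t).toLinearMap).comap (((Algebra.trace L⟮t⟯ K).restrictScalars L) ∘ₗ
          LinearMap.mulLeft L (g' i₀)) := Submodule.span_le.2 (by
      rintro _ ⟨p, rfl⟩
      change Algebra.trace L⟮t⟯ K (g' i₀ * _) ∈ LinearMap.range (pol L t).toLinearMap
      rw [mul_left_comm, sm, tr]
      split_ifs
      · exact ⟨_, (mul_one _).symm⟩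
      · simp)
    obtain ⟨p, hp⟩ := h1 (hy ▸ ha)
    change pol L t p = Algebra.trace L⟮t⟯ K (g' i₀ * _) at hp
    rw [tq, if_pos rfl, eq_div_iff p0, ← map_mul] at hp
    exact Y0 (Subtype.ext (eq_zero_of_dvd_of_degree_lt ⟨p, (pol_inj ht hp).symm.trans (mul_comm _ _)⟩
      (by rw [degree_eq_natDegree q0, hq]; exact mem_degreeLT.1 Y.2)))
  have h2 : finrank L (LinearMap.range Φ) < finrank L C := by
    refine (Submodule.finrank_lt fun e => c0 (congrArg Subtype.val
      ((Module.forall_dual_apply_eq_zero_iff L (⟨c, hc⟩ : C)).1 fun φ => ?_))).trans_eq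
        Subspace.dual_finrank_eq
    obtain ⟨⟨x, hx⟩, rfl⟩ := e.ge (Submodule.mem_top (x := φ))
    change β x c = 0
    rw [eq_sub_of_add_eq' hy, map_sub, z x hx a ha, sub_zero]
    refine (Submodule.span_le (p := LinearMap.ker (β.flip _))).2 ?_ hx
    rintro _ ⟨p, rfl⟩
    change β _ _ = 0
    rw [hβ, mul_assoc, sm, tq]
    split_ifs
    · rw [mul_div_assoc', mul_div_right_comm]
      exact congrFun (LinearMap.mem_ker.1 Y1) p.1
    · simp
  have := fd_can D0
  have h3 : finrank L ((LinearMap.ker Φ).map W.subtype) ≤ finrank L (can D) := by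
    refine Submodule.finrank_mono ?_
    rintro _ ⟨⟨x, hx⟩, h0, rfl⟩
    refine mem_can.2 fun P => ?_
    change P.v x ≤ _
    have t0 : P.v t ≠ 0 := by simpa using trans_ne ht
    rcases le_or_gt (P.v t) 1 with h | h
    · have z2 : ∀ y, Reg L t y → β x y = 0 := fun y hy => by
        obtain ⟨a, ha, c, hc, rfl⟩ := Submodule.mem_sup.1 (hC.ge hy)
        rw [map_add, z x hx a ha, zero_add]
        exact DFunLike.congr_fun (LinearMap.mem_ker.1 h0) ⟨c, hc⟩
      obtain ⟨a, ha⟩ := P.res h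
      have s0 := trans_ne (trans_sub ht a)
      have := trace_lemma ht (h := x) (fun y hy => l2 _ fun k => by
        rw [← sm, mul_left_comm, ← hβ, z2 _ (hy.pow_mul k)]) P ha
      have v0 : P.v (t - algebraMap L K a) ≠ 0 := by simpa using s0
      rw [P.κ_eq (by simpa using hD) s0 ha.ne, ← lt_mul_exp_iff_le exp_ne_zero, ← exp_add,
        sub_add_cancel, exp_neg, exp_log v0, ← one_div, lt_div_iff₀ (zero_lt_iff.2 v0), ← map_mul]
      exact this
    · refine (Submodule.span_le (p := P.le (P.κ D))).2 ?_ hx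
      rintro _ ⟨p, rfl⟩
      change P.v _ ≤ _
      have h4 := g2 p.2 P h
      have h5 : 0 < log (P.v t) := (lt_log_iff_exp_lt t0).2 h
      have h6 := p.1.2
      rw [← le_div_iff₀ (zero_lt_iff.2 (pow_ne_zero _ t0))] at h4
      rw [P.κ_eq hD (trans_ne ht) h.ne', map_mul, map_pow]
      refine (mul_le_mul_right h4 _).trans ?_
      rw [← exp_log t0, ← exp_nsmul, ← exp_nsmul, one_div, ← exp_neg, ← exp_add, log_exp,
        exp_le_exp, nsmul_eq_mul, nsmul_eq_mul]
      have h7 : ((p.1 : ℕ) : ℤ) + 2 ≤ d := by omega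
      nlinarith
  rw [Submodule.finrank_map_subtype_eq] at h3
  rw [finrank_fam ht hg] at h1
  rw [genus_eq D0, ← h1]
  omega

theorem riem_core {t : K} (ht : Transcendental L t) (F : IntermediateField L K) (hF : L⟮t⟯ = F)
    {f f' : Fin (finrank F K) → K} (hf : LinearIndependent F f) (hf' : LinearIndependent F f')
    (tr : ∀ i j, Algebra.trace F K (f' i * f j) = if j = i then 1 else 0)
    (h : ∀ i (P : Place L K), 1 < P.v t → P.v (f i) ≤ 1 ∧ P.v (f' i) ≤ 1) {i₀ : Fin (finrank F K)}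
    (f0 : f i₀ = 1) (P : Place L K) (hP : 1 < P.v t) (k : ℕ) :
    ∃ V : Submodule L K, FiniteDimensional L V ∧ V ≤ P.le k ∧ (∀ Q : Place L K, Q ≠ P → V ≤ Q.le 0) ∧
      k + 1 ≤ finrank L V + genus L K := by
  classical
  subst hF
  obtain ⟨D, hD, -⟩ := exists_dt ht
  have D0 : D ≠ 0 := by rintro rfl; simp at hD
  obtain ⟨r, r0, hr⟩ := (model ht).exists_der_den ht D hD
  have D1 : r • D ≠ 0 := smul_ne_zero r0 D0
  have h0 : ∀ P : Place L K, P.v t ≤ 1 → P.κ (r • D) ≤ 0 := fun P hP =>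
    (log_le_iff_le_exp (by simpa using P.der_π_ne D1)).2
      ((model ht).v_der_le hr P hP _ P.v_π_le)
  obtain ⟨q, hq, d0, h1⟩ : ∃ q : L[X], q.Monic ∧ 0 < q.natDegree ∧ ∀ i, Reg L t (aeval t q * f i) := by
    obtain ⟨q, hq, h1⟩ := (model ht).exists_den' ht f
    exact ⟨X * q, monic_X.mul hq, by rw [natDegree_X_mul hq.ne_zero]; omega, fun i => by
      simpa [mul_assoc] using (h1 i).pow_mul 1⟩
  have q0 := aeval_ne ht hq.ne_zero
  let u : L⟮t⟯ˣ := Units.mk0 (pol L t q) fun e => q0 (by rw [← coe_pol, e]; rfl)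
  have hg : LinearIndependent L⟮t⟯ fun i => aeval t q * f i := by
    simpa [u, Units.smul_def, IntermediateField.smul_def, coe_pol, Pi.smul_def'] using
      hf.units_smul fun _ => u
  have hg' : LinearIndependent L⟮t⟯ fun i => (aeval t q)⁻¹ * f' i := by
    simpa [u, Units.smul_def, IntermediateField.smul_def, coe_pol, Pi.smul_def'] using
      hf'.units_smul fun _ => u⁻¹
  obtain ⟨C, c1, c2⟩ := IsModularLattice.exists_disjoint_and_sup_eq (a := Submodule.span L
    (Set.range fun p : ℕ × Fin _ => t ^ p.1 * (aeval t q * f p.2))) (b := regSub L t)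
    (Submodule.span_le.2 (by rintro _ ⟨p, rfl⟩; exact (h1 _).pow_mul _))
  have g2 : ∀ i (P : Place L K), 1 < P.v t → P.v (aeval t q * f i) ≤ P.v t ^ q.natDegree :=
    fun i P hP => by
      rw [map_mul, P.v_aeval_pole hP hq.ne_zero]; exact mul_le_of_le_one_right' (h i P hP).1
  have hC : C ≤ regSub L t := le_sup_right.trans c2.le
  have : FiniteDimensional L C := fd_of_bound C (genus L K + q.natDegree * finrank L⟮t⟯ K -
      ∑ P ∈ (finite_κ' D1).toFinset, P.κ (r • D) : ℤ).toNat fun V hV i => by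
    have := riemann ht D1 h0 hg q.natDegree h1 g2 V (hV.trans hC) (c1.mono_right hV)
      (finite_κ' D1).toFinset (by simp)
    rw [← Int.ofNat_le]
    refine le_trans ?_ (Int.self_le_toNat _)
    linarith [Int.natCast_nonneg (finrank L⟮t⟯ K)]
  have R2 := dual_sharp ht hD (g := fun i => aeval t q * f i) hg' q.natDegree (fun i j => by
    rw [mul_mul_mul_comm, inv_mul_cancel₀ q0, one_mul, tr]) (fun i P hP => by
      rw [map_mul, map_inv₀, P.v_aeval_pole hP hq.ne_zero, mul_right_comm,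
        inv_mul_cancel₀ (pow_ne_zero _ (zero_lt_one.trans hP).ne'), one_mul]
      exact (h i P hP).2) (i₀ := i₀) hq.ne_zero rfl d0 (by rw [f0, mul_one]) C c2
  generalize q.natDegree = d at *
  obtain ⟨Y, hY, eY⟩ := exists_poles ht
  choose m hm using fun P : Place L K => P.exists_le C
  obtain ⟨M, hM⟩ := Finite.exists_le fun Q : Y => max (m Q) k
  have t0 : ∀ P : Place L K, P.v t ≠ 0 := fun P => by simpa using trans_ne ht
  have hM' : ∀ Q : Place L K, 1 < Q.v t → (m Q : ℤ) ≤ (M + d) * log (Q.v t) ∧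
      (k : ℤ) ≤ (M + d) * log (Q.v t) := fun Q h => by
    have h1 := hM ⟨Q, (hY Q).2 h⟩
    have h2 : 0 < log (Q.v t) := (lt_log_iff_exp_lt (t0 Q)).2 h
    have h3 : (M : ℤ) ≤ (M + d) * log (Q.v t) := by nlinarith
    simp only at h1
    omega
  let A := Submodule.span L (Set.range fun p : Fin (M + 1) × Fin _ =>
    t ^ (p.1 : ℕ) * (aeval t q * f p.2))
  have : FiniteDimensional L A := FiniteDimensional.span_of_finite L (Set.finite_range _)
  have hA : finrank L (A ⊔ C : Submodule L K) = (M + 1) * finrank L⟮t⟯ K + finrank L C := by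
    rw [← finrank_fam ht hg, ← Submodule.finrank_sup_add_finrank_inf_eq,
      (c1.mono_left (Submodule.span_mono (by rintro _ ⟨p, rfl⟩; exact ⟨(p.1, p.2), rfl⟩))).eq_bot,
      finrank_bot, add_zero]
  have hB : A ⊔ C ≤ regSub L t :=
    sup_le (Submodule.span_le.2 (by rintro _ ⟨p, rfl⟩; exact (h1 _).pow_mul _)) hC
  obtain ⟨W, w1, w2, w3⟩ := step_many Y (fun Q => if Q = P then k else 0)
    (fun Q => (M + d) * log (Q.v t)) (A ⊔ C)
    (fun Q hQ => by
      have := (hM' Q ((hY Q).1 hQ)).2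
      split_ifs <;> omega)
    fun Q hQ => by
      have h := (hY Q).1 hQ
      refine sup_le (Submodule.span_le.2 ?_) fun x hx =>
        le_trans (hm Q hx) (exp_le_exp.2 (hM' Q h).1)
      rintro _ ⟨p, rfl⟩
      change Q.v _ ≤ _
      rw [map_mul, map_pow, ← Nat.cast_add, ← nsmul_eq_mul, exp_nsmul, exp_log (t0 Q), pow_add]
      exact mul_le_mul' (pow_le_pow_right₀ h.le (Nat.lt_succ_iff.1 p.1.2)) (g2 _ Q h)
  refine ⟨W, Submodule.finiteDimensional_of_le w1, by simpa using w2 P ((hY P).2 hP),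
    fun Q hQ x hx => ?_, ?_⟩
  · by_cases e : Q ∈ Y
    · simpa [hQ] using w2 Q e hx
    · exact hB (w1 hx) Q (not_lt.1 (mt (hY Q).2 e))
  · rw [Finset.sum_sub_distrib, ← Finset.mul_sum, eY, Finset.sum_ite_eq' Y P, if_pos ((hY P).2 hP),
      hA] at w3
    obtain ⟨d, rfl⟩ := Nat.exists_eq_add_of_lt d0
    rw [Nat.add_sub_cancel, ← Int.ofNat_le] at R2
    rw [← Int.ofNat_le]
    push_cast at R2 w3 ⊢
    linarith

theorem riem {ρ : K} (hρ : Transcendental L ρ) : ∃ P : Place L K, ∀ k : ℕ, ∃ V : Submodule L K,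
    FiniteDimensional L V ∧ V ≤ P.le k ∧ (∀ Q : Place L K, Q ≠ P → V ≤ Q.le 0) ∧
      k + 1 ≤ finrank L V + genus L K := by
  classical
  have := FF.fin ρ hρ
  have : CharZero L⟮ρ⟯ := charZero_of_injective_algebraMap (algebraMap L L⟮ρ⟯).injective
  let pb := Field.powerBasisOfFiniteOfSeparable L⟮ρ⟯ K
  let f := pb.basis.reindex (finCongr pb.finrank.symm)
  let f' := (Algebra.traceForm L⟮ρ⟯ K).dualBasis (traceForm_nondegenerate L⟮ρ⟯ K) f
  have fin : {a : L | ∃ i, ∃ P : Place L K, (P.v (f i) ≠ 1 ∨ P.v (f' i) ≠ 1) ∧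
      P.v (ρ - algebraMap L K a) < 1}.Finite := by
    refine (Set.finite_iUnion fun i => ((finite_supp (L := L) (f.ne_zero i)).union
      (finite_supp (L := L) (f'.ne_zero i))).biUnion
        (t := fun P => {a : L | P.v (ρ - algebraMap L K a) < 1}) fun P _ =>
        Set.Subsingleton.finite fun a ha b hb => by_contra fun h => ?_).subset ?_
    · have := P.v.map_sub_lt hb ha
      rw [sub_sub_sub_cancel_left, ← map_sub, P.v_const (sub_ne_zero.2 h)] at this
      exact this.false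
    · rintro a ⟨i, P, h1, h2⟩
      simp only [Set.mem_iUnion]
      exact ⟨i, P, h1, h2⟩
  obtain ⟨a, ha⟩ := fin.exists_notMem
  obtain ⟨P, hP⟩ := exists_pole (trans_inv (trans_sub hρ a))
  refine ⟨P, riem_core (trans_inv (trans_sub hρ a)) L⟮ρ⟯ (by rw [adjoin_inv, adjoin_sub])
    f.linearIndependent f'.linearIndependent
    (fun i j => LinearMap.BilinForm.apply_dualBasis_left (traceForm_nondegenerate L⟮ρ⟯ K) f i j)
    (fun i P hP => ?_) (i₀ := ⟨0, finrank_pos⟩) (by simp [f]) P hP⟩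
  rw [map_inv₀, one_lt_inv₀ (zero_lt_iff.2 (by simpa using trans_ne (trans_sub hρ a)))] at hP
  have : ¬(P.v (f i) ≠ 1 ∨ P.v (f' i) ≠ 1) := fun h => ha ⟨i, P, h, hP⟩
  push Not at this
  exact ⟨this.1.le, this.2.le⟩

end Pool.Agent.P.MP_50039c_nt.RS
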