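import Pool.Agent.P.MP_50039c_nt.RS.VA

/-! The resolvent surface is of general type. -/

set_option autoImplicit false
set_option linter.unusedSectionVars false

namespace Pool.Agent.P.MP_50039c_nt.RS

open MvPolynomial Pool.Agent.P.MP_6f117a_ag PJ LV
open scoped IntermediateField

universe u

variable {L K : Type u} [Field L] [Field K] [Algebra L K] {P : Loc L K} [CharZero L]
  {D E : Derivation L K K} {t G H U r ω : K}

/-- The homogeneous data at a point. -/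
structure Hd (P : Loc L K) (D E : Derivation L K K) (t G H U r ω : K) : Prop where
  t0 : t ≠ 0
  G0 : G ≠ 0
  H0 : H ≠ 0
  hu : U ^ 2 = r * cc 1 t
  hΦ : Ph 1 t (G ^ 2) (H ^ 2) r = 0
  N0 : 2 * U * Pr 1 t (G ^ 2) (H ^ 2) r ≠ 0
  hω : ω * (2 * U * Pr 1 t (G ^ 2) (H ^ 2) r) = H * jac D E t G - G * jac D E t H
  dom : ∀ k, Domi P (sys 1 t G H U r k)

/-- The conclusion at a point. -/
def Res (P : Loc L K) (D E : Derivation L K K) (t G H U r ω : K) : Prop :=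
  Out P D E (fun Z => ∀ k, Cov P Z (sys 1 t G H U r k)) [H * ω, t * H * ω, G * ω, t * G * ω]

theorem Hd.swap (h : Hd P D E t G H U r ω) : Hd P D E t H G U r (-ω) where
  t0 := h.t0
  G0 := h.H0
  H0 := h.G0
  hu := h.hu
  hΦ := by have := h.hΦ; simp only [Ph] at this ⊢; linear_combination this
  N0 := by have := h.N0; simp only [Pr] at this ⊢; rwa [add_comm (H ^ 2)]
  hω := by have := h.hω; simp only [Pr] at this ⊢; linear_combination -this
  dom k := (h.dom _).congr (sys_swap _ _ _ _ _ _ k)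

theorem Res.swap (h : Res P D E t H G U r (-ω)) : Res P D E t G H U r ω :=
  h.imp (fun _ hZ k => (hZ _).congr (sys_swap _ _ _ _ _ _ k)) (by simp)

theorem scaleV {m n s t G H U r : K} (m0 : m ≠ 0) (n0 : n ≠ 0) (k : Fin 9) :
    (Domi P (sys (m * s) (m * t) (n * G) (n * H) (m * n * U) (n ^ 2 * r) k) ↔
      Domi P (sys s t G H U r k)) ∧ ∀ Z, Cov P Z (sys s t G H U r k) →
        Cov P Z (sys (m * s) (m * t) (n * G) (n * H) (m * n * U) (n ^ 2 * r) k) := by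
  have := mul_ne_zero (pow_ne_zero (![1, 1, 0, 2, 1, 1, 1, 1, 1] k) m0)
    (pow_ne_zero (![0, 1, 2, 2, 2, 2, 2, 2, 2] k) n0)
  rw [sys_scale]
  exact ⟨dom_map this, fun Z => (cov_map this).2⟩

theorem Hd.caseA (n1 : S_N1 L) (n2 : S_N2 L) (n4 : S_N4 L) (h : Hd P D E t G H U r ω)
    (tO : t ∈ P.O) (gO : G / H ∈ P.O) (uO : U / H ∈ P.O) : Res P D E t G H U r ω := by
  have H0 := h.H0
  obtain ⟨g, rfl⟩ : ∃ g, G = H * g := ⟨G / H, by field_simp⟩
  obtain ⟨u, rfl⟩ : ∃ u, U = 1 * H * u := ⟨U / H, by field_simp⟩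
  obtain ⟨ρ, rfl⟩ : ∃ ρ, r = H ^ 2 * ρ := ⟨r / H ^ 2, by field_simp⟩
  rw [mul_div_cancel_left₀ _ H0] at gO
  rw [one_mul, mul_div_cancel_left₀ _ H0] at uO
  have sc := fun k => scaleV (P := P) (s := 1) (t := t) (G := g) (H := 1) (U := u) (r := ρ)
    one_ne_zero H0 k
  simp only [mul_one, one_mul t] at sc
  have hD := fun k => (sc k).1.1 (h.dom k)
  have hu : u ^ 2 = ρ * cc 1 t := mul_left_cancel₀ (pow_ne_zero 2 H0) (by linear_combination h.hu)
  have hΦ : Ph 1 t (g ^ 2) 1 ρ = 0 := mul_left_cancel₀ (pow_ne_zero 4 H0) (by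
    have := h.hΦ; simp only [Ph] at this ⊢; linear_combination this)
  have e : 2 * (1 * H * u) * Pr 1 t ((H * g) ^ 2) (H ^ 2) (H ^ 2 * ρ) =
      H ^ 3 * (2 * u * Pr 1 t (g ^ 2) 1 ρ) := by simp only [Pr]; ring
  have rO : ρ ∈ P.O := by
    by_contra hr
    obtain ⟨s, hs, s0, h1⟩ := hD 2
    simp only [sys, Matrix.cons_val, List.mem_cons, List.not_mem_nil, or_false, forall_eq_or_imp,
      forall_eq, one_pow] at hs h1
    rcases hs with rfl | rfl | rfl
    · exact hr (div_mul_cancel₀ ρ s0 ▸ mul_mem h1.2.2 (pow_mem gO 2))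
    · exact hr (by simpa using h1.2.2)
    have hm : s⁻¹ ∈ P.m := Loc.inv_m hr (by simpa using h1.2.1)
    obtain ⟨t₀, ht⟩ := P.res t tO
    obtain ⟨g₀, hg⟩ := P.res g gO
    obtain ⟨u₀, hu'⟩ := P.res u uO
    have a := at4 (c₃ := 0) ht hg hu' (by simpa using hm)
    have e1 := a.eq (X 2 ^ 2 * X 3 - cc 1 (X 0)) (by
      simp only [cc] at hu; simp [cc]; field_simp; linear_combination hu)
    have e2 := a.eq (Ph 1 (X 0) (X 1 ^ 2 * X 3) (X 3) 1) (by
      simp only [Ph] at hΦ; simp [Ph]; field_simp; linear_combination hΦ)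
    simp [cc, Ph] at e1 e2
    grind
  obtain ⟨t₀, ht⟩ := P.res t tO
  obtain ⟨g₀, hg⟩ := P.res g gO
  obtain ⟨u₀, hu'⟩ := P.res u uO
  obtain ⟨r₀, hr⟩ := P.res ρ rO
  refine (locA (η := H * ω) n1 n2 n4 ⟨hu, hΦ, right_ne_zero_of_mul (e ▸ h.N0),
    mul_left_cancel₀ (pow_ne_zero 2 H0) ?_, at4 ht hg hu' hr⟩ hD).mono
    (fun Z _ hZ k => (sc k).2 Z (hZ k)) ?_
  · have := h.hω
    rw [e] at this
    simp only [jac, Derivation.leibniz, smul_eq_mul] at this ⊢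
    linear_combination this
  · simp only [List.mem_cons, List.not_mem_nil, or_false, forall_eq_or_imp, forall_eq]
    exact ⟨⟨1, one_mem _, by ring⟩, ⟨t, tO, by ring⟩, ⟨g, gO, by ring⟩,
      ⟨_, mul_mem tO gO, by ring⟩⟩

theorem Hd.caseB (n3 : S_N3 L) (h : Hd P D E t G H U r ω) (hs : t⁻¹ ∈ P.m) (gO : G / H ∈ P.O)
    (uO : U / (t * H) ∈ P.O) : Res P D E t G H U r ω := by
  have H0 := h.H0
  have t0 := h.t0
  obtain ⟨g, rfl⟩ : ∃ g, G = H * g := ⟨G / H, by field_simp⟩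
  obtain ⟨u, rfl⟩ : ∃ u, U = t * H * u := ⟨U / (t * H), by field_simp⟩
  obtain ⟨ρ, rfl⟩ : ∃ ρ, r = H ^ 2 * ρ := ⟨r / H ^ 2, by field_simp⟩
  rw [mul_div_cancel_left₀ _ H0] at gO
  rw [mul_div_cancel_left₀ _ (mul_ne_zero t0 H0)] at uO
  have sc := fun k => scaleV (P := P) (s := t⁻¹) (t := 1) (G := g) (H := 1) (U := u) (r := ρ)
    t0 H0 k
  simp only [mul_one, mul_inv_cancel₀ t0] at sc
  have hu : u ^ 2 = ρ * cc t⁻¹ 1 := mul_left_cancel₀ (pow_ne_zero 2 H0) (by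
    have := h.hu; simp only [cc] at this ⊢; field_simp; field_simp at this; linear_combination this)
  have hΦ : Ph t⁻¹ 1 (g ^ 2) 1 ρ = 0 := mul_left_cancel₀ (pow_ne_zero 4 H0) (by
    have := h.hΦ; simp only [Ph] at this ⊢; grind)
  have e : 2 * (t * H * u) * Pr 1 t ((H * g) ^ 2) (H ^ 2) (H ^ 2 * ρ) =
      (t * H) ^ 3 * (2 * u * Pr t⁻¹ 1 (g ^ 2) 1 ρ) := by simp only [Pr]; field_simp
  obtain ⟨g₀, hg⟩ := P.res g gO
  obtain ⟨u₀, hu'⟩ := P.res u uO
  have cu : P.Un (cc t⁻¹ 1) := (at4 (c₀ := 0) (by simpa using hs) hg hu' hg).un' (cc (X 0) 1)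
    (by simp [cc]) (by simp [cc])
  obtain ⟨r₀, hr⟩ := P.res ρ (by
    convert Loc.div_mem (pow_mem uO 2) cu using 1
    rw [hu, mul_div_cancel_right₀ _ cu.ne])
  refine (locB (η := -(t * H * ω)) n3 ⟨hu, hΦ, right_ne_zero_of_mul (e ▸ h.N0),
    mul_left_cancel₀ (pow_ne_zero 2 (mul_ne_zero t0 H0)) ?_, at4 (by simpa using hs) hg hu' hr⟩
    fun k => (sc k).1.1 (h.dom k)).mono (fun Z _ hZ k => (sc k).2 Z (hZ k)) ?_
  · have := h.hω
    rw [e] at this
    simp only [jac, Derivation.leibniz, Derivation.leibniz_inv, smul_eq_mul] at this ⊢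
    generalize Pr t⁻¹ 1 (g ^ 2) 1 ρ = N at this ⊢
    grind
  · have sO := P.le _ hs
    simp only [List.mem_cons, List.not_mem_nil, or_false, forall_eq_or_imp, forall_eq]
    exact ⟨⟨_, neg_mem sO, by field_simp⟩, ⟨_, neg_mem (one_mem _), by ring⟩,
      ⟨_, neg_mem (mul_mem sO gO), by field_simp⟩, ⟨_, neg_mem gO, by ring⟩⟩

theorem Hd.caseC (h : Hd P D E t G H U r ω) (tO : t ∈ P.O) (gm : G / U ∈ P.m) (hm : H / U ∈ P.m) :
    Res P D E t G H U r ω := by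
  have U0 : U ≠ 0 := fun e => h.N0 (by simp [e])
  obtain ⟨g, rfl⟩ : ∃ g, G = U * g := ⟨G / U, by field_simp⟩
  obtain ⟨v, rfl⟩ : ∃ v, H = U * v := ⟨H / U, by field_simp⟩
  obtain ⟨ρ, rfl⟩ : ∃ ρ, r = U ^ 2 * ρ := ⟨r / U ^ 2, by field_simp⟩
  rw [mul_div_cancel_left₀ _ U0] at gm hm
  have sc := fun k => scaleV (P := P) (s := 1) (t := t) (G := g) (H := v) (U := 1) (r := ρ)
    one_ne_zero U0 k
  simp only [mul_one, one_mul] at sc
  have hu : ρ * cc 1 t = 1 := mul_left_cancel₀ (pow_ne_zero 2 U0) (by linear_combination -h.hu)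
  have hΦ : Ph 1 t (g ^ 2) (v ^ 2) ρ = 0 := mul_left_cancel₀ (pow_ne_zero 4 U0) (by
    have := h.hΦ; simp only [Ph] at this ⊢; linear_combination this)
  have e : 2 * U * Pr 1 t ((U * g) ^ 2) ((U * v) ^ 2) (U ^ 2 * ρ) =
      U ^ 3 * (2 * Pr 1 t (g ^ 2) (v ^ 2) ρ) := by simp only [Pr]; ring
  obtain ⟨t₀, ht⟩ := P.res t tO
  have a := at4 (c₁ := 0) (c₂ := 0) ht (by simpa using gm) (by simpa using hm) ht
  have e0 := a.eq (Ph 1 (X 0) (X 1 ^ 2 * cc 1 (X 0)) (X 2 ^ 2 * cc 1 (X 0)) 1) (by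
    simp only [Ph, cc] at hΦ hu; simp [Ph, cc]; grind)
  refine (locC (η := U * ω) tO gm hm (a.m' (cc 1 (X 0) + 1) (by simp [cc])
    (by simpa [cc, Ph] using e0)) hu hΦ (right_ne_zero_of_mul (e ▸ h.N0))
    (mul_left_cancel₀ (pow_ne_zero 2 U0) ?_)).mono (fun Z _ hZ k => (sc k).2 Z (hZ k)) ?_
  · have := h.hω
    rw [e] at this
    simp only [jac, Derivation.leibniz, smul_eq_mul] at this ⊢
    linear_combination this
  · have gO := P.le _ gm
    have vO := P.le _ hm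
    simp only [List.mem_cons, List.not_mem_nil, or_false, forall_eq_or_imp, forall_eq]
    exact ⟨⟨v, vO, by ring⟩, ⟨_, mul_mem tO vO, by ring⟩, ⟨g, gO, by ring⟩,
      ⟨_, mul_mem tO gO, by ring⟩⟩

theorem Hd.res (n1 : S_N1 L) (n2 : S_N2 L) (n3 : S_N3 L) (n4 : S_N4 L)
    (h : Hd P D E t G H U r ω) : Res P D E t G H U r ω := by
  have t0 := h.t0
  have G0 := h.G0
  have H0 := h.H0
  have U0 : U ≠ 0 := fun e => h.N0 (by simp [e])
  have up : ∀ {x y z : K}, x / z ∈ P.O → y / z ∈ P.O → y / z ∉ P.m → x / y ∈ P.O :=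
    fun {x y z} a b c => by
      have z0 : z ≠ 0 := fun e => c (by simp [e])
      simpa [div_div_div_cancel_right₀ z0] using Loc.div_mem a ⟨b, c⟩
  by_cases tO : t ∈ P.O
  · obtain ⟨s, hs, -, h1⟩ := (h.dom 1).sub [G * 1, H * 1, U] (by simp [sys]) (by
      simp only [sys, Matrix.cons_val, List.mem_cons, List.not_mem_nil, or_false, forall_eq_or_imp,
        forall_eq, exists_eq_or_imp, exists_eq_left]
      exact ⟨.inl ⟨1, one_mem _, by ring⟩, .inl ⟨t, tO, by ring⟩, .inr (.inl ⟨1, one_mem _, by ring⟩),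
        .inr (.inl ⟨t, tO, by ring⟩), .inr (.inr ⟨1, one_mem _, by ring⟩)⟩)
    simp only [mul_one, List.mem_cons, List.not_mem_nil, or_false, forall_eq_or_imp,
      forall_eq] at hs h1
    by_cases a : H / s ∈ P.m
    · by_cases b : G / s ∈ P.m
      · rcases hs with rfl | rfl | rfl
        · exact absurd (div_self G0 ▸ b) P.one
        · exact absurd (div_self H0 ▸ a) P.one
        · exact h.caseC tO b a
      · exact (h.swap.caseA n1 n2 n4 tO (up h1.2.1 h1.1 b) (up h1.2.2 h1.1 b)).swap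
    · exact h.caseA n1 n2 n4 tO (up h1.1 h1.2.1 a) (up h1.2.2 h1.2.1 a)
  have hm : t⁻¹ ∈ P.m := Loc.inv_m tO (by
    obtain ⟨s, hs, -, h1⟩ := h.dom 0
    simp only [sys, Matrix.cons_val, List.mem_cons, List.not_mem_nil, or_false, forall_eq_or_imp,
      forall_eq] at hs h1
    rcases hs with rfl | rfl
    · exact absurd (by simpa using h1.2) tO
    · simpa using h1.1)
  have sO := P.le _ hm
  obtain ⟨s, hs, s0, h1⟩ := (h.dom 1).sub [G * t, H * t, U] (by simp [sys]) (by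
    simp only [sys, Matrix.cons_val, List.mem_cons, List.not_mem_nil, or_false, forall_eq_or_imp,
      forall_eq, exists_eq_or_imp, exists_eq_left]
    exact ⟨.inl ⟨_, sO, by field_simp⟩, .inl ⟨1, one_mem _, by ring⟩,
      .inr (.inl ⟨_, sO, by field_simp⟩), .inr (.inl ⟨1, one_mem _, by ring⟩),
      .inr (.inr ⟨1, one_mem _, by ring⟩)⟩)
  simp only [List.mem_cons, List.not_mem_nil, or_false, forall_eq_or_imp, forall_eq] at hs h1
  by_cases a : H * t / s ∈ P.m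
  · by_cases b : G * t / s ∈ P.m
    · rcases hs with rfl | rfl | rfl
      · exact absurd (div_self s0 ▸ b) P.one
      · exact absurd (div_self s0 ▸ a) P.one
      have a' : At P ![t⁻¹, G * t / s, H * t / s, 0] ![0, 0, 0, 0] :=
        at4 (by simpa using hm) (by simpa using b) (by simpa using a) (by simp)
      have e1 := h.hu
      have e2 := h.hΦ
      have r0 : r ≠ 0 := fun e => s0 (by simpa [e] using e1)
      have e3 : ∀ y, (y * t / s) ^ 2 * cc t⁻¹ 1 = y ^ 2 / r := fun y => by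
        simp only [cc] at e1 ⊢
        field_simp
        linear_combination (-y ^ 2) * e1
      have e4 : Ph t⁻¹ 1 ((G * t / s) ^ 2 * cc t⁻¹ 1) ((H * t / s) ^ 2 * cc t⁻¹ 1) 1 = 0 := by
        rw [e3, e3]
        simp only [Ph] at e2 ⊢
        field_simp
        linear_combination e2
      have := a'.eq (Ph (X 0) 1 (X 1 ^ 2 * cc (X 0) 1) (X 2 ^ 2 * cc (X 0) 1) 1)
        (by simpa [Ph, cc] using e4)
      simp [Ph] at this
    · exact (h.swap.caseB n3 hm (mul_div_mul_right H G t0 ▸ up h1.2.1 h1.1 b)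
        (mul_comm G t ▸ up h1.2.2 h1.1 b)).swap
  · exact h.caseB n3 hm (mul_div_mul_right G H t0 ▸ up h1.1 h1.2.1 a)
      (mul_comm H t ▸ up h1.2.2 h1.2.1 a)

theorem p_GTV (L : Type u) [Field L] [CharZero L] (hLOC : S_LOC L) (n1 : S_N1 L) (n2 : S_N2 L)
    (n3 : S_N3 L) (n4 : S_N4 L) : S_GTV L := by
  intro K _ _ t g u r ht hu hΦ hK
  have ne : ∀ (F : MvPolynomial (Fin 2) L) (a : Fin 2 → L), eval a F ≠ 0 → aeval ![t, g] F ≠ 0 :=
    fun F a h e => h (by rw [ht.1.eq_zero_of_aeval_eq_zero F e, map_zero])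
  have t0 : t ≠ 0 := fun e => ne (X 0) 1 (by simp) (by simpa using e)
  have g0 : g ≠ 0 := fun e => ne (X 1) 1 (by simp) (by simpa using e)
  have c0 : t ^ 2 + 2 * t - 1 ≠ 0 := fun e => ne (X 0 ^ 2 + 2 * X 0 - 1) 0 (by simp)
    (by simpa using e)
  have hP : Ph 1 t (g ^ 2) 1 r = 0 := by simp only [Ph, Phi] at hΦ ⊢; linear_combination hΦ
  have r0 : r ≠ 0 := fun e => ne (Ph 1 (X 0) (X 1 ^ 2) 1 0) 0 (by simp [Ph])
    (by simpa [Ph, e] using hP)
  have u0 : u ≠ 0 := fun e => mul_ne_zero r0 c0 (by simpa [e] using hu.symm)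
  have p0 : Pr 1 t (g ^ 2) 1 r ≠ 0 := fun e => ne (Pr 1 (X 0) (X 1 ^ 2) 1 0 ^ 2 -
    4 * (X 0 ^ 2 + 2 * X 0) * Ph 1 (X 0) (X 1 ^ 2) 1 0) 0 (by simp [Ph, Pr]) (by
      simp only [Ph, Pr] at e hP
      simp [Ph, Pr]
      linear_combination ((1 - t ^ 2) * (g ^ 2 + 1) + 2 * (t ^ 2 + 2 * t) * r) * e -
        4 * (t ^ 2 + 2 * t) * hP)
  have : CharZero K := charZero_of_injective_algebraMap (algebraMap L K).injective
  have N0 : 2 * u * Pr 1 t (g ^ 2) 1 r ≠ 0 := mul_ne_zero (mul_ne_zero two_ne_zero u0) p0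
  refine seg hLOC (sys 1 t g 1 u r) (by simp [sys, Fin.prod_univ_succ]) (fun k => ?_) ht _ hK ?_ _
    (inv_ne_zero N0) fun D E hj P hD => (Hd.res n1 n2 n3 n4 (ω := (2 * u * Pr 1 t (g ^ 2) 1 r)⁻¹)
      ⟨t0, g0, one_ne_zero, by simpa [cc] using hu, by simpa using hP, by simpa using N0, ?_,
        hD⟩).imp (fun _ h => h) (by simp)
  · fin_cases k <;> simp [sys, u0, r0]
  · rintro w (rfl | rfl | rfl)
    · exact ⟨0, w, by simp [sys], 1, by simp [sys], one_ne_zero, by simp⟩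
    · exact ⟨1, w, by simp [sys], 1, by simp [sys], one_ne_zero, by simp⟩
    · exact ⟨1, w, by simp [sys], 1, by simp [sys], one_ne_zero, by simp⟩
  · rw [one_pow, inv_mul_cancel₀ N0, hj]
    simp [jac]

end Pool.Agent.P.MP_50039c_nt.RS
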