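import Pool.Agent.P.MP_50039c_nt.RS.VDef

/-! The smooth points of the resolvent surface. -/

set_option autoImplicit false
set_option linter.unusedSectionVars false

namespace Pool.Agent.P.MP_50039c_nt.RS

open MvPolynomial Pool.Agent.P.MP_6f117a_ag PJ LV

universe u

theorem sys_map {R S : Type*} [CommRing R] [CommRing S] (φ : R →+* S) (s t G H U r : R)
    (k : Fin 9) : (sys s t G H U r k).map φ = sys (φ s) (φ t) (φ G) (φ H) (φ U) (φ r) k := by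
  fin_cases k <;> simp [sys, cc, map_ofNat]

theorem sys_scale {R : Type*} [CommRing R] (m n s t G H U r : R) (k : Fin 9) :
    sys (m * s) (m * t) (n * G) (n * H) (m * n * U) (n ^ 2 * r) k = (sys s t G H U r k).map
      (m ^ ![1, 1, 0, 2, 1, 1, 1, 1, 1] k * n ^ ![0, 1, 2, 2, 2, 2, 2, 2, 2] k * ·) := by
  fin_cases k <;> simp [sys, cc] <;> grind

theorem sys_swap {R : Type*} [CommRing R] (s t G H U r : R) (k : Fin 9) (y : R) :
    y ∈ sys s t H G U r k ↔ y ∈ sys s t G H U r (Equiv.swap 7 8 k) := by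
  fin_cases k <;> simp [sys, Equiv.swap_apply_def, mul_comm G H] <;> tauto

variable {L K : Type u} [Field L] [Field K] [Algebra L K] {P : Loc L K} {Z : Subalgebra L K}

theorem covS {x : Fin 6 → K} {c : Fin 6 → L} (h : At P x c) (hZ : P.Sq Z) (hx : ∀ i, x i ∈ Z)
    (k : Fin 9) (hu : ∃ y ∈ sys (c 0) (c 1) (c 2) (c 3) (c 4) (c 5) k, y ≠ 0) :
    Cov P Z (sys (x 0) (x 1) (x 2) (x 3) (x 4) (x 5) k) := by
  refine h.cov hZ hx one_ne_zero (sys (X 0) (X 1) (X 2) (X 3) (X 4) (X 5) k) ?_ ?_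
  · have := sys_map (eval c) (X 0) (X 1) (X 2) (X 3) (X 4) (X 5) k
    simp only [eval_X] at this
    simpa only [← this, List.mem_map, exists_exists_and_eq_and] using hu
  · have := sys_map (aeval x : MvPolynomial (Fin 6) L →ₐ[L] K).toRingHom
      (X 0) (X 1) (X 2) (X 3) (X 4) (X 5) k
    simpa using this.symm

variable [CharZero L] {D E : Derivation L K K} {t g u r η : K} {t₀ g₀ u₀ r₀ : L}

theorem nzA (eu : u₀ ^ 2 = r₀ * cc 1 t₀) (eΦ : Ph 1 t₀ (g₀ ^ 2) 1 r₀ = 0) (k : Fin 9)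
    (h1 : k = 3 → ¬(r₀ = 0 ∧ cc 1 t₀ = 0)) (h2 : k = 4 ∨ k = 5 → ¬(r₀ = 0 ∧ t₀ = 1 ∧ g₀ ^ 2 = 1))
    (h4 : k = 7 → ¬(g₀ = 0 ∧ cc 1 t₀ = 0 ∧ r₀ = -t₀)) : ∃ y ∈ sys 1 t₀ g₀ 1 u₀ r₀ k, y ≠ 0 := by
  by_contra! h
  fin_cases k <;> simp [sys, cc, Ph] at * <;> grind

theorem smoothA (eu : u₀ ^ 2 = r₀ * cc 1 t₀) (eΦ : Ph 1 t₀ (g₀ ^ 2) 1 r₀ = 0)
    (h1 : ¬(r₀ = 0 ∧ cc 1 t₀ = 0)) (h2 : ¬(r₀ = 0 ∧ t₀ = 1 ∧ g₀ ^ 2 = 1))
    (h4 : ¬(g₀ = 0 ∧ cc 1 t₀ = 0 ∧ r₀ = -t₀)) : ∃ k l : Fin 4,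
    eval ![t₀, g₀, u₀, r₀] (pderiv k (X 2 ^ 2 - X 3 * cc 1 (X 0))) *
      eval ![t₀, g₀, u₀, r₀] (pderiv l (Ph 1 (X 0) (X 1 ^ 2) 1 (X 3))) ≠
    eval ![t₀, g₀, u₀, r₀] (pderiv l (X 2 ^ 2 - X 3 * cc 1 (X 0))) *
      eval ![t₀, g₀, u₀, r₀] (pderiv k (Ph 1 (X 0) (X 1 ^ 2) 1 (X 3))) := by
  by_contra! h
  have a01 := h 0 1
  have a02 := h 0 2
  have a03 := h 0 3
  have a12 := h 1 2
  have a13 := h 1 3
  have a23 := h 2 3
  clear h
  simp only [cc, Ph] at eu eΦ h1 h2 h4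
  simp only [cc, Ph, pd_nat, map_add, map_sub, map_mul, map_pow, Derivation.leibniz,
    Derivation.leibniz_pow, smul_eq_mul, nsmul_eq_mul, pderiv_X, eval_X, map_ofNat, map_one,
    map_zero, map_natCast, Derivation.map_one_eq_zero, Pi.single_apply] at a01 a02 a03 a12 a13 a23
  simp at a01 a02 a03 a12 a13 a23
  by_cases hg : g₀ = 0
  · subst hg
    by_cases hu : u₀ = 0
    · subst hu
      by_cases hr : r₀ = 0
      · subst hr
        grind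
      · have : t₀ ^ 2 + 2 * t₀ - 1 = 0 := by grind
        grind
    · simp only [hu, false_or] at a02 a23
      clear a01 a03 a12 a13 h1 h2 h4 hu eu
      grind
  · by_cases hu : u₀ = 0
    · subst hu
      by_cases hr : r₀ = 0
      · subst hr
        have hc : 1 - (t₀ ^ 2 + 2 * t₀) ≠ 0 := by grind
        have b1 : 2 * (1 - 2 * t₀) * g₀ ^ 2 + (t₀ ^ 2 + 2 * t₀ - 1) = 0 := by grind
        have b2 : g₀ ^ 4 + 1 = (t₀ + 1) * g₀ ^ 2 := by grind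
        have b3 : (g₀ ^ 2 - 1) * (g₀ ^ 2 + 1) = 0 := by grind
        rcases mul_eq_zero.1 b3 with b | b <;> grind
      · have hc : t₀ ^ 2 + 2 * t₀ - 1 = 0 := by grind
        have b1 : t₀ * g₀ ^ 2 + r₀ = 0 := by grind
        have b2 : t₀ * (g₀ ^ 2 + 1) + r₀ = 0 := by grind
        grind
    · simp only [hu, false_or] at a02 a12 a23
      have hr : r₀ ≠ 0 := by grind
      have b1 : 2 * (1 - 2 * t₀) * g₀ ^ 2 + (t₀ ^ 2 + 2 * t₀ - 1) + (1 - t₀ ^ 2) * r₀ = 0 := by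
        grind
      clear a01 a03 a12 a13 h1 h2 h4 hu eu hg
      generalize g₀ ^ 2 = p at *
      grind

theorem locA (n1 : S_N1 L) (n2 : S_N2 L) (n4 : S_N4 L) (h : PtA P D E t g u r η t₀ g₀ u₀ r₀)
    (hD : ∀ k, Domi P (sys 1 t g 1 u r k)) :
    Out P D E (fun Z => ∀ k, Cov P Z (sys 1 t g 1 u r k)) [η] := by
  have key : ∀ Z, P.Sq Z → (∀ i, ![t, g, u, r] i ∈ Z) → ∀ k : Fin 9,
      (k = 3 → ¬(r₀ = 0 ∧ cc 1 t₀ = 0)) → (k = 4 ∨ k = 5 → ¬(r₀ = 0 ∧ t₀ = 1 ∧ g₀ ^ 2 = 1)) →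
      (k = 7 → ¬(g₀ = 0 ∧ cc 1 t₀ = 0 ∧ r₀ = -t₀)) → Cov P Z (sys 1 t g 1 u r k) :=
    fun Z hZ hx k a b c => covS (x := ![1, t, g, 1, u, r]) (c := ![1, t₀, g₀, 1, u₀, r₀])
      (fun i => by
        fin_cases i
        exacts [by simp, h.res 0, h.res 1, by simp, h.res 2, h.res 3]) hZ
      (fun i => by
        fin_cases i
        exacts [one_mem _, hx 0, hx 1, one_mem _, hx 2, hx 3]) k (nzA h.eu h.eΦ k a b c)
  have one : ∀ y ∈ [η], ∃ b ∈ P.O, y = b * η := fun y hy => ⟨1, one_mem _, by simpa using hy⟩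
  by_cases h1 : r₀ = 0 ∧ cc 1 t₀ = 0
  · refine (n1 K P D E _ _ _ _ _ _ _ _ _ h h1.1 h1.2 (hD 3)).mono (fun Z hZ hx k => ?_) one
    by_cases e : k = 3
    · exact e ▸ hx.2
    · exact key Z hZ hx.1 k (absurd · e) (by simp only [cc] at h1; grind)
        (by simp only [cc] at h1 ⊢; grind)
  by_cases h2 : r₀ = 0 ∧ t₀ = 1 ∧ g₀ ^ 2 = 1
  · refine (n2 K P D E _ _ _ _ _ _ _ _ _ h h2.1 h2.2.1 h2.2.2 (hD 4) (hD 5)).mono
      (fun Z hZ hx k => ?_) one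
    by_cases e : k = 4 ∨ k = 5
    · rcases e with rfl | rfl
      exacts [hx.2.1, hx.2.2]
    · exact key Z hZ hx.1 k (fun _ => h1) (absurd · e) (by grind)
  by_cases h4 : g₀ = 0 ∧ cc 1 t₀ = 0 ∧ r₀ = -t₀
  · refine (n4 K P D E _ _ _ _ _ _ _ _ _ h h4.1 h4.2.1 h4.2.2 (hD 7)).mono (fun Z hZ hx k => ?_) one
    by_cases e : k = 7
    · exact e ▸ hx.2
    · exact key Z hZ hx.1 k (fun _ => h1) (fun _ => h2) (absurd · e)
  exact chart D E h.res (X 2 ^ 2 - X 3 * cc 1 (X 0)) (Ph 1 (X 0) (X 1 ^ 2) 1 (X 3)) (X 0) (X 1)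
    (by simpa [cc, sub_eq_zero] using h.hu) (by simpa [Ph] using h.hΦ)
    (fun _ _ => smoothA h.eu h.eΦ h1 h2 h4) 1 (one_mem _) h.N0
    (by simp [det4, grad, Ph, Pr, cc, pd_nat]; left; ring) h.hη (by simp) (by simp)
    fun Z hZ hx k => key Z hZ hx k (fun _ => h1) (fun _ => h2) fun _ => h4

theorem locB (n3 : S_N3 L) (h : PtB P D E t g u r η g₀ u₀ r₀)
    (hD : ∀ k, Domi P (sys t 1 g 1 u r k)) :
    Out P D E (fun Z => ∀ k, Cov P Z (sys t 1 g 1 u r k)) [η] := by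
  have eu := h.eu
  have eΦ := h.eΦ
  have key : ∀ Z, P.Sq Z → (∀ i, ![t, g, u, r] i ∈ Z) → ∀ k : Fin 9,
      (k = 6 → ¬(r₀ = 1 ∧ g₀ ^ 2 = 1)) → Cov P Z (sys t 1 g 1 u r k) :=
    fun Z hZ hx k a => covS (x := ![t, 1, g, 1, u, r]) (c := ![0, 1, g₀, 1, u₀, r₀])
      (fun i => by
        fin_cases i
        exacts [h.res 0, by simp, h.res 1, by simp, h.res 2, h.res 3]) hZ
      (fun i => by
        fin_cases i
        exacts [hx 0, one_mem _, hx 1, one_mem _, hx 2, hx 3]) k (by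
          by_contra! h
          fin_cases k <;> simp [sys, cc] at h a <;> grind)
  by_cases h1 : r₀ = 1 ∧ g₀ ^ 2 = 1
  · refine (n3 K P D E _ _ _ _ _ _ _ _ h h1.1 h1.2 (hD 6)).mono (fun Z hZ hx k => ?_)
      fun y hy => ⟨1, one_mem _, by simpa using hy⟩
    by_cases e : k = 6
    · exact e ▸ hx.2
    · exact key Z hZ hx.1 k (absurd · e)
  refine chart D E h.res (X 2 ^ 2 - X 3 * cc (X 0) 1) (Ph (X 0) 1 (X 1 ^ 2) 1 (X 3)) (X 0) (X 1)
    (by simpa [cc, sub_eq_zero] using h.hu) (by simpa [Ph] using h.hΦ)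
    (fun _ _ => ?_) 1 (one_mem _) h.N0
    (by simp [det4, grad, Ph, Pr, cc, pd_nat]; left; ring) h.hη (by simp) (by simp)
    fun Z hZ hx k => key Z hZ hx k fun _ => h1
  by_contra! a
  have a03 := a 0 3
  have a13 := a 1 3
  have a23 := a 2 3
  simp [cc, Ph, pd_nat] at a03 a13 a23
  grind

theorem locC {G H : K} (tO : t ∈ P.O) (hG : G ∈ P.m) (hH : H ∈ P.m) (hc : cc 1 t + 1 ∈ P.m)
    (hr : r * cc 1 t = 1) (hΦ : Ph 1 t (G ^ 2) (H ^ 2) r = 0) (N0 : 2 * Pr 1 t (G ^ 2) (H ^ 2) r ≠ 0)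
    (hη : η * (2 * Pr 1 t (G ^ 2) (H ^ 2) r) = H * jac D E t G - G * jac D E t H) :
    Out P D E (fun Z => ∀ k, Cov P Z (sys 1 t G H 1 r k)) [η] := by
  obtain ⟨t₀, ht⟩ := P.res t tO
  have cu : P.Un (cc 1 t) := by simpa using Loc.un_one.neg.add_m hc
  have hr' : r - algebraMap L K (-1) ∈ P.m := cu.cancel (by
    convert hc using 1; simp only [map_neg, map_one]; linear_combination hr)
  have at' := at4 (c₁ := 0) (c₂ := 0) ht (by simpa using hG) (by simpa using hH) hr'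
  have e0 : t₀ ^ 2 + 2 * t₀ = 0 := by
    have := at'.zero (cc 1 (X 0) + 1) (by simpa [cc] using hc)
    simpa [cc] using this
  obtain ⟨ζ, h1, h2⟩ := chart0 D E at' (X 3 * cc 1 (X 0) - 1)
    (Ph 1 (X 0) (X 1 ^ 2) (X 2 ^ 2) (X 3)) (by simpa [cc, sub_eq_zero] using hr)
    (by simpa [Ph] using hΦ) fun _ _ => ⟨0, 3, by simp [Ph, cc, pd_nat]; grind⟩
  refine h2.mono (fun Z hZ hx k => covS (x := ![1, t, G, H, 1, r]) (c := ![1, t₀, 0, 0, 1, -1])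
      (fun i => by
        fin_cases i
        exacts [by simp, ht, at' 1, at' 2, by simp, hr']) hZ
      (fun i => by
        fin_cases i
        exacts [one_mem _, hx 0, hx 1, hx 2, one_mem _, hx 3]) k (by
          by_contra! h
          fin_cases k <;> simp [sys, cc] at h <;> grind))
    fun y hy => ⟨1, one_mem _, mul_right_cancel₀ N0 ?_⟩
  have a := h1 (X 0) (X 1)
  have b := h1 (X 0) (X 2)
  simp [det4, grad, Ph, cc, pd_nat] at a b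
  rw [List.mem_singleton.1 hy, hη, a, b]
  simp only [Ph, Pr, cc] at hΦ hr ⊢
  linear_combination (-4 * (t ^ 2 + 2 * t - 1) * ζ) * hΦ +
    2 * ((1 - t ^ 2) * (G ^ 2 + H ^ 2) + 2 * (t ^ 2 + 2 * t) * r) * ζ * hr

end Pool.Agent.P.MP_50039c_nt.RS
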