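import Pool.Agent.P.MP_50039c_nt.RS.Core

/-! The linear systems on the resolvent surface and the local steps at its singular points. -/

set_option autoImplicit false

namespace Pool.Agent.P.MP_50039c_nt.RS

open MvPolynomial Pool.Agent.P.MP_6f117a_ag PJ LV

universe u

/-- The homogeneous form of `t ^ 2 + 2 * t - 1`. -/
def cc {R : Type*} [CommRing R] (s t : R) : R := t ^ 2 + 2 * t * s - s ^ 2

/-- The equation of the surface, homogeneous in `(s : t)`. -/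
def Ph {R : Type*} [CommRing R] (s t p q r : R) : R :=
  (s ^ 2 - 2 * t * s) * (p ^ 2 + q ^ 2) + (t ^ 2 + 2 * t * s - s ^ 2) * p * q +
    (s ^ 2 - t ^ 2) * r * (p + q) + (t ^ 2 + 2 * t * s) * r ^ 2

/-- The derivative of `Ph` in `r`. -/
def Pr {R : Type*} [CommRing R] (s t p q r : R) : R :=
  (s ^ 2 - t ^ 2) * (p + q) + 2 * (t ^ 2 + 2 * t * s) * r

/-- The linear systems. -/
def sys {R : Type*} [CommRing R] (s t G H U r : R) : Fin 9 → List R :=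
  ![[s, t], [G * s, G * t, H * s, H * t, U], [G ^ 2, H ^ 2, r],
    [r * s ^ 2, cc s t * G ^ 2, cc s t * H ^ 2, U * G * s, U * H * s],
    [(G ^ 2 - H ^ 2) * s, (H ^ 2 - G ^ 2) * s, (t - s) * G ^ 2, (t - s) * H ^ 2, (t - s) * r,
      U * G, U * H],
    [(G ^ 2 - H ^ 2) * s, (H ^ 2 - G ^ 2) * s, (t - s) * G ^ 2, (t - s) * H ^ 2, r * s],
    [G ^ 2 * s, H ^ 2 * s, r * s, (G ^ 2 - r) * t, (H ^ 2 - r) * t],
    [G ^ 2 * s, G ^ 2 * t, G * H * s, U * H, r * s + t * H ^ 2],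
    [H ^ 2 * s, H ^ 2 * t, G * H * s, U * G, r * s + t * G ^ 2]]

variable {L K : Type u} [Field L] [Field K] [Algebra L K]

/-- A point of the surface with finite `t`. -/
structure PtA (P : Loc L K) (D E : Derivation L K K) (t g u r η : K) (t₀ g₀ u₀ r₀ : L) : Prop where
  hu : u ^ 2 = r * cc 1 t
  hΦ : Ph 1 t (g ^ 2) 1 r = 0
  N0 : 2 * u * Pr 1 t (g ^ 2) 1 r ≠ 0
  hη : η * (2 * u * Pr 1 t (g ^ 2) 1 r) = jac D E t g
  res : At P ![t, g, u, r] ![t₀, g₀, u₀, r₀]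

/-- A point of the surface with infinite `t`; here `s = 1 / t`. -/
structure PtB (P : Loc L K) (D E : Derivation L K K) (s g u r η : K) (g₀ u₀ r₀ : L) : Prop where
  hu : u ^ 2 = r * cc s 1
  hΦ : Ph s 1 (g ^ 2) 1 r = 0
  N0 : 2 * u * Pr s 1 (g ^ 2) 1 r ≠ 0
  hη : η * (2 * u * Pr s 1 (g ^ 2) 1 r) = jac D E s g
  res : At P ![s, g, u, r] ![0, g₀, u₀, r₀]

section
variable {P : Loc L K} {D E : Derivation L K K} {t g u r η : K} {t₀ g₀ u₀ r₀ : L}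

theorem PtA.eu (h : PtA P D E t g u r η t₀ g₀ u₀ r₀) : u₀ ^ 2 = r₀ * cc 1 t₀ := by
  have := h.res.eq (X 2 ^ 2 - X 3 * cc 1 (X 0)) (by simpa [cc, sub_eq_zero] using h.hu)
  simpa [cc, sub_eq_zero] using this

theorem PtA.eΦ (h : PtA P D E t g u r η t₀ g₀ u₀ r₀) : Ph 1 t₀ (g₀ ^ 2) 1 r₀ = 0 := by
  have := h.res.eq (Ph 1 (X 0) (X 1 ^ 2) 1 (X 3)) (by simpa [Ph] using h.hΦ)
  simpa [Ph, map_ofNat] using this

theorem PtB.eu (h : PtB P D E t g u r η g₀ u₀ r₀) : u₀ ^ 2 = r₀ := by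
  have := h.res.eq (X 2 ^ 2 - X 3 * cc (X 0) 1) (by simpa [cc, sub_eq_zero] using h.hu)
  simpa [cc, sub_eq_zero] using this

theorem PtB.eΦ (h : PtB P D E t g u r η g₀ u₀ r₀) : (g₀ ^ 2 - r₀) * (1 - r₀) = 0 := by
  have := h.res.eq (Ph (X 0) 1 (X 1 ^ 2) 1 (X 3)) (by simpa [Ph] using h.hΦ)
  simp [Ph] at this
  linear_combination this

end

variable (L)

def S_N1 : Prop := ∀ (K : Type u) [Field K] [Algebra L K] (P : Loc L K) (D E : Derivation L K K)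
  (t g u r η : K) (t₀ g₀ u₀ r₀ : L), PtA P D E t g u r η t₀ g₀ u₀ r₀ → r₀ = 0 → cc 1 t₀ = 0 →
  Domi P (sys 1 t g 1 u r 3) → Out P D E
    (fun Z => (∀ i, ![t, g, u, r] i ∈ Z) ∧ Cov P Z (sys 1 t g 1 u r 3)) [η]

def S_N2 : Prop := ∀ (K : Type u) [Field K] [Algebra L K] (P : Loc L K) (D E : Derivation L K K)
  (t g u r η : K) (t₀ g₀ u₀ r₀ : L), PtA P D E t g u r η t₀ g₀ u₀ r₀ → r₀ = 0 → t₀ = 1 →
  g₀ ^ 2 = 1 → Domi P (sys 1 t g 1 u r 4) → Domi P (sys 1 t g 1 u r 5) → Out P D E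
    (fun Z => (∀ i, ![t, g, u, r] i ∈ Z) ∧ Cov P Z (sys 1 t g 1 u r 4) ∧
      Cov P Z (sys 1 t g 1 u r 5)) [η]

def S_N3 : Prop := ∀ (K : Type u) [Field K] [Algebra L K] (P : Loc L K) (D E : Derivation L K K)
  (s g u r η : K) (g₀ u₀ r₀ : L), PtB P D E s g u r η g₀ u₀ r₀ → r₀ = 1 → g₀ ^ 2 = 1 →
  Domi P (sys s 1 g 1 u r 6) → Out P D E
    (fun Z => (∀ i, ![s, g, u, r] i ∈ Z) ∧ Cov P Z (sys s 1 g 1 u r 6)) [η]

def S_N4 : Prop := ∀ (K : Type u) [Field K] [Algebra L K] (P : Loc L K) (D E : Derivation L K K)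
  (t g u r η : K) (t₀ g₀ u₀ r₀ : L), PtA P D E t g u r η t₀ g₀ u₀ r₀ → g₀ = 0 → cc 1 t₀ = 0 →
  r₀ = -t₀ → Domi P (sys 1 t g 1 u r 7) → Out P D E
    (fun Z => (∀ i, ![t, g, u, r] i ∈ Z) ∧ Cov P Z (sys 1 t g 1 u r 7)) [η]

end Pool.Agent.P.MP_50039c_nt.RS
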